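import Pool.Agent.TH521.AlgDeg5
set_option autoImplicit false

/-! Lower estimates for the number of integers below `k` of small digit sum. -/

namespace TH521.AlgDeg

open Finset Filter

theorem one_le_Gs (k e : ℕ) (hk : 1 ≤ k) : 1 ≤ Gs k (e + 1) := by
  rw [← Gs_one e]
  exact Gs_mono hk _

theorem low_fixed (d : ℕ) (hd : 1 ≤ d) : ∃ c : ℝ, 0 < c ∧ ∀ k : ℕ, 2 ≤ k → ∀ n : ℕ,
    (n : ℝ) ≤ c * Real.log k ^ d → 2 * n + 1 ≤ Gs k (d + 1) := by
  have hl2 : 0 < Real.log 2 := Real.log_pos (by norm_num)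
  have hl21 : Real.log 2 < 1 := by have := Real.log_two_lt_d9; linarith
  have hdR : (1 : ℝ) ≤ d := by exact_mod_cast hd
  have hfac : (0 : ℝ) < (d.factorial : ℝ) := by exact_mod_cast Nat.factorial_pos d
  have hfac1 : (1 : ℝ) ≤ (d.factorial : ℝ) := by exact_mod_cast Nat.factorial_pos d
  have h2d : (1 : ℝ) ≤ (2 * d : ℝ) ^ d := one_le_pow₀ (by linarith)
  have h4d : (1 : ℝ) ≤ (4 : ℝ) ^ d := one_le_pow₀ (by norm_num)
  set c : ℝ := 1 / (3 * 4 ^ d * d.factorial * (2 * d) ^ d) with hc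
  have hc0 : 0 < c := by positivity
  refine ⟨c, hc0, fun k hk n hn => ?_⟩
  rcases Nat.eq_zero_or_pos n with rfl | hn0
  · simpa using one_le_Gs k d (by omega)
  have hkR : (2 : ℝ) ≤ k := by exact_mod_cast hk
  have hL : 0 ≤ Real.log k := Real.log_nonneg (by linarith)
  set T := Nat.log 2 k with hT
  have hLT : Real.log k < (T : ℝ) + 1 := by
    have h1 := log_lt k (by omega)
    have h2 : Real.log k ≤ Real.log k / Real.log 2 := by
      rw [le_div_iff₀ hl2]
      nlinarith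
    rw [← hT] at h1
    linarith
  have hT1 : 1 ≤ T := by
    rw [hT]
    exact (Nat.log_pos (by norm_num) hk)
  have hn1 : (1 : ℝ) ≤ n := by exact_mod_cast hn0
  by_cases hTd : T < 2 * d
  · exfalso
    have h1 : (T : ℝ) + 1 ≤ 2 * d := by exact_mod_cast hTd
    have h2 : Real.log k ^ d ≤ (2 * d : ℝ) ^ d := pow_le_pow_left₀ hL (by linarith) _
    have h3 : c * Real.log k ^ d ≤ c * (2 * d : ℝ) ^ d := mul_le_mul_of_nonneg_left h2 hc0.le
    have h4 : c * (2 * d : ℝ) ^ d = 1 / (3 * 4 ^ d * d.factorial) := by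
      rw [hc]; field_simp
    have h5 : (1 : ℝ) / (3 * 4 ^ d * d.factorial) < 1 := by
      rw [div_lt_one (by positivity)]
      nlinarith
    linarith
  · push Not at hTd
    have hch : (T + 1 - d) ^ d ≤ d.factorial * T.choose d := by
      rw [← Nat.descFactorial_eq_factorial_mul_choose]
      exact Nat.pow_sub_le_descFactorial _ _
    have h1 : ((T : ℝ) / 2) ^ d ≤ ((T + 1 - d : ℕ) : ℝ) ^ d := by
      apply pow_le_pow_left₀ (by positivity)
      rw [Nat.cast_sub (by omega)]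
      push_cast
      have : (2 * d : ℝ) ≤ T := by exact_mod_cast hTd
      linarith
    have h2 : ((T : ℝ) / 2) ^ d ≤ d.factorial * (T.choose d : ℝ) := by
      refine h1.trans ?_
      exact_mod_cast hch
    have hT1R : (1 : ℝ) ≤ T := by exact_mod_cast hT1
    have h3 : Real.log k ^ d ≤ (2 * T : ℝ) ^ d := pow_le_pow_left₀ hL (by linarith) _
    have h4 : (2 * T : ℝ) ^ d = 4 ^ d * ((T : ℝ) / 2) ^ d := by
      rw [← mul_pow]; congr 1; ring
    have h5 : (3 : ℝ) * n ≤ T.choose d := by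
      calc (3 : ℝ) * n ≤ 3 * (c * Real.log k ^ d) := by linarith
        _ ≤ 3 * (c * (4 ^ d * ((T : ℝ) / 2) ^ d)) := by
            rw [← h4]
            have := mul_le_mul_of_nonneg_left h3 hc0.le
            linarith
        _ ≤ 3 * (c * (4 ^ d * (d.factorial * (T.choose d : ℝ)))) := by
            gcongr
        _ = (T.choose d : ℝ) / (2 * d) ^ d := by
            rw [hc]; field_simp
        _ ≤ T.choose d := div_le_self (Nat.cast_nonneg _) h2d
    have h6 : 3 * n ≤ T.choose d := by exact_mod_cast h5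
    have h7 : T.choose d ≤ Gs (2 ^ T) (d + 1) := by
      rw [Gs_pow]
      exact single_le_sum (f := fun i => T.choose i) (fun _ _ => Nat.zero_le _)
        (mem_range.2 (Nat.lt_succ_self d))
    have h8 : Gs (2 ^ T) (d + 1) ≤ Gs k (d + 1) :=
      Gs_mono (Nat.pow_log_le_self 2 (by omega)) _
    omega

theorem low_pow (δ : ℝ) (hδ : 0 < δ) : ∃ ε : ℝ, 0 < ε ∧ ∃ k0 : ℕ, 2 ≤ k0 ∧ ∀ k : ℕ, k0 ≤ k →
    ∀ D n : ℕ, δ * Real.log k ≤ D → (n : ℝ) ≤ (k : ℝ) ^ ε → 2 * n + 1 ≤ Gs k (D / 2 + 1) := by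
  have hl2 : 0 < Real.log 2 := Real.log_pos (by norm_num)
  have hl21 : Real.log 2 < 1 := by have := Real.log_two_lt_d9; linarith
  set μ := min (δ / 2) 1 with hμ
  have hμ0 : 0 < μ := lt_min (by linarith) one_pos
  have hμ1 : μ ≤ 1 := min_le_right _ _
  have hμ2 : μ ≤ δ / 2 := min_le_left _ _
  set ε := μ * Real.log 2 / 2 with hε
  have hε0 : 0 < ε := by positivity
  obtain ⟨k1, hk1⟩ := eventually_log_le 0 6 ε hε0
  refine ⟨ε, hε0, max 2 k1, le_max_left _ _, fun k hk D n hD hn => ?_⟩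
  have hk2 : 2 ≤ k := (le_max_left _ _).trans hk
  have hkR : (2 : ℝ) ≤ k := by exact_mod_cast hk2
  have hk0 : (0 : ℝ) < k := by linarith
  have hL : 0 ≤ Real.log k := Real.log_nonneg (by linarith)
  have h6 : (6 : ℝ) ≤ (k : ℝ) ^ ε := by
    have := hk1 k ((le_max_right _ _).trans hk)
    linarith
  set T := Nat.log 2 k with hT
  have hLT : Real.log k < (T : ℝ) + 1 := by
    have h1 := log_lt k (by omega)
    have h2 : Real.log k ≤ Real.log k / Real.log 2 := by
      rw [le_div_iff₀ hl2]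
      nlinarith
    rw [← hT] at h1
    linarith
  set d := D / 2 with hd
  have hdR : ((D : ℝ) - 1) / 2 ≤ d := by
    have : D ≤ 2 * d + 1 := by omega
    have : (D : ℝ) ≤ 2 * d + 1 := by exact_mod_cast this
    linarith
  set d' := min d T with hd'
  have hd'R : μ * Real.log k - 1 ≤ d' := by
    rw [hd', Nat.cast_min]
    refine le_min ?_ ?_
    · have : μ * Real.log k ≤ δ / 2 * Real.log k := mul_le_mul_of_nonneg_right hμ2 hL
      linarith
    · have : μ * Real.log k ≤ 1 * Real.log k := mul_le_mul_of_nonneg_right hμ1 hL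
      linarith
  have h1 : 2 ^ d' ≤ Gs k (d + 1) := by
    calc 2 ^ d' = ∑ i ∈ range (d' + 1), d'.choose i := (Nat.sum_range_choose d').symm
      _ = Gs (2 ^ d') (d' + 1) := (Gs_pow _ _).symm
      _ ≤ Gs (2 ^ d') (d + 1) := Gs_mono_right (by omega) _
      _ ≤ Gs k (d + 1) := Gs_mono ((Nat.pow_le_pow_right (by norm_num) (by omega)).trans
          (Nat.pow_log_le_self 2 (by omega))) _
  have h2 : (k : ℝ) ^ (2 * ε) / 2 ≤ (2 : ℝ) ^ d' := by
    have e1 : (k : ℝ) ^ (2 * ε) / 2 = Real.exp ((μ * Real.log k - 1) * Real.log 2) := by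
      rw [sub_mul, Real.exp_sub, one_mul, Real.exp_log (by norm_num), Real.rpow_def_of_pos hk0]
      congr 2
      rw [hε]; ring
    have e2 : (2 : ℝ) ^ d' = Real.exp (d' * Real.log 2) := by
      rw [← Real.log_pow, Real.exp_log (by positivity)]
    rw [e1, e2]
    apply Real.exp_le_exp.2
    exact mul_le_mul_of_nonneg_right hd'R hl2.le
  have h3 : (k : ℝ) ^ (2 * ε) = (k : ℝ) ^ ε * (k : ℝ) ^ ε := by
    rw [two_mul, Real.rpow_add hk0]
  have h4 : (2 : ℝ) * n + 1 ≤ 2 ^ d' := by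
    rw [h3] at h2
    nlinarith
  have h5 : 2 * n + 1 ≤ 2 ^ d' := by exact_mod_cast h4
  exact h5.trans h1

theorem low_exp (η : ℝ) (hη : 0 < η) (hη1 : η < 1) : ∃ k0 : ℕ, 2 ≤ k0 ∧ ∀ k : ℕ, k0 ≤ k →
    ∀ D n : ℕ, (1 + η) * (Real.log k / Real.log 2) ≤ D → (n : ℝ) ≤ (1 - η) * k / 2 →
    2 * n + 1 ≤ Gs k (D / 2 + 1) := by
  have hl2 : 0 < Real.log 2 := Real.log_pos (by norm_num)
  set ρ := (1 + η) / 2 * Real.log (1 + η) - Real.log (1 + η / 2) with hρ
  have hρ0 : 0 < ρ := by
    have h1 : η < (1 + η) * Real.log (1 + η) := by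
      have h2 : Real.log (1 + η)⁻¹ < (1 + η)⁻¹ - 1 := by
        apply Real.log_lt_sub_one_of_pos (by positivity)
        intro h
        have : (1 + η) = 1 := by
          rw [inv_eq_one] at h; exact h
        linarith
      rw [Real.log_inv] at h2
      have h3 : (1 + η) * (1 + η)⁻¹ = 1 := mul_inv_cancel₀ (by positivity)
      nlinarith
    have h4 : Real.log (1 + η / 2) < η / 2 := by
      have := Real.log_lt_sub_one_of_pos (x := 1 + η / 2) (by positivity) (by
        intro h; linarith)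
      linarith
    rw [hρ]
    linarith
  have hr : 0 < ρ / Real.log 2 := by positivity
  obtain ⟨k1, hk1⟩ := eventually_log_le 0 (6 / η) (ρ / Real.log 2) hr
  refine ⟨max 2 (max k1 ⌈2 / η⌉₊), le_max_left _ _, fun k hk D n hD hn => ?_⟩
  have hk2 : 2 ≤ k := (le_max_left _ _).trans hk
  have hk3 : k1 ≤ k := (le_max_left _ _).trans ((le_max_right _ _).trans hk)
  have hk4 : ⌈2 / η⌉₊ ≤ k := (le_max_right _ _).trans ((le_max_right _ _).trans hk)
  have hkR : (2 : ℝ) ≤ k := by exact_mod_cast hk2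
  have hk0 : (0 : ℝ) < k := by linarith
  have hL : 0 ≤ Real.log k := Real.log_nonneg (by linarith)
  have h2η : 2 / η ≤ k := (Nat.le_ceil _).trans (by exact_mod_cast hk4)
  have h2η' : 2 ≤ η * k := by
    rw [div_le_iff₀ hη] at h2η; linarith
  have h6 : 6 / η ≤ (k : ℝ) ^ (ρ / Real.log 2) := by
    have := hk1 k hk3
    linarith
  have hG := Gs_large (1 + η) (by linarith) k (D / 2 + 1)
  have hlog1 : 0 < Real.log (1 + η) := Real.log_pos (by linarith)
  have hlog2 : 0 < Real.log (1 + (1 + η)) := Real.log_pos (by linarith)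
  have hlog3 : Real.log (1 + (1 + η)) = Real.log 2 + Real.log (1 + η / 2) := by
    rw [← Real.log_mul (by norm_num) (by positivity)]
    congr 1; ring
  have hnum : (1 + (1 + η)) ^ (Nat.clog 2 k) ≤
      3 * Real.exp (Real.log (1 + (1 + η)) * (Real.log k / Real.log 2)) := by
    have hcl := clog_le k hk2
    have e1 : (1 + (1 + η)) ^ (Nat.clog 2 k) =
        Real.exp (Real.log (1 + (1 + η)) * (Nat.clog 2 k)) := by
      rw [mul_comm, ← Real.log_pow, Real.exp_log (by positivity)]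
    rw [e1]
    calc Real.exp (Real.log (1 + (1 + η)) * (Nat.clog 2 k))
        ≤ Real.exp (Real.log (1 + (1 + η)) * (Real.log k / Real.log 2 + 1)) :=
          Real.exp_le_exp.2 (mul_le_mul_of_nonneg_left hcl hlog2.le)
      _ = (1 + (1 + η)) * Real.exp (Real.log (1 + (1 + η)) * (Real.log k / Real.log 2)) := by
          rw [mul_add, mul_one, Real.exp_add, Real.exp_log (by positivity)]
          ring
      _ ≤ 3 * Real.exp (Real.log (1 + (1 + η)) * (Real.log k / Real.log 2)) := by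
          have := Real.exp_pos (Real.log (1 + (1 + η)) * (Real.log k / Real.log 2))
          nlinarith
  have hden : Real.exp (Real.log (1 + η) * ((1 + η) / 2 * (Real.log k / Real.log 2))) ≤
      (1 + η) ^ (D / 2 + 1) := by
    have e1 : (1 + η) ^ (D / 2 + 1) = Real.exp (Real.log (1 + η) * ((D / 2 + 1 : ℕ) : ℝ)) := by
      rw [mul_comm, ← Real.log_pow, Real.exp_log (by positivity)]
    rw [e1]
    apply Real.exp_le_exp.2
    apply mul_le_mul_of_nonneg_left _ hlog1.le
    have h1 : (D : ℝ) / 2 ≤ ((D / 2 + 1 : ℕ) : ℝ) := by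
      have : D ≤ 2 * (D / 2 + 1) := by omega
      have : (D : ℝ) ≤ 2 * ((D / 2 + 1 : ℕ) : ℝ) := by exact_mod_cast this
      linarith
    linarith
  have hquot : (1 + (1 + η)) ^ (Nat.clog 2 k) / (1 + η) ^ (D / 2 + 1) ≤
      3 * k / (k : ℝ) ^ (ρ / Real.log 2) := by
    have e1 : 3 * (k : ℝ) / (k : ℝ) ^ (ρ / Real.log 2) =
        3 * Real.exp (Real.log (1 + (1 + η)) * (Real.log k / Real.log 2)) /
        Real.exp (Real.log (1 + η) * ((1 + η) / 2 * (Real.log k / Real.log 2))) := by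
      rw [mul_div_assoc, mul_div_assoc, ← Real.exp_sub, Real.rpow_def_of_pos hk0]
      congr 1
      have : (k : ℝ) / Real.exp (Real.log k * (ρ / Real.log 2)) =
          Real.exp (Real.log k) / Real.exp (Real.log k * (ρ / Real.log 2)) := by
        rw [Real.exp_log hk0]
      rw [this, ← Real.exp_sub]
      congr 1
      rw [hρ, hlog3]
      field_simp
      ring
    rw [e1]
    exact div_le_div₀ (by positivity) hnum (Real.exp_pos _) hden
  have hlast : 3 * (k : ℝ) / (k : ℝ) ^ (ρ / Real.log 2) ≤ η * k / 2 := by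
    have hp : 0 < (k : ℝ) ^ (ρ / Real.log 2) := Real.rpow_pos_of_pos hk0 _
    rw [div_le_iff₀ hp]
    have h1 : 6 ≤ η * (k : ℝ) ^ (ρ / Real.log 2) := by
      rw [div_le_iff₀ hη] at h6; linarith
    nlinarith
  have hfin : (2 : ℝ) * n + 1 ≤ Gs k (D / 2 + 1) := by
    linarith
  exact_mod_cast hfin

end TH521.AlgDeg
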