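import Mathlib
set_option autoImplicit false

/-! Interpolation by polynomials of small degree on a large subset of an arbitrary subset of
`F_2^n`; the number of integers below `N` with small binary digit sum. -/

namespace TH521.AlgDeg

open MvPolynomial Finset

/-- binary digit sum -/
def pop (x : ℕ) : ℕ := (Nat.digits 2 x).sum

theorem pop_two_mul (x : ℕ) : pop (2 * x) = pop x := by
  rcases Nat.eq_zero_or_pos x with rfl | hx
  · rfl
  · unfold pop
    rw [Nat.digits_def' (by norm_num) (by omega)]
    have h1 : 2 * x % 2 = 0 := by omega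
    have h2 : 2 * x / 2 = x := by omega
    rw [h1, h2, List.sum_cons, zero_add]

theorem pop_two_mul_add_one (x : ℕ) : pop (2 * x + 1) = pop x + 1 := by
  unfold pop
  rw [Nat.digits_def' (by norm_num) (by omega)]
  have h1 : (2 * x + 1) % 2 = 1 := by omega
  have h2 : (2 * x + 1) / 2 = x := by omega
  rw [h1, h2, List.sum_cons, add_comm]

/-- number of `x < N` with digit sum `< e` -/
def Gs (N e : ℕ) : ℕ := ((range N).filter (fun x => pop x < e)).card

theorem Gs_succ (N e : ℕ) : Gs (N + 1) e = Gs N e + if pop N < e then 1 else 0 := by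
  unfold Gs
  rw [range_add_one, filter_insert]
  split_ifs with h
  · rw [card_insert_of_notMem]
    intro h'
    exact absurd (mem_range.1 (mem_filter.1 h').1) (lt_irrefl _)
  · rfl

theorem Gs_zero (e : ℕ) : Gs 0 e = 0 := rfl

theorem Gs_zero_right (N : ℕ) : Gs N 0 = 0 := by simp [Gs]

theorem Gs_one (e : ℕ) : Gs 1 (e + 1) = 1 := by
  rw [Gs_succ, Gs_zero]
  have : pop 0 = 0 := rfl
  simp [this]

theorem Gs_even (m e : ℕ) : Gs (2 * m) e = Gs m e + Gs m (e - 1) := by
  induction m with
  | zero => simp [Gs_zero]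
  | succ m ih =>
    have h1 : 2 * (m + 1) = 2 * m + 1 + 1 := by ring
    rw [h1, Gs_succ, Gs_succ, ih, Gs_succ, Gs_succ, pop_two_mul, pop_two_mul_add_one]
    rcases Nat.eq_zero_or_pos e with rfl | he
    · simp
    · by_cases h2 : pop m < e <;> by_cases h3 : pop m < e - 1
      · have h4 : pop m + 1 < e := by omega
        simp only [h2, h3, h4, if_true]; ring
      · have h4 : ¬ pop m + 1 < e := by omega
        simp only [h2, h3, h4, if_true, if_false]; ring
      · omega
      · have h4 : ¬ pop m + 1 < e := by omega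
        simp only [h2, h3, h4, if_false]; ring

theorem Gs_odd (m e : ℕ) : Gs (2 * m + 1) e = Gs (m + 1) e + Gs m (e - 1) := by
  rw [Gs_succ, Gs_even, Gs_succ, pop_two_mul]
  ring

theorem Gs_sub (b e : ℕ) : Gs b (e - 1) + Gs (b + 1) (e - 1 - 1) ≤
    Gs (b + 1) (e - 1) + Gs b (e - 1 - 1) := by
  rw [Gs_succ, Gs_succ]
  split_ifs <;> omega

theorem Gs_subadd (n : ℕ) : ∀ a b e : ℕ, a + b = n → b ≤ a → Gs (a + b) e ≤ Gs a e + Gs b (e - 1) := by
  induction n using Nat.strong_induction_on with
  | _ n ih =>
    intro a b e hn hba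
    rcases Nat.eq_zero_or_pos b with rfl | hb
    · simp
    obtain ⟨a', ha | ha⟩ := Nat.even_or_odd' a <;> obtain ⟨b', hb' | hb'⟩ := Nat.even_or_odd' b
    · have h1 := ih (a' + b') (by omega) a' b' e rfl (by omega)
      have h2 := ih (a' + b') (by omega) a' b' (e - 1) rfl (by omega)
      subst ha hb'
      rw [← Nat.mul_add, Gs_even, Gs_even, Gs_even]
      omega
    · have h1 := ih (a' + (b' + 1)) (by omega) a' (b' + 1) e rfl (by omega)
      have h2 := ih (a' + b') (by omega) a' b' (e - 1) rfl (by omega)
      subst ha hb'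
      have : 2 * a' + (2 * b' + 1) = 2 * (a' + b') + 1 := by ring
      rw [this, Gs_odd, Gs_even, Gs_odd]
      rw [← add_assoc] at h1
      omega
    · have h1 := ih (a' + 1 + b') (by omega) (a' + 1) b' e rfl (by omega)
      have h2 := ih (a' + b') (by omega) a' b' (e - 1) rfl (by omega)
      subst ha hb'
      have : 2 * a' + 1 + (2 * b') = 2 * (a' + b') + 1 := by ring
      rw [this, Gs_odd, Gs_odd, Gs_even]
      have h3 : a' + 1 + b' = a' + b' + 1 := by ring
      rw [h3] at h1
      omega
    · subst ha hb'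
      rcases Nat.lt_or_ge b' a' with hlt | hge
      · have h1 := ih (a' + 1 + b') (by omega) (a' + 1) b' e rfl (by omega)
        have h2 := ih (a' + (b' + 1)) (by omega) a' (b' + 1) (e - 1) rfl (by omega)
        have : 2 * a' + 1 + (2 * b' + 1) = 2 * (a' + b' + 1) := by ring
        rw [this, Gs_even, Gs_odd, Gs_odd]
        have h3 : a' + 1 + b' = a' + b' + 1 := by ring
        rw [h3] at h1
        rw [← add_assoc] at h2
        have h4 := Gs_sub b' e
        omega
      · have h5 : a' = b' := by omega
        subst h5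
        have : 2 * a' + 1 + (2 * a' + 1) = 2 * (2 * a' + 1) := by ring
        rw [this, Gs_even]

theorem Gs_mono {N N' : ℕ} (h : N ≤ N') (e : ℕ) : Gs N e ≤ Gs N' e := by
  unfold Gs
  exact card_le_card (filter_subset_filter _ (range_subset_range.2 h))

theorem Gs_mono_right {e e' : ℕ} (h : e ≤ e') (N : ℕ) : Gs N e ≤ Gs N e' := by
  unfold Gs
  refine card_le_card fun x hx => ?_
  rw [mem_filter] at hx ⊢
  exact ⟨hx.1, by omega⟩

theorem Gs_pow (t : ℕ) : ∀ e : ℕ, Gs (2 ^ t) e = ∑ i ∈ range e, t.choose i := by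
  induction t with
  | zero =>
    intro e
    rcases e with _ | e
    · simp [Gs_zero_right]
    · rw [pow_zero, Gs_one, sum_range_succ']
      simp
  | succ t ih =>
    intro e
    rw [pow_succ, mul_comm, Gs_even, ih, ih]
    rcases e with _ | e
    · simp
    · rw [Nat.add_sub_cancel, sum_range_succ' _ e, sum_range_succ' _ e]
      simp only [Nat.choose_zero_right, Nat.choose_succ_succ, sum_add_distrib]
      ring

/-- functions given by polynomials of degree `< e` -/
def PolyLT {ι : Type} (e : ℕ) (f : (ι → ZMod 2) → ZMod 2) : Prop :=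
  ∃ P : MvPolynomial ι (ZMod 2), (P = 0 ∨ P.totalDegree < e) ∧ ∀ x, f x = eval x P

theorem PolyLT.add {ι : Type} {e : ℕ} {f g : (ι → ZMod 2) → ZMod 2} (hf : PolyLT e f)
    (hg : PolyLT e g) : PolyLT e (fun x => f x + g x) := by
  obtain ⟨P, hP, hP2⟩ := hf
  obtain ⟨Q, hQ, hQ2⟩ := hg
  refine ⟨P + Q, ?_, fun x => by simp only [hP2, hQ2, map_add]⟩
  rcases hP with rfl | hP
  · rw [zero_add]; exact hQ
  · rcases hQ with rfl | hQ
    · rw [add_zero]; exact Or.inr hP
    · exact Or.inr (lt_of_le_of_lt (totalDegree_add _ _) (max_lt hP hQ))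

theorem interp (M : ℕ) : ∀ (e : ℕ) (K : Finset (Fin M → ZMod 2)),
    ∃ K' ⊆ K, Gs K.card e ≤ K'.card ∧
      ∀ g : (Fin M → ZMod 2) → ZMod 2, ∃ f, PolyLT e f ∧ ∀ x ∈ K', f x = g x := by
  classical
  induction M with
  | zero =>
    intro e K
    have hK : K.card ≤ 1 := by
      rw [card_le_one]
      intro a _ b _
      exact Subsingleton.elim _ _
    rcases e with _ | e
    · exact ⟨∅, empty_subset _, by simp [Gs_zero_right], fun g => ⟨fun _ => 0, ⟨0, Or.inl rfl,
        fun x => by simp⟩, by simp⟩⟩
    · refine ⟨K, Subset.refl _, ?_, fun g => ⟨fun _ => g default, ⟨C (g default), Or.inr (by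
        rw [totalDegree_C]; omega), fun x => by simp⟩, fun x _ => ?_⟩⟩
      · interval_cases h : K.card
        · simp [Gs_zero]
        · rw [Gs_one]
      · rw [Subsingleton.elim x default]
  | succ M ih =>
    intro e K
    -- fibres
    let Kf : ZMod 2 → Finset (Fin M → ZMod 2) := fun a =>
      univ.filter (fun y => (Fin.cons a y : Fin (M + 1) → ZMod 2) ∈ K)
    have hinj : ∀ a : ZMod 2, Function.Injective
        (fun y : Fin M → ZMod 2 => (Fin.cons a y : Fin (M + 1) → ZMod 2)) :=
      fun a x y h => Fin.cons_right_injective (α := fun _ => ZMod 2) _ h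
    have htail : ∀ z : Fin (M + 1) → ZMod 2, (Fin.cons (z 0) (Fin.tail z) : Fin (M + 1) → ZMod 2) = z :=
      fun z => Fin.cons_self_tail z
    have hdisj : ∀ (A B : Finset (Fin M → ZMod 2)) (a b : ZMod 2), a ≠ b →
        Disjoint (A.image (fun y => (Fin.cons a y : Fin (M + 1) → ZMod 2)))
          (B.image (fun y => (Fin.cons b y : Fin (M + 1) → ZMod 2))) := by
      intro A B a b hab
      rw [disjoint_left]
      intro z h1 h2
      obtain ⟨y, _, rfl⟩ := mem_image.1 h1
      obtain ⟨y', _, h⟩ := mem_image.1 h2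
      have := congrFun h 0
      simp only [Fin.cons_zero] at this
      exact hab this.symm
    have hcard : ∀ a b : ZMod 2, a ≠ b → K.card = (Kf a).card + (Kf b).card := by
      intro a b hab
      have h1 : K = (Kf a).image (fun y => (Fin.cons a y : Fin (M + 1) → ZMod 2)) ∪
          (Kf b).image (fun y => (Fin.cons b y : Fin (M + 1) → ZMod 2)) := by
        ext z
        simp only [mem_union, mem_image, Kf, mem_filter, mem_univ, true_and]
        constructor
        · intro hz
          have hab' : ∀ a b c : ZMod 2, a ≠ b → c = a ∨ c = b := by decide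
          rcases hab' a b (z 0) hab with h | h
          · left
            refine ⟨Fin.tail z, ?_, ?_⟩ <;> rw [← h, htail]
            exact hz
          · right
            refine ⟨Fin.tail z, ?_, ?_⟩ <;> rw [← h, htail]
            exact hz
        · rintro (⟨y, hy, rfl⟩ | ⟨y, hy, rfl⟩) <;> exact hy
      conv_lhs => rw [h1]
      rw [card_union_of_disjoint (hdisj _ _ a b hab), card_image_of_injective _ (hinj a),
        card_image_of_injective _ (hinj b)]
    obtain ⟨a, b, hab, hle⟩ : ∃ a b : ZMod 2, a ≠ b ∧ (Kf b).card ≤ (Kf a).card := by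
      rcases le_total (Kf 0).card (Kf 1).card with h | h
      · exact ⟨1, 0, by decide, h⟩
      · exact ⟨0, 1, by decide, h⟩
    obtain ⟨A, hA, hAc, hAi⟩ := ih e (Kf a)
    obtain ⟨B, hB, hBc, hBi⟩ := ih (e - 1) (Kf b)
    refine ⟨A.image (fun y => (Fin.cons a y : Fin (M + 1) → ZMod 2)) ∪
      B.image (fun y => (Fin.cons b y : Fin (M + 1) → ZMod 2)), ?_, ?_, ?_⟩
    · refine union_subset ?_ ?_
      · intro z hz
        obtain ⟨y, hy, rfl⟩ := mem_image.1 hz
        exact (mem_filter.1 (hA hy)).2
      · intro z hz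
        obtain ⟨y, hy, rfl⟩ := mem_image.1 hz
        exact (mem_filter.1 (hB hy)).2
    · rw [card_union_of_disjoint (hdisj _ _ a b hab), card_image_of_injective _ (hinj a),
        card_image_of_injective _ (hinj b), hcard a b hab]
      exact (Gs_subadd _ _ _ _ rfl hle).trans (Nat.add_le_add hAc hBc)
    · intro g
      obtain ⟨fa, ⟨P, hP, hPe⟩, hfa⟩ := hAi (fun y => g (Fin.cons a y))
      obtain ⟨fb, ⟨Q, hQ, hQe⟩, hfb⟩ := hBi (fun y => g (Fin.cons b y) - fa y)
      refine ⟨fun x => eval x (rename Fin.succ P) + eval x ((X 0 - C a) * rename Fin.succ Q),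
        PolyLT.add ⟨rename Fin.succ P, ?_, fun x => rfl⟩
          ⟨(X 0 - C a) * rename Fin.succ Q, ?_, fun x => rfl⟩, ?_⟩
      · rcases hP with rfl | hP
        · left; simp
        · exact Or.inr (lt_of_le_of_lt (totalDegree_rename_le _ _) hP)
      · rcases hQ with rfl | hQ
        · left; simp
        · right
          have h1 : ((X 0 - C a : MvPolynomial (Fin (M + 1)) (ZMod 2))).totalDegree ≤ 1 := by
            refine (totalDegree_sub _ _).trans ?_
            rw [totalDegree_X, totalDegree_C]; simp
          have h2 := totalDegree_mul (X 0 - C a : MvPolynomial (Fin (M + 1)) (ZMod 2))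
            (rename Fin.succ Q)
          have h3 := totalDegree_rename_le (Fin.succ : Fin M → Fin (M + 1)) Q
          omega
      · intro x hx
        have hev : ∀ (c : ZMod 2) (y : Fin M → ZMod 2) (R : MvPolynomial (Fin M) (ZMod 2)),
            eval (Fin.cons c y : Fin (M + 1) → ZMod 2) (rename Fin.succ R) = eval y R := by
          intro c y R
          rw [eval_rename]
          congr 1
        rcases mem_union.1 hx with hx | hx
        · obtain ⟨y, hy, rfl⟩ := mem_image.1 hx
          simp only [map_mul, map_sub, eval_X, eval_C, Fin.cons_zero, sub_self, zero_mul, add_zero,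
            hev]
          rw [← hPe]
          exact hfa y hy
        · obtain ⟨y, hy, rfl⟩ := mem_image.1 hx
          simp only [map_mul, map_sub, eval_X, eval_C, Fin.cons_zero, hev]
          rw [← hPe, ← hQe, hfb y hy]
          have hba : ∀ a b : ZMod 2, a ≠ b → b - a = 1 := by decide
          rw [hba a b hab]
          ring

end TH521.AlgDeg
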