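import Pool.Agent.TH521.AlgDeg2
import Pool.Agent.TH521.AlgDeg3
set_option autoImplicit false

/-! Numerical estimates for the algebraic degree theorem. -/

namespace TH521.AlgDeg

open Finset Filter

theorem Nm_poly (m : ℕ) : ∀ D : ℕ, Nm m (D + 1) ≤ (D + 1) * (m + 1) ^ D := by
  induction m with
  | zero => intro D; simp [Nm]
  | succ m ih =>
    intro D
    rw [Nm]
    rcases D with _ | D
    · have := ih 0
      rw [Nm_zero]
      simpa using this
    · have h1 := ih (D + 1)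
      have h2 := ih D
      have h3 : (m + 1 + 1) ^ (D + 1) ≥ (m + 1) ^ (D + 1) + (m + 1) ^ D := by
        have h4 : (m + 1 + 1) ^ (D + 1) = (m + 1 + 1) ^ D * (m + 1) + (m + 1 + 1) ^ D := by ring
        have h5 : (m + 1) ^ D ≤ (m + 1 + 1) ^ D := Nat.pow_le_pow_left (by omega) _
        have h6 : (m + 1) ^ D * (m + 1) ≤ (m + 1 + 1) ^ D * (m + 1) := Nat.mul_le_mul_right _ h5
        rw [h4, pow_succ]
        exact Nat.add_le_add h6 h5
      calc Nm m (D + 1 + 1) + Nm m (D + 1)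
          ≤ (D + 1 + 1) * (m + 1) ^ (D + 1) + (D + 1) * (m + 1) ^ D := Nat.add_le_add h1 h2
        _ ≤ (D + 1 + 1) * (m + 1) ^ (D + 1) + (D + 1 + 1) * (m + 1) ^ D := by
            refine Nat.add_le_add_left (Nat.mul_le_mul_right _ (by omega)) _
        _ = (D + 1 + 1) * ((m + 1) ^ (D + 1) + (m + 1) ^ D) := by ring
        _ ≤ (D + 1 + 1) * (m + 1 + 1) ^ (D + 1) := Nat.mul_le_mul_left _ h3

theorem Nm_exp (q : ℝ) (hq : 1 ≤ q) (m : ℕ) : ∀ D : ℕ,
    (Nm m D : ℝ) ≤ D * (1 + 1 / q) ^ m * q ^ D := by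
  have hq0 : 0 < q := by linarith
  induction m with
  | zero =>
    intro D
    have h1 : (1 : ℝ) ≤ q ^ D := one_le_pow₀ hq
    have h2 : (0 : ℝ) ≤ D := Nat.cast_nonneg _
    simp only [Nm, pow_zero, mul_one]
    nlinarith
  | succ m ih =>
    intro D
    rcases D with _ | D
    · simp [Nm]
    · rw [Nm]
      push_cast
      have h1 := ih (D + 1)
      have h2 := ih D
      push_cast at h1
      have hp : (0 : ℝ) ≤ (1 + 1 / q) ^ m * q ^ D := by positivity
      have h3 : (D : ℝ) * (1 + 1 / q) ^ m * q ^ D ≤ (D + 1) * (1 + 1 / q) ^ m * q ^ D := by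
        nlinarith
      calc (Nm m (D + 1) : ℝ) + Nm m D
          ≤ (D + 1) * (1 + 1 / q) ^ m * q ^ (D + 1) + (D + 1) * (1 + 1 / q) ^ m * q ^ D := by
            linarith
        _ = (D + 1) * (1 + 1 / q) ^ (m + 1) * q ^ (D + 1) := by
            rw [pow_succ (1 + 1 / q) m, pow_succ q D]
            field_simp

/-- `clog₂ k ≤ log k / log 2 + 1` -/
theorem clog_le (k : ℕ) (hk : 2 ≤ k) :
    (Nat.clog 2 k : ℝ) ≤ Real.log k / Real.log 2 + 1 := by
  have hl2 : 0 < Real.log 2 := Real.log_pos (by norm_num)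
  have h1 : 1 ≤ Nat.clog 2 k := Nat.clog_pos (by norm_num) hk
  have h2 : 2 ^ (Nat.clog 2 k - 1) < k := by
    have := Nat.pow_pred_clog_lt_self (b := 2) (by norm_num) (x := k) (by omega)
    simpa using this
  have h3 : ((Nat.clog 2 k - 1 : ℕ) : ℝ) * Real.log 2 ≤ Real.log k := by
    rw [← Real.log_pow]
    apply Real.log_le_log (by positivity)
    exact_mod_cast h2.le
  rw [Nat.cast_sub h1] at h3
  push_cast at h3
  have : (Nat.clog 2 k : ℝ) - 1 ≤ Real.log k / Real.log 2 := by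
    rw [le_div_iff₀ hl2]; linarith
  linarith

theorem log_lt (k : ℕ) (hk : 1 ≤ k) :
    Real.log k / Real.log 2 < (Nat.log 2 k : ℝ) + 1 := by
  have hl2 : 0 < Real.log 2 := Real.log_pos (by norm_num)
  rw [div_lt_iff₀ hl2]
  have h1 : k < 2 ^ (Nat.log 2 k + 1) := Nat.lt_pow_succ_log_self (by norm_num) k
  have h2 : (k : ℝ) < 2 ^ (Nat.log 2 k + 1) := by exact_mod_cast h1
  have h3 : Real.log k < Real.log (2 ^ (Nat.log 2 k + 1)) :=
    Real.log_lt_log (by exact_mod_cast hk) h2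
  rw [Real.log_pow] at h3
  push_cast at h3
  exact h3

theorem eventually_log_le (A B r : ℝ) (hr : 0 < r) :
    ∃ k0 : ℕ, ∀ k : ℕ, k0 ≤ k → A * Real.log k + B ≤ (k : ℝ) ^ r := by
  have h1 := isLittleO_log_rpow_atTop hr
  have h2 : Tendsto (fun x : ℝ => x ^ r) atTop atTop := tendsto_rpow_atTop hr
  have h3 := h1.bound (show (0 : ℝ) < 1 / (2 * (|A| + 1)) by positivity)
  have h4 := h2.eventually_ge_atTop (2 * B)
  have h5 := (h3.and (h4.and (eventually_ge_atTop 1)))
  obtain ⟨x0, hx0⟩ := eventually_atTop.1 h5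
  refine ⟨⌈x0⌉₊, fun k hk => ?_⟩
  have hk' : x0 ≤ (k : ℝ) := (Nat.le_ceil x0).trans (by exact_mod_cast hk)
  obtain ⟨ha, hb, hc⟩ := hx0 k hk'
  have hlog : 0 ≤ Real.log k := Real.log_nonneg hc
  have hpow : 0 ≤ (k : ℝ) ^ r := Real.rpow_nonneg (by linarith) _
  rw [Real.norm_of_nonneg hlog, Real.norm_of_nonneg hpow] at ha
  have h6 : A * Real.log k ≤ (|A| + 1) * Real.log k := by
    have := le_abs_self A
    nlinarith
  have h7 : (|A| + 1) * Real.log k ≤ (|A| + 1) * (1 / (2 * (|A| + 1)) * (k : ℝ) ^ r) :=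
    mul_le_mul_of_nonneg_left ha (by positivity)
  have h8 : (|A| + 1) * (1 / (2 * (|A| + 1)) * (k : ℝ) ^ r) = (k : ℝ) ^ r / 2 := by
    have : (|A| + 1) ≠ 0 := by positivity
    field_simp
  linarith

/-- the upper estimate -/
theorem up_asym (q δ σ ε : ℝ) (hq : 1 ≤ q) (hδ : 0 ≤ δ) (hσ : 0 ≤ σ)
    (hθ : σ + 2 * Real.log (1 + 1 / q) / Real.log 2 + δ * Real.log q < ε) :
    ∃ k0 : ℕ, 2 ≤ k0 ∧ ∀ k : ℕ, k0 ≤ k → ∀ s D n : ℕ, (D : ℝ) ≤ δ * Real.log k →
      (s : ℝ) ≤ (k : ℝ) ^ σ → (k : ℝ) ^ ε ≤ n →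
      Nat.clog 2 k + 3 * s * Nm (2 * Nat.clog 2 k - 2) D ≤ n := by
  set θ := σ + 2 * Real.log (1 + 1 / q) / Real.log 2 + δ * Real.log q with hθd
  have hq0 : 0 < q := by linarith
  have hl2 : 0 < Real.log 2 := Real.log_pos (by norm_num)
  have hl2' : 1 / 2 < Real.log 2 := by have := Real.log_two_gt_d9; linarith
  have hlq : 0 ≤ Real.log q := Real.log_nonneg hq
  have hlq1 : 0 ≤ Real.log (1 + 1 / q) := Real.log_nonneg (by
    have : 0 < 1 / q := by positivity
    linarith)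
  have hθ0 : 0 ≤ θ := by positivity
  obtain ⟨k1, hk1⟩ := eventually_log_le (2 + 12 * δ) 1 (ε - θ) (by linarith)
  refine ⟨max 2 k1, le_max_left _ _, fun k hk s D n hD hs hn => ?_⟩
  have hk2 : 2 ≤ k := (le_max_left _ _).trans hk
  have hkR : (2 : ℝ) ≤ k := by exact_mod_cast hk2
  have hk0 : (0 : ℝ) < k := by linarith
  have hL : 0 ≤ Real.log k := Real.log_nonneg (by linarith)
  set t := Nat.clog 2 k with ht
  have htle := clog_le k hk2
  rw [← ht] at htle
  have hNm : (Nm (2 * t - 2) D : ℝ) ≤ D * (1 + 1 / q) ^ (2 * t) * q ^ D := by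
    have h1 : (Nm (2 * t - 2) D : ℝ) ≤ Nm (2 * t) D := by
      exact_mod_cast Nm_mono (by omega) D
    exact h1.trans (Nm_exp q hq (2 * t) D)
  have hpow1 : (1 + 1 / q) ^ (2 * t) ≤ 4 * (k : ℝ) ^ (2 * Real.log (1 + 1 / q) / Real.log 2) := by
    have hb : 0 < 1 + 1 / q := by positivity
    have h1 : (1 + 1 / q) ^ (2 * t) = Real.exp (Real.log (1 + 1 / q) * (2 * t)) := by
      rw [← Real.exp_log (show 0 < (1 + 1 / q) ^ (2 * t) by positivity), Real.log_pow]
      congr 1
      push_cast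
      ring
    have h2 : Real.log (1 + 1 / q) * (2 * t) ≤
        Real.log (1 + 1 / q) * (2 * (Real.log k / Real.log 2 + 1)) := by
      apply mul_le_mul_of_nonneg_left _ hlq1
      linarith
    have h3 : Real.exp (Real.log (1 + 1 / q) * (2 * (Real.log k / Real.log 2 + 1))) =
        (1 + 1 / q) ^ 2 * (k : ℝ) ^ (2 * Real.log (1 + 1 / q) / Real.log 2) := by
      rw [Real.rpow_def_of_pos hk0]
      have h4 : (1 + 1 / q) ^ 2 = Real.exp (2 * Real.log (1 + 1 / q)) := by
        rw [two_mul, Real.exp_add, Real.exp_log hb]; ring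
      rw [h4, ← Real.exp_add]
      congr 1
      field_simp
      ring
    have h5 : (1 + 1 / q) ^ 2 ≤ 4 := by
      have : 1 / q ≤ 1 := by rw [div_le_one hq0]; exact hq
      have h6 : 0 < 1 / q := by positivity
      nlinarith
    rw [h1]
    refine (Real.exp_le_exp.2 h2).trans ?_
    rw [h3]
    exact mul_le_mul_of_nonneg_right h5 (Real.rpow_nonneg hk0.le _)
  have hpow2 : q ^ D ≤ (k : ℝ) ^ (δ * Real.log q) := by
    have h1 : q ^ D = Real.exp (Real.log q * D) := by
      rw [← Real.exp_log (show 0 < q ^ D by positivity), Real.log_pow]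
      congr 1
      ring
    rw [h1, Real.rpow_def_of_pos hk0]
    apply Real.exp_le_exp.2
    nlinarith
  have hmain : (3 : ℝ) * s * Nm (2 * t - 2) D ≤ 12 * δ * Real.log k * (k : ℝ) ^ θ := by
    have e1 : (k : ℝ) ^ θ = (k : ℝ) ^ σ * (k : ℝ) ^ (2 * Real.log (1 + 1 / q) / Real.log 2) *
        (k : ℝ) ^ (δ * Real.log q) := by
      rw [hθd, Real.rpow_add hk0, Real.rpow_add hk0]
    set a := (k : ℝ) ^ σ
    set b := (k : ℝ) ^ (2 * Real.log (1 + 1 / q) / Real.log 2)
    set c := (k : ℝ) ^ (δ * Real.log q)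
    have ha : 0 ≤ a := Real.rpow_nonneg hk0.le _
    have hb : 0 ≤ b := Real.rpow_nonneg hk0.le _
    have hc : 0 ≤ c := Real.rpow_nonneg hk0.le _
    have hs0 : (0 : ℝ) ≤ s := Nat.cast_nonneg _
    have hD0 : (0 : ℝ) ≤ D := Nat.cast_nonneg _
    calc (3 : ℝ) * s * Nm (2 * t - 2) D
        ≤ 3 * s * (D * (1 + 1 / q) ^ (2 * t) * q ^ D) :=
          mul_le_mul_of_nonneg_left hNm (by positivity)
      _ ≤ 3 * a * (δ * Real.log k * (4 * b) * c) := by
          gcongr
      _ = 12 * δ * Real.log k * (a * b * c) := by ring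
      _ = 12 * δ * Real.log k * (k : ℝ) ^ θ := by rw [e1]
  have hkθ : (1 : ℝ) ≤ (k : ℝ) ^ θ := Real.one_le_rpow (by linarith) hθ0
  have ht2 : (t : ℝ) ≤ 2 * Real.log k + 1 := by
    have : Real.log k / Real.log 2 ≤ 2 * Real.log k := by
      rw [div_le_iff₀ hl2]
      nlinarith
    linarith
  have hfin : (t : ℝ) + 3 * s * Nm (2 * t - 2) D ≤ (k : ℝ) ^ ε := by
    have h1 := hk1 k ((le_max_right _ _).trans hk)
    calc (t : ℝ) + 3 * s * Nm (2 * t - 2) D
        ≤ (2 * Real.log k + 1) * (k : ℝ) ^ θ + 12 * δ * Real.log k * (k : ℝ) ^ θ := by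
          have : (2 * Real.log k + 1) * 1 ≤ (2 * Real.log k + 1) * (k : ℝ) ^ θ :=
            mul_le_mul_of_nonneg_left hkθ (by positivity)
          linarith
      _ = ((2 + 12 * δ) * Real.log k + 1) * (k : ℝ) ^ θ := by ring
      _ ≤ (k : ℝ) ^ (ε - θ) * (k : ℝ) ^ θ :=
          mul_le_mul_of_nonneg_right h1 (by linarith)
      _ = (k : ℝ) ^ ε := by rw [← Real.rpow_add hk0]; congr 1; ring
  have := hfin.trans hn
  exact_mod_cast this

/-- sums over an even range -/
theorem sum_range_two_mul (f : ℕ → ℝ) (m : ℕ) :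
    ∑ x ∈ range (2 * m), f x = ∑ x ∈ range m, (f (2 * x) + f (2 * x + 1)) := by
  induction m with
  | zero => simp
  | succ m ih =>
    have : 2 * (m + 1) = 2 * m + 1 + 1 := by ring
    rw [this, sum_range_succ, sum_range_succ, ih, sum_range_succ]
    ring

theorem sum_pop (y : ℝ) (m : ℕ) : ∑ x ∈ range (2 ^ m), y ^ pop x = (1 + y) ^ m := by
  induction m with
  | zero =>
    have : pop 0 = 0 := rfl
    simp [this]
  | succ m ih =>
    rw [pow_succ, mul_comm (2 ^ m) 2, sum_range_two_mul]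
    simp only [pop_two_mul, pop_two_mul_add_one]
    have : ∀ x ∈ range (2 ^ m), y ^ pop x + y ^ (pop x + 1) = (1 + y) * y ^ pop x := by
      intro x _; ring
    rw [sum_congr rfl this, ← mul_sum, ih, pow_succ]
    ring

/-- Chernoff bound for the digit sum -/
theorem Gs_large (y : ℝ) (hy : 1 ≤ y) (k e : ℕ) :
    (k : ℝ) - (1 + y) ^ (Nat.clog 2 k) / y ^ e ≤ Gs k e := by
  have hy0 : 0 < y := by linarith
  have h1 : (Gs k e : ℝ) + (((range k).filter (fun x => ¬ pop x < e)).card : ℝ) = k := by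
    have := card_filter_add_card_filter_not (s := range k) (fun x => pop x < e)
    rw [card_range] at this
    unfold Gs
    exact_mod_cast this
  have h2 : (((range k).filter (fun x => ¬ pop x < e)).card : ℝ) * y ^ e ≤
      (1 + y) ^ (Nat.clog 2 k) := by
    rw [← sum_pop]
    calc (((range k).filter (fun x => ¬ pop x < e)).card : ℝ) * y ^ e
        = ∑ x ∈ (range k).filter (fun x => ¬ pop x < e), y ^ e := by
          rw [sum_const, nsmul_eq_mul]
      _ ≤ ∑ x ∈ (range k).filter (fun x => ¬ pop x < e), y ^ pop x := by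
          refine sum_le_sum fun x hx => ?_
          exact pow_le_pow_right₀ hy (not_lt.1 (mem_filter.1 hx).2)
      _ ≤ ∑ x ∈ range (2 ^ Nat.clog 2 k), y ^ pop x := by
          refine sum_le_sum_of_subset_of_nonneg ?_ fun x _ _ => by positivity
          refine (filter_subset _ _).trans (range_subset_range.2 ?_)
          exact Nat.le_pow_clog (by norm_num) k
  have h3 : (((range k).filter (fun x => ¬ pop x < e)).card : ℝ) ≤
      (1 + y) ^ (Nat.clog 2 k) / y ^ e := by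
    rw [le_div_iff₀ (by positivity)]
    exact h2
  linarith

end TH521.AlgDeg
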