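import Mathlib
set_option autoImplicit false

/-! Monotone functions on the square of the cube are constant on the square of a large interval;
Markov's theorem on NOT gates. -/

namespace TH521.Circ

open Finset

/-- `f` is computed by a circuit with (at most) `r` NOT gates: the `i`-th NOT gate is applied to a
monotone function of the input and of the outputs of the earlier NOT gates, and `f` is a monotone
function of the input and of the outputs of all the NOT gates. -/
def WithNegations {α : Type} [Preorder α] (r : ℕ) (f : α → Bool) : Prop :=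
  ∃ (b : Fin r → α → Bool) (M : (i : Fin r) → α × (Fin i → Bool) → Bool)
    (F : α × (Fin r → Bool) → Bool),
    (∀ i, Monotone (M i)) ∧ Monotone F ∧
    (∀ i z, b i z = !(M i (z, fun j => b ⟨j, j.2.trans i.2⟩ z))) ∧
    ∀ z, f z = F (z, fun i => b i z)

/-- the point of the cube whose first `m` coordinates are `true` -/
def zpt (n m : ℕ) : Fin n → Bool := fun i => decide ((i : ℕ) < m)

theorem zpt_mono (n : ℕ) : Monotone (zpt n) := by
  intro a b hab i
  unfold zpt
  by_cases h : (i : ℕ) < a
  · have : (i : ℕ) < b := lt_of_lt_of_le h hab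
    simp [h, this]
  · simp [h]

open Classical in
/-- the points between `zpt n a` and `zpt n (a + t)` -/
noncomputable def cubeI (n a t : ℕ) : Finset (Fin n → Bool) :=
  univ.filter (fun x => zpt n a ≤ x ∧ x ≤ zpt n (a + t))

theorem mem_cubeI (n a t : ℕ) (x : Fin n → Bool) :
    x ∈ cubeI n a t ↔ zpt n a ≤ x ∧ x ≤ zpt n (a + t) := by
  classical
  simp [cubeI]

theorem card_cubeI (n a t : ℕ) (h : a + t ≤ n) : 2 ^ t ≤ (cubeI n a t).card := by
  classical
  let φ : (Fin t → Bool) → (Fin n → Bool) := fun c i =>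
    if h1 : (i : ℕ) < a then true else if h2 : (i : ℕ) < a + t then c ⟨i - a, by omega⟩ else false
  have hφ : Function.Injective φ := by
    intro c c' hcc
    funext j
    have := congrFun hcc ⟨a + j, by omega⟩
    simp only [φ] at this
    have h1 : ¬ (a + (j : ℕ) < a) := by omega
    have h2 : a + (j : ℕ) < a + t := by omega
    simp only [h1, h2, dif_pos, dif_neg, not_false_iff] at this
    have h3 : (⟨a + (j : ℕ) - a, by omega⟩ : Fin t) = j := by
      apply Fin.ext; simp
    rwa [h3] at this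
  have hsub : univ.image φ ⊆ cubeI n a t := by
    intro x hx
    obtain ⟨c, _, rfl⟩ := mem_image.1 hx
    rw [mem_cubeI]
    constructor
    · intro i
      simp only [φ, zpt]
      by_cases h1 : (i : ℕ) < a
      · simp [h1]
      · simp [h1]
    · intro i
      simp only [φ, zpt]
      by_cases h1 : (i : ℕ) < a
      · have : (i : ℕ) < a + t := by omega
        simp [h1, this]
      · by_cases h2 : (i : ℕ) < a + t
        · simp [h1, h2]
        · simp [h1, h2]
  calc 2 ^ t = (univ.image φ).card := by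
        rw [card_image_of_injective _ hφ, card_univ]; simp
    _ ≤ _ := card_le_card hsub

/-- `s` monotone functions on the square of the cube are constant on the square of an interval of
dimension `t` if `(s + 1) t ≤ n`. -/
theorem chain (n t : ℕ) (ι : Type) [Fintype ι] (f : ι → (Fin n → Bool) × (Fin n → Bool) → Bool)
    (hf : ∀ j, Monotone (f j)) (hn : (Fintype.card ι + 1) * t ≤ n) :
    ∃ I : Finset (Fin n → Bool), 2 ^ t ≤ I.card ∧
      ∀ j, ∀ x ∈ I, ∀ y ∈ I, ∀ x' ∈ I, ∀ y' ∈ I, f j (x, y) = f j (x', y') := by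
  classical
  set s := Fintype.card ι with hs
  let g : ι → ℕ → Bool := fun j i => f j (zpt n (i * t), zpt n (i * t))
  have hg : ∀ j, Monotone (g j) := by
    intro j a b hab
    apply hf j
    have := zpt_mono n (Nat.mul_le_mul_right t hab)
    exact ⟨this, this⟩
  have hex : ∃ i : Fin (s + 1), ∀ j, g j i = g j (i + 1) := by
    by_contra hcon
    push Not at hcon
    choose J hJ using hcon
    have hinj : Function.Injective J := by
      intro a b hab
      by_contra hne
      wlog hlt : a < b generalizing a b with H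
      · exact H hab.symm (Ne.symm hne) (lt_of_le_of_ne (not_lt.1 hlt) (Ne.symm hne))
      have h1 := hJ a
      have h2 := hJ b
      rw [← hab] at h2
      have hlt' : (a : ℕ) + 1 ≤ b := hlt
      have m1 := hg (J a) (Nat.le_succ (a : ℕ))
      have m2 := hg (J a) hlt'
      have m3 := hg (J a) (Nat.le_succ (b : ℕ))
      -- Bool: a < a+1 ≤ b < b+1 impossible
      have hb : ∀ p q u v : Bool, p ≤ q → q ≤ u → u ≤ v → p ≠ q → u ≠ v → False := by decide
      exact hb _ _ _ _ m1 m2 m3 h1 h2
    have := Fintype.card_le_of_injective J hinj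
    rw [Fintype.card_fin] at this
    omega
  obtain ⟨i, hi⟩ := hex
  refine ⟨cubeI n (i * t) t, card_cubeI _ _ _ ?_, ?_⟩
  · have h1 : (i : ℕ) + 1 ≤ s + 1 := i.2
    have h2 : ((i : ℕ) + 1) * t ≤ (s + 1) * t := Nat.mul_le_mul_right _ h1
    rw [Nat.succ_mul] at h2
    omega
  · have key : ∀ j, ∀ x ∈ cubeI n (i * t) t, ∀ y ∈ cubeI n (i * t) t,
        f j (x, y) = f j (zpt n (i * t), zpt n (i * t)) := by
      intro j x hx y hy
      rw [mem_cubeI] at hx hy
      have h1 : f j (zpt n (i * t), zpt n (i * t)) ≤ f j (x, y) := hf j ⟨hx.1, hy.1⟩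
      have h2 : f j (x, y) ≤ f j (zpt n (i * t + t), zpt n (i * t + t)) := hf j ⟨hx.2, hy.2⟩
      have h3 := hi j
      simp only [g] at h3
      rw [Nat.succ_mul] at h3
      rw [← h3] at h2
      exact le_antisymm h2 h1
    intro j x hx y hy x' hx' y' hy'
    rw [key j x hx y hy, key j x' hx' y' hy']

/-- the values of `2 ^ (r + 1) - 1` monotone functions determine a function computed with `r` NOT
gates -/
theorem chain_neg (n t r : ℕ) (f : (Fin n → Bool) × (Fin n → Bool) → Bool)
    (hf : WithNegations r f) (hn : 2 ^ (r + 1) * t ≤ n) :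
    ∃ I : Finset (Fin n → Bool), 2 ^ t ≤ I.card ∧
      ∀ x ∈ I, ∀ y ∈ I, ∀ x' ∈ I, ∀ y' ∈ I, f (x, y) = f (x', y') := by
  classical
  obtain ⟨b, M, F, hM, hF, hb, hfF⟩ := hf
  let ι : Type := (Σ i : Fin r, (Fin i → Bool)) ⊕ (Fin r → Bool)
  have hcard : Fintype.card ι + 1 = 2 ^ (r + 1) := by
    simp only [ι, Fintype.card_sum, Fintype.card_sigma, Fintype.card_fun, Fintype.card_bool,
      Fintype.card_fin]
    rw [Fin.sum_univ_eq_sum_range (fun i => 2 ^ i) r, pow_succ]
    have := Nat.geomSum_eq (m := 2) (le_refl 2) r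
    have h1 : 1 ≤ 2 ^ r := Nat.one_le_two_pow
    simp at this
    omega
  let φ : ι → (Fin n → Bool) × (Fin n → Bool) → Bool := fun q => match q with
    | Sum.inl ⟨i, β⟩ => fun z => M i (z, β)
    | Sum.inr β => fun z => F (z, β)
  have hφ : ∀ q, Monotone (φ q) := by
    rintro (⟨i, β⟩ | β) z z' hz
    · exact hM i ⟨hz, le_refl β⟩
    · exact hF ⟨hz, le_refl β⟩
  obtain ⟨I, hI, hc⟩ := chain n t ι φ hφ (by rw [hcard]; exact hn)
  refine ⟨I, hI, ?_⟩
  intro x hx y hy x' hx' y' hy'
  have hbb : ∀ m : ℕ, ∀ hm : m < r, b ⟨m, hm⟩ (x, y) = b ⟨m, hm⟩ (x', y') := by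
    intro m
    induction m using Nat.strong_induction_on with
    | _ m ih =>
      intro hm
      rw [hb, hb]
      have h1 : (fun j : Fin (⟨m, hm⟩ : Fin r) => b ⟨j, j.2.trans (⟨m, hm⟩ : Fin r).2⟩ (x, y)) =
          fun j : Fin (⟨m, hm⟩ : Fin r) => b ⟨j, j.2.trans (⟨m, hm⟩ : Fin r).2⟩ (x', y') := by
        funext j
        exact ih j j.2 (j.2.trans hm)
      rw [h1]
      have h2 := hc (Sum.inl ⟨⟨m, hm⟩, fun j => b ⟨j, j.2.trans (⟨m, hm⟩ : Fin r).2⟩ (x', y')⟩)
        x hx y hy x' hx' y' hy'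
      simp only [φ] at h2
      rw [h2]
  have hb2 : (fun i => b i (x, y)) = fun i => b i (x', y') := by
    funext i
    exact hbb i i.2
  rw [hfF, hfF, hb2]
  exact hc (Sum.inr _) x hx y hy x' hx' y' hy'

theorem le_of_bits (m k : ℕ) (h : ∀ i, m.testBit i = true → k.testBit i = true) : m ≤ k := by
  have h1 : m &&& k = m := by
    apply Nat.eq_of_testBit_eq
    intro i
    rw [Nat.testBit_and]
    by_cases hm : m.testBit i = true
    · rw [hm, h i hm]; rfl
    · rw [Bool.not_eq_true] at hm
      rw [hm]; rfl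
  rw [← h1]
  exact Nat.and_le_right

/-- Markov: every function is computed with `r` NOT gates if the order has a strictly monotone
rank function with values below `2 ^ r`. -/
theorem markov {α : Type} [PartialOrder α] (r : ℕ) (h : α → ℕ) (hh : StrictMono h)
    (hr : ∀ z, h z < 2 ^ r) (f : α → Bool) : WithNegations r f := by
  classical
  refine ⟨fun i z => !((h z).testBit (r - 1 - i)),
    fun i p => decide (∃ A : ℕ, 2 ^ (r - i) ∣ A ∧
      (∀ j : Fin i, A.testBit (r - 1 - j) = false → p.2 j = true) ∧ A + 2 ^ (r - 1 - i) ≤ h p.1),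
    fun p => decide (∃ A : ℕ, A < 2 ^ r ∧
      (∀ j : Fin r, A.testBit (r - 1 - j) = false → p.2 j = true) ∧
      (A < h p.1 ∨ (A = h p.1 ∧ f p.1 = true))), ?_, ?_, ?_, ?_⟩
  · rintro i ⟨z, β⟩ ⟨z', β'⟩ ⟨hz, hβ⟩
    simp only at hz hβ
    refine Bool.le_iff_imp.2 fun hd => ?_
    rw [decide_eq_true_eq] at hd ⊢
    obtain ⟨A, hA1, hA2, hA3⟩ := hd
    exact ⟨A, hA1, fun j hj => Bool.le_iff_imp.1 (hβ j) (hA2 j hj),
      hA3.trans (hh.monotone hz)⟩
  · rintro ⟨z, β⟩ ⟨z', β'⟩ ⟨hz, hβ⟩
    simp only at hz hβ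
    refine Bool.le_iff_imp.2 fun hd => ?_
    rw [decide_eq_true_eq] at hd ⊢
    obtain ⟨A, hA1, hA2, hA3⟩ := hd
    refine ⟨A, hA1, fun j hj => Bool.le_iff_imp.1 (hβ j) (hA2 j hj), ?_⟩
    rcases hA3 with h1 | ⟨h1, h2⟩
    · exact Or.inl (lt_of_lt_of_le h1 (hh.monotone hz))
    · rcases eq_or_lt_of_le hz with h3 | h3
      · right
        subst h3
        exact ⟨h1, h2⟩
      · left
        show A < h z'
        have : h z < h z' := hh h3
        simp only at h1
        omega
  · intro i z
    beta_reduce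
    congr 1
    have hi : (i : ℕ) < r := i.2
    set m := h z with hm
    have hmr : m < 2 ^ r := hr z
    have e1 : 2 ^ (r - (i : ℕ)) = 2 * 2 ^ (r - 1 - (i : ℕ)) := by
      rw [← pow_succ']; congr 1; omega
    rw [Bool.eq_iff_iff, decide_eq_true_eq]
    constructor
    · intro hbit
      refine ⟨m / 2 ^ (r - (i : ℕ)) * 2 ^ (r - (i : ℕ)), Dvd.intro_left _ rfl, ?_, ?_⟩
      · intro j hj
        have hj2 : (j : ℕ) < i := j.2
        simp only
        have : (m / 2 ^ (r - (i : ℕ)) * 2 ^ (r - (i : ℕ))).testBit (r - 1 - j) =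
            m.testBit (r - 1 - j) := by
          rw [Nat.testBit_mul_two_pow, Nat.testBit_div_two_pow]
          have h1 : r - (i : ℕ) ≤ r - 1 - j := by omega
          have h2 : r - 1 - (j : ℕ) - (r - i) + (r - i) = r - 1 - j := by omega
          simp [h1, h2]
        rw [this] at hj
        rw [hj]; rfl
      · have h1 : m / 2 ^ (r - 1 - (i : ℕ)) % 2 = 1 := by
          rw [Nat.testBit_eq_decide_div_mod_eq] at hbit
          simpa using hbit
        have h2 : m / 2 ^ (r - (i : ℕ)) = m / 2 ^ (r - 1 - (i : ℕ)) / 2 := by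
          rw [Nat.div_div_eq_div_mul, e1, mul_comm]
        rw [h2, e1]
        have h3 := Nat.div_add_mod (m / 2 ^ (r - 1 - (i : ℕ))) 2
        have h4 := Nat.div_mul_le_self m (2 ^ (r - 1 - (i : ℕ)))
        have h5 : m / 2 ^ (r - 1 - (i : ℕ)) / 2 * (2 * 2 ^ (r - 1 - (i : ℕ))) +
            2 ^ (r - 1 - (i : ℕ)) =
            (2 * (m / 2 ^ (r - 1 - (i : ℕ)) / 2) + 1) * 2 ^ (r - 1 - (i : ℕ)) := by ring
        rw [h5]
        rw [h1] at h3
        rw [h3]
        exact h4
    · rintro ⟨A, ⟨k, rfl⟩, hA2, hA3⟩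
      by_contra hbit
      have hbit' : m / 2 ^ (r - 1 - (i : ℕ)) % 2 = 0 := by
        rw [Nat.testBit_eq_decide_div_mod_eq] at hbit
        have : ¬ (m / 2 ^ (r - 1 - (i : ℕ)) % 2 = 1) := by simpa using hbit
        omega
      have hle : m / 2 ^ (r - (i : ℕ)) ≤ k := by
        apply le_of_bits
        intro l hl
        rw [Nat.testBit_div_two_pow] at hl
        have hlt : l + (r - i) < r := by
          by_contra hcon
          push Not at hcon
          have : m < 2 ^ (l + (r - i)) :=
            lt_of_lt_of_le hmr (Nat.pow_le_pow_right (by norm_num) hcon)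
          rw [Nat.testBit_lt_two_pow this] at hl
          exact absurd hl (by decide)
        have hli : l < i := by omega
        have h1 := hA2 ⟨(i : ℕ) - 1 - l, by omega⟩
        have e2 : r - 1 - ((i : ℕ) - 1 - l) = l + (r - i) := by omega
        simp only [e2] at h1
        have h3 : (2 ^ (r - (i : ℕ)) * k).testBit (l + (r - i)) = k.testBit l := by
          rw [Nat.testBit_two_pow_mul]
          have : r - (i : ℕ) ≤ l + (r - i) := by omega
          simp [this]
        rw [h3, hl] at h1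
        by_contra hk
        rw [Bool.not_eq_true] at hk
        have := h1 hk
        simp at this
      have h2 : m / 2 ^ (r - (i : ℕ)) = m / 2 ^ (r - 1 - (i : ℕ)) / 2 := by
        rw [Nat.div_div_eq_div_mul, e1, mul_comm]
      have h3 := Nat.div_add_mod (m / 2 ^ (r - 1 - (i : ℕ))) 2
      have h4 : m < (m / 2 ^ (r - 1 - (i : ℕ)) + 1) * 2 ^ (r - 1 - (i : ℕ)) := by
        have hpos : 0 < 2 ^ (r - 1 - (i : ℕ)) := by positivity
        exact (Nat.div_lt_iff_lt_mul hpos).1 (Nat.lt_succ_self _)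
      have h5 : m / 2 ^ (r - 1 - (i : ℕ)) = 2 * (m / 2 ^ (r - (i : ℕ))) := by
        rw [h2]; omega
      have h6 : 2 ^ (r - (i : ℕ)) * k + 2 ^ (r - 1 - (i : ℕ)) ≤ m := hA3
      have h7 : (2 * (m / 2 ^ (r - (i : ℕ))) + 1) * 2 ^ (r - 1 - (i : ℕ)) ≤
          2 ^ (r - (i : ℕ)) * k + 2 ^ (r - 1 - (i : ℕ)) := by
        rw [e1]
        rw [e1] at hle
        have h8 := Nat.mul_le_mul_right (2 * 2 ^ (r - 1 - (i : ℕ))) hle
        calc (2 * (m / (2 * 2 ^ (r - 1 - (i : ℕ)))) + 1) * 2 ^ (r - 1 - (i : ℕ))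
            = m / (2 * 2 ^ (r - 1 - (i : ℕ))) * (2 * 2 ^ (r - 1 - (i : ℕ))) +
              2 ^ (r - 1 - (i : ℕ)) := by ring
          _ ≤ k * (2 * 2 ^ (r - 1 - (i : ℕ))) + 2 ^ (r - 1 - (i : ℕ)) :=
              Nat.add_le_add_right h8 _
          _ = 2 * 2 ^ (r - 1 - (i : ℕ)) * k + 2 ^ (r - 1 - (i : ℕ)) := by ring
      rw [h5] at h4
      omega
  · intro z
    rw [Bool.eq_iff_iff, decide_eq_true_eq]
    constructor
    · intro hf
      refine ⟨h z, hr z, ?_, Or.inr ⟨rfl, hf⟩⟩
      intro j hj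
      simp only
      rw [hj]; rfl
    · rintro ⟨A, hA1, hA2, hA3⟩
      have hle : h z ≤ A := by
        apply le_of_bits
        intro l hl
        have hlt : l < r := by
          by_contra hcon
          push Not at hcon
          have : h z < 2 ^ l := lt_of_lt_of_le (hr z) (Nat.pow_le_pow_right (by norm_num) hcon)
          rw [Nat.testBit_lt_two_pow this] at hl
          exact absurd hl (by decide)
        have h1 := hA2 ⟨r - 1 - l, by omega⟩
        have e2 : r - 1 - (r - 1 - l) = l := by omega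
        simp only [e2] at h1
        by_contra hk
        rw [Bool.not_eq_true] at hk
        have := h1 hk
        rw [hl] at this
        exact absurd this (by decide)
      rcases hA3 with h1 | ⟨h1, h2⟩
      · exact absurd h1 (not_lt.2 hle)
      · exact h2

end TH521.Circ
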