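import Mathlib
set_option autoImplicit false

/-! Graphs on `F_2 ^ n` all of whose edges have certificates of size `w`. -/

namespace TH521.Circ

open Finset

/-- every edge of `G` has a certificate consisting of the values of `w` linear functionals of the
pair: all pairs of distinct vertices with the same values are edges -/
def Certified {n : ℕ} (w : ℕ) (G : SimpleGraph (Fin n → ZMod 2)) : Prop :=
  ∀ x y, G.Adj x y → ∃ L : Fin w → ((Fin n → ZMod 2) × (Fin n → ZMod 2) →ₗ[ZMod 2] ZMod 2),
    ∀ x' y', x' ≠ y' → (∀ j, L j (x', y') = L j (x, y)) → G.Adj x' y'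

theorem ker_finrank {n m : ℕ} (U : Submodule (ZMod 2) (Fin n → ZMod 2))
    (Φ : (Fin n → ZMod 2) →ₗ[ZMod 2] (Fin m → ZMod 2)) :
    Module.finrank (ZMod 2) U ≤ Module.finrank (ZMod 2) (U ⊓ LinearMap.ker Φ : Submodule (ZMod 2) (Fin n → ZMod 2)) + m := by
  have h1 := LinearMap.finrank_range_add_finrank_ker (Φ.domRestrict U)
  have h2 : Module.finrank (ZMod 2) (LinearMap.range (Φ.domRestrict U)) ≤ m := by
    refine (Submodule.finrank_le _).trans ?_
    rw [Module.finrank_fin_fun]
  have h3 : Module.finrank (ZMod 2) (LinearMap.ker (Φ.domRestrict U)) ≤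
      Module.finrank (ZMod 2) (U ⊓ LinearMap.ker Φ : Submodule (ZMod 2) (Fin n → ZMod 2)) := by
    let ψ : LinearMap.ker (Φ.domRestrict U) →ₗ[ZMod 2]
        (U ⊓ LinearMap.ker Φ : Submodule (ZMod 2) (Fin n → ZMod 2)) :=
      { toFun := fun x => ⟨x.1.1, ⟨x.1.2, x.2⟩⟩
        map_add' := fun _ _ => rfl
        map_smul' := fun _ _ => rfl }
    refine LinearMap.finrank_le_finrank_of_injective (f := ψ) ?_
    intro x y hxy
    have h4 : (ψ x).1 = (ψ y).1 := by rw [hxy]
    exact Subtype.ext (Subtype.ext h4)
  omega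

theorem cert_rec {n : ℕ} (w : ℕ) (G : SimpleGraph (Fin n → ZMod 2)) (hG : Certified w G) :
    ∀ (q : ℕ) (U : Submodule (ZMod 2) (Fin n → ZMod 2)) (v : Fin n → ZMod 2),
      q * (w + 1) ≤ Module.finrank (ZMod 2) U →
      ∃ K J : Finset (Fin n → ZMod 2), (∀ x ∈ K, x - v ∈ U) ∧ (∀ x ∈ J, x - v ∈ U) ∧
        G.IsClique (K : Set (Fin n → ZMod 2)) ∧ G.IsIndepSet (J : Set (Fin n → ZMod 2)) ∧
        2 ^ q ≤ K.card * J.card := by
  classical
  intro q
  induction q with
  | zero =>
    intro U v _
    refine ⟨{v}, {v}, ?_, ?_, ?_, ?_, by simp⟩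
    · intro x hx
      rw [mem_singleton.1 hx, sub_self]; exact U.zero_mem
    · intro x hx
      rw [mem_singleton.1 hx, sub_self]; exact U.zero_mem
    · simp
    · simp [SimpleGraph.IsIndepSet]
  | succ q ih =>
    intro U v hU
    by_cases hex : ∃ x y, x - v ∈ U ∧ y - v ∈ U ∧ G.Adj x y
    · obtain ⟨x, y, hx, hy, hxy⟩ := hex
      obtain ⟨L, hL⟩ := hG x y hxy
      obtain ⟨i, hi⟩ := Function.ne_iff.1 hxy.ne
      -- the linear maps
      let ΦA : (Fin n → ZMod 2) →ₗ[ZMod 2] (Fin (w + 1) → ZMod 2) :=
        LinearMap.pi (Fin.cons (LinearMap.proj i) fun j =>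
          (L j).comp (LinearMap.inl (ZMod 2) _ _))
      let ΦB : (Fin n → ZMod 2) →ₗ[ZMod 2] (Fin (w + 1) → ZMod 2) :=
        LinearMap.pi (Fin.cons (LinearMap.proj i) fun j =>
          (L j).comp (LinearMap.inr (ZMod 2) _ _))
      have hA : ∀ u, u ∈ LinearMap.ker ΦA → u i = 0 ∧ ∀ j, L j (u, 0) = 0 := by
        intro u hu
        rw [LinearMap.mem_ker] at hu
        refine ⟨?_, fun j => ?_⟩
        · have := congrFun hu 0
          simpa [ΦA] using this
        · have := congrFun hu j.succ
          simpa [ΦA] using this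
      have hB : ∀ u, u ∈ LinearMap.ker ΦB → u i = 0 ∧ ∀ j, L j (0, u) = 0 := by
        intro u hu
        rw [LinearMap.mem_ker] at hu
        refine ⟨?_, fun j => ?_⟩
        · have := congrFun hu 0
          simpa [ΦB] using this
        · have := congrFun hu j.succ
          simpa [ΦB] using this
      have hdA := ker_finrank U ΦA
      have hdB := ker_finrank U ΦB
      have hq : (q + 1) * (w + 1) = q * (w + 1) + (w + 1) := by ring
      obtain ⟨K1, J1, hK1, hJ1, hK1c, hJ1i, h1⟩ := ih (U ⊓ LinearMap.ker ΦA) x (by omega)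
      obtain ⟨K2, J2, hK2, hJ2, hK2c, hJ2i, h2⟩ := ih (U ⊓ LinearMap.ker ΦB) y (by omega)
      -- complete pairs
      have hcross : ∀ a ∈ K1, ∀ b ∈ K2, a ≠ b ∧ G.Adj a b := by
        intro a ha b hb
        obtain ⟨ha1, ha2⟩ := hK1 a ha
        obtain ⟨hb1, hb2⟩ := hK2 b hb
        obtain ⟨hai, haL⟩ := hA _ ha2
        obtain ⟨hbi, hbL⟩ := hB _ hb2
        have hne : a ≠ b := by
          rintro rfl
          apply hi
          simp only [Pi.sub_apply] at hai hbi
          rw [sub_eq_zero] at hai hbi
          rw [← hai, ← hbi]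
        refine ⟨hne, hL a b hne fun j => ?_⟩
        have e1 : (a, b) = (x, y) + (a - x, 0) + (0, b - y) := by
          simp
        rw [e1, map_add, map_add, haL j, hbL j, add_zero, add_zero]
      have hdis : Disjoint K1 K2 := by
        rw [disjoint_left]
        intro a ha hb
        exact (hcross a ha a hb).1 rfl
      have hinU1 : ∀ a, a - x ∈ (U ⊓ LinearMap.ker ΦA : Submodule (ZMod 2) (Fin n → ZMod 2)) →
          a - v ∈ U := by
        intro a ha
        have : a - v = (a - x) + (x - v) := by abel
        rw [this]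
        exact U.add_mem ha.1 hx
      have hinU2 : ∀ a, a - y ∈ (U ⊓ LinearMap.ker ΦB : Submodule (ZMod 2) (Fin n → ZMod 2)) →
          a - v ∈ U := by
        intro a ha
        have : a - v = (a - y) + (y - v) := by abel
        rw [this]
        exact U.add_mem ha.1 hy
      have hKin : ∀ a ∈ K1 ∪ K2, a - v ∈ U := by
        intro a ha
        rcases mem_union.1 ha with ha | ha
        · exact hinU1 a (hK1 a ha)
        · exact hinU2 a (hK2 a ha)
      have hKcl : G.IsClique ((K1 ∪ K2 : Finset (Fin n → ZMod 2)) : Set (Fin n → ZMod 2)) := by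
        intro a ha b hb hne
        rw [mem_coe, mem_union] at ha hb
        rcases ha with ha | ha <;> rcases hb with hb | hb
        · exact hK1c ha hb hne
        · exact (hcross a ha b hb).2
        · exact (hcross b hb a ha).2.symm
        · exact hK2c ha hb hne
      have hKcard : (K1 ∪ K2).card = K1.card + K2.card := card_union_of_disjoint hdis
      rcases le_total J1.card J2.card with hJ | hJ
      · refine ⟨K1 ∪ K2, J2, hKin, fun a ha => hinU2 a (hJ2 a ha), hKcl, hJ2i, ?_⟩
        rw [hKcard, pow_succ]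
        nlinarith
      · refine ⟨K1 ∪ K2, J1, hKin, fun a ha => hinU1 a (hJ1 a ha), hKcl, hJ1i, ?_⟩
        rw [hKcard, pow_succ]
        nlinarith
    · -- independent
      push Not at hex
      refine ⟨{v}, (univ : Finset (Fin n → ZMod 2)).filter (fun x => x - v ∈ U), ?_, ?_, ?_, ?_, ?_⟩
      · intro x hx
        rw [mem_singleton.1 hx, sub_self]; exact U.zero_mem
      · intro x hx
        exact (mem_filter.1 hx).2
      · simp
      · intro a ha b hb hne
        rw [mem_coe, mem_filter] at ha hb
        exact hex a b ha.2 hb.2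
      · rw [card_singleton, one_mul]
        have h1 : ((univ : Finset (Fin n → ZMod 2)).filter (fun x => x - v ∈ U)).card =
            Fintype.card U := by
          rw [← Fintype.card_coe]
          refine Fintype.card_congr
            { toFun := fun x => ⟨x.1 - v, (mem_filter.1 x.2).2⟩
              invFun := fun u => ⟨u.1 + v, by
                rw [mem_filter]; exact ⟨mem_univ _, by simp⟩⟩
              left_inv := fun x => by simp
              right_inv := fun u => by simp }
        rw [h1, Module.card_eq_pow_finrank (K := ZMod 2), ZMod.card]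
        apply Nat.pow_le_pow_right (by norm_num)
        have : (q + 1) * 1 ≤ (q + 1) * (w + 1) := Nat.mul_le_mul_left _ (by omega)
        omega

end TH521.Circ
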