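import Pool.Agent.TH37.SD.Defs

/-!
# SD-D1: central extensions of free groups of exponent `p` are determined by their `p`-th powers

Job 3280 of project SD (helper37), done by helper521.
-/

set_option autoImplicit false

namespace Pool.Agent.TH521.SD

open Pool.Agent.TH54.BU Pool.Agent.TH37.SD

section

variable {p : ℕ} {C P : Type} [Group C] [Group P] {π : C →* P} {z : C}

theorem comm_zpow (h : AE p π z) (a : C) (k : ℤ) : a * z ^ k = z ^ k * a := by
  have h1 : Commute a z := h.cen a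
  exact (h1.zpow_right k).eq

theorem pi_z (h : AE p π z) (k : ℤ) : π (z ^ k) = 1 := by
  have h1 : z ^ k ∈ π.ker := by
    rw [h.ker]
    exact Subgroup.zpow_mem_zpowers z k
  exact h1

theorem pow_ex (h : AE p π z) (a : C) : ∃ k : ℤ, a ^ p = z ^ k := by
  by_cases h1 : π a = 1
  · have h2 : a ∈ π.ker := h1
    rw [h.ker] at h2
    obtain ⟨j, rfl⟩ := Subgroup.mem_zpowers_iff.1 h2
    refine ⟨0, ?_⟩
    rw [← zpow_natCast, ← zpow_mul, mul_comm, zpow_mul, zpow_natCast, h.zp, one_zpow, zpow_zero]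
  · obtain ⟨k, hk, _⟩ := h.pw a h1
    exact ⟨k, hk⟩

theorem zpow_congr (h : AE p π z) {k k' : ℤ} (hk : (k : ZMod p) = k') : z ^ k = z ^ k' := by
  have h1 : (p : ℤ) ∣ k' - k := (ZMod.intCast_eq_intCast_iff_dvd_sub k k' p).1 hk
  obtain ⟨t, ht⟩ := h1
  have h2 : k' = k + p * t := by linarith
  rw [h2, zpow_add, zpow_mul, zpow_natCast, h.zp, one_zpow, mul_one]

/-- the relation between the two extensions -/
def Rel {s : ℕ} (z : C) (e e' : Fin s → C) (a a' : C) : Prop :=
  ∃ (w : FreeGroup (Fin s)) (k : ℤ), a = FreeGroup.lift e w * z ^ k ∧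
    a' = FreeGroup.lift e' w * z ^ k

theorem lift_eq {s : ℕ} (α : Bs p s →* P) (e : Fin s → C) (he : ∀ i, π (e i) = α (bgen p i))
    (w : FreeGroup (Fin s)) :
    π (FreeGroup.lift e w) = α ((w : FreeGroup (Fin s)) : Bs p s) := by
  have h1 : π.comp (FreeGroup.lift e) =
      α.comp (QuotientGroup.mk' (powSub (FreeGroup (Fin s)) p)) := by
    ext i
    simp only [MonoidHom.comp_apply, FreeGroup.lift_apply_of, QuotientGroup.mk'_apply]
    exact he i
  exact DFunLike.congr_fun h1 w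

theorem powSub_eq {s : ℕ} (h : AE p π z) {κ : P → ZMod p} (hκ : PK p π z κ)
    (α α' : Bs p s →* P) (hαα : ∀ v, κ (α v) = κ (α' v))
    (e e' : Fin s → C) (he : ∀ i, π (e i) = α (bgen p i)) (he' : ∀ i, π (e' i) = α' (bgen p i))
    {m : FreeGroup (Fin s)} (hm : m ∈ powSub (FreeGroup (Fin s)) p) :
    ∃ k : ℤ, FreeGroup.lift e m = z ^ k ∧ FreeGroup.lift e' m = z ^ k := by
  let N : Subgroup (FreeGroup (Fin s)) :=
    { carrier := {m | ∃ k : ℤ, FreeGroup.lift e m = z ^ k ∧ FreeGroup.lift e' m = z ^ k}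
      one_mem' := ⟨0, by simp, by simp⟩
      mul_mem' := by
        rintro a b ⟨k, hk, hk'⟩ ⟨j, hj, hj'⟩
        exact ⟨k + j, by rw [map_mul, hk, hj, zpow_add], by rw [map_mul, hk', hj', zpow_add]⟩
      inv_mem' := by
        rintro a ⟨k, hk, hk'⟩
        exact ⟨-k, by rw [map_inv, hk, zpow_neg], by rw [map_inv, hk', zpow_neg]⟩ }
  have hN : N.Normal := by
    constructor
    rintro a ⟨k, hk, hk'⟩ g
    refine ⟨k, ?_, ?_⟩
    · rw [map_mul, map_mul, map_inv, hk, comm_zpow h, mul_assoc, mul_inv_cancel, mul_one]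
    · rw [map_mul, map_mul, map_inv, hk', comm_zpow h, mul_assoc, mul_inv_cancel, mul_one]
  have hle : powSub (FreeGroup (Fin s)) p ≤ N := by
    refine Subgroup.normalClosure_le_normal ?_
    rintro _ ⟨w, rfl⟩
    obtain ⟨k, hk⟩ := pow_ex h (FreeGroup.lift e w)
    obtain ⟨k', hk'⟩ := pow_ex h (FreeGroup.lift e' w)
    have h1 := hκ _ _ hk
    have h2 := hκ _ _ hk'
    rw [lift_eq α e he w] at h1
    rw [lift_eq α' e' he' w, ← hαα] at h2
    have h3 : z ^ k = z ^ k' := zpow_congr h (h1.trans h2.symm)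
    refine ⟨k, ?_, ?_⟩
    · simp only [map_pow]
      exact hk
    · simp only [map_pow]
      rw [h3]
      exact hk'
  exact hle hm

theorem rel_fun {s : ℕ} (h : AE p π z) {κ : P → ZMod p} (hκ : PK p π z κ)
    (α α' : Bs p s →* P) (hα : Function.Injective α) (hαα : ∀ v, κ (α v) = κ (α' v))
    (e e' : Fin s → C) (he : ∀ i, π (e i) = α (bgen p i)) (he' : ∀ i, π (e' i) = α' (bgen p i))
    {a a' a'' : C} (h1 : Rel z e e' a a') (h2 : Rel z e e' a a'') : a' = a'' := by
  obtain ⟨w, k, hw, hw'⟩ := h1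
  obtain ⟨v, j, hv, hv'⟩ := h2
  have h3 : π (FreeGroup.lift e w) = π (FreeGroup.lift e v) := by
    have h4 : FreeGroup.lift e w * z ^ k = FreeGroup.lift e v * z ^ j := hw.symm.trans hv
    have h5 := congrArg π h4
    rwa [map_mul, map_mul, pi_z h, pi_z h, mul_one, mul_one] at h5
  rw [lift_eq α e he, lift_eq α e he] at h3
  have h4 : w⁻¹ * v ∈ powSub (FreeGroup (Fin s)) p := QuotientGroup.eq.1 (hα h3)
  obtain ⟨t, ht, ht'⟩ := powSub_eq h hκ α α' hαα e e' he he' h4
  have h5 : FreeGroup.lift e v = FreeGroup.lift e w * z ^ t := by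
    rw [← ht, map_mul, map_inv]
    group
  have h5' : FreeGroup.lift e' v = FreeGroup.lift e' w * z ^ t := by
    rw [← ht', map_mul, map_inv]
    group
  have h6 : z ^ k = z ^ t * z ^ j := by
    have h7 : FreeGroup.lift e w * z ^ k = FreeGroup.lift e w * z ^ t * z ^ j := by
      rw [← hw, hv, h5]
    rw [mul_assoc] at h7
    exact mul_left_cancel h7
  rw [hw', hv', h5', h6, mul_assoc]

theorem rel_mul {s : ℕ} (h : AE p π z) (e e' : Fin s → C) {a a' b b' : C}
    (h1 : Rel z e e' a a') (h2 : Rel z e e' b b') : Rel z e e' (a * b) (a' * b') := by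
  obtain ⟨w, k, hw, hw'⟩ := h1
  obtain ⟨v, j, hv, hv'⟩ := h2
  refine ⟨w * v, k + j, ?_, ?_⟩
  · rw [hw, hv, map_mul, zpow_add]
    have := comm_zpow h (FreeGroup.lift e v) k
    calc FreeGroup.lift e w * z ^ k * (FreeGroup.lift e v * z ^ j)
        = FreeGroup.lift e w * (z ^ k * FreeGroup.lift e v) * z ^ j := by group
      _ = FreeGroup.lift e w * (FreeGroup.lift e v * z ^ k) * z ^ j := by rw [← this]
      _ = _ := by group
  · rw [hw', hv', map_mul, zpow_add]
    have := comm_zpow h (FreeGroup.lift e' v) k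
    calc FreeGroup.lift e' w * z ^ k * (FreeGroup.lift e' v * z ^ j)
        = FreeGroup.lift e' w * (z ^ k * FreeGroup.lift e' v) * z ^ j := by group
      _ = FreeGroup.lift e' w * (FreeGroup.lift e' v * z ^ k) * z ^ j := by rw [← this]
      _ = _ := by group

theorem rel_ex {s : ℕ} (h : AE p π z) (α : Bs p s →* P) (e e' : Fin s → C)
    (he : ∀ i, π (e i) = α (bgen p i)) {a : C} (ha : a ∈ α.range.comap π) :
    ∃ a', Rel z e e' a a' := by
  obtain ⟨v, hv⟩ := ha
  obtain ⟨w, rfl⟩ := QuotientGroup.mk_surjective v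
  have h1 : π ((FreeGroup.lift e w)⁻¹ * a) = 1 := by
    rw [map_mul, map_inv, lift_eq α e he, hv]
    exact inv_mul_cancel (π a)
  have h2 : (FreeGroup.lift e w)⁻¹ * a ∈ π.ker := h1
  rw [h.ker] at h2
  obtain ⟨k, hk⟩ := Subgroup.mem_zpowers_iff.1 h2
  refine ⟨FreeGroup.lift e' w * z ^ k, w, k, ?_, rfl⟩
  rw [hk]
  group

theorem rel_mem {s : ℕ} (h : AE p π z) (α : Bs p s →* P) (e e' : Fin s → C)
    (he : ∀ i, π (e i) = α (bgen p i)) {a a' : C} (hr : Rel z e e' a a') :
    a ∈ α.range.comap π := by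
  obtain ⟨w, k, hw, _⟩ := hr
  refine ⟨(w : Bs p s), ?_⟩
  rw [hw, map_mul, pi_z h, mul_one, lift_eq α e he]

theorem rel_symm {s : ℕ} {e e' : Fin s → C} {a a' : C} (hr : Rel z e e' a a') :
    Rel z e' e a' a := by
  obtain ⟨w, k, hw, hw'⟩ := hr
  exact ⟨w, k, hw', hw⟩

end

theorem iso : IsoStmt := by
  intro p hp C P _ _ π z h κ hκ s α α' hα hα' hαα e e' he he'
  have hex : ∀ a : (α.range.comap π : Subgroup C), ∃ a', Rel z e e' (a : C) a' :=
    fun a => rel_ex h α e e' he a.2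
  have hex' : ∀ a : (α'.range.comap π : Subgroup C), ∃ a', Rel z e' e (a : C) a' :=
    fun a => rel_ex h α' e' e he' a.2
  choose f hf using hex
  choose g hg using hex'
  have hαα' : ∀ v, κ (α' v) = κ (α v) := fun v => (hαα v).symm
  have hfun : ∀ {a a' a'' : C}, Rel z e e' a a' → Rel z e e' a a'' → a' = a'' :=
    fun h1 h2 => rel_fun h hκ α α' hα hαα e e' he he' h1 h2
  have hfun' : ∀ {a a' a'' : C}, Rel z e' e a a' → Rel z e' e a a'' → a' = a'' :=
    fun h1 h2 => rel_fun h hκ α' α hα' hαα' e' e he' he h1 h2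
  have hfm : ∀ a, f a ∈ α'.range.comap π := fun a => rel_mem h α' e' e he' (rel_symm (hf a))
  have hgm : ∀ a, g a ∈ α.range.comap π := fun a => rel_mem h α e e' he (rel_symm (hg a))
  refine ⟨
    { toFun := fun a => ⟨f a, hfm a⟩
      invFun := fun a => ⟨g a, hgm a⟩
      left_inv := fun a => ?_
      right_inv := fun a => ?_
      map_mul' := fun a b => ?_ }, ?_, ?_⟩
  · apply Subtype.ext
    exact hfun' (hg ⟨f a, hfm a⟩) (rel_symm (hf a))
  · apply Subtype.ext
    exact hfun (hf ⟨g a, hgm a⟩) (rel_symm (hg a))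
  · apply Subtype.ext
    exact hfun (hf (a * b)) (rel_mul h e e' (hf a) (hf b))
  · intro hz
    exact hfun (hf ⟨z, hz⟩) ⟨1, 1, by simp, by simp⟩
  · intro i hi
    exact hfun (hf ⟨e i, hi⟩) ⟨FreeGroup.of i, 0, by simp, by simp⟩

end Pool.Agent.TH521.SD
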