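import Pool.Agent.TH605.AP.WF

/-!
# Job 2847 (AP-K2, helper605): `KK` is closed, tangency points, `uu → 1`
-/

set_option autoImplicit false

open Set Topology Filter

namespace Pool.Agent.TH521.J2847

open Pool.Agent.TH605.AP

/-! ### `KK` is closed -/

theorem closed_powers {a : ℝ} (ha : 1 < a) :
    IsClosed (insert (0 : ℝ) (Set.range fun n : ℤ => a ^ n)) := by
  have ha0 : (0 : ℝ) < a := by linarith
  rw [← isOpen_compl_iff, isOpen_iff_mem_nhds]
  intro x hx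
  rcases lt_trichotomy x 0 with h | h | h
  · refine Filter.mem_of_superset (Iio_mem_nhds h) ?_
    intro y hy hy2
    rw [Set.mem_Iio] at hy
    rcases hy2 with h1 | ⟨n, h1⟩
    · linarith
    · have h2 : (0 : ℝ) < a ^ n := zpow_pos ha0 n
      simp only at h1
      linarith
  · exact absurd (Or.inl h) hx
  · obtain ⟨n, h1, h2⟩ := exists_mem_Ico_zpow h ha
    have h3 : a ^ n ≠ x := fun h3 => hx (Or.inr ⟨n, h3⟩)
    have h4 : a ^ n < x := lt_of_le_of_ne h1 h3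
    refine Filter.mem_of_superset (Ioo_mem_nhds h4 h2) ?_
    intro y hy hy2
    rw [Set.mem_Ioo] at hy
    rcases hy2 with h5 | ⟨m, h5⟩
    · have h6 : (0 : ℝ) < a ^ n := zpow_pos ha0 n
      rw [h5] at hy
      linarith [hy.1]
    · simp only at h5
      rw [← h5] at hy
      have h6 : n < m := (zpow_lt_zpow_iff_right₀ ha).1 hy.1
      have h7 : m < n + 1 := (zpow_lt_zpow_iff_right₀ ha).1 hy.2
      omega

theorem fx_coe (z : ℂ) : fx (z : OnePoint ℂ) = (1 / (z - (xi : ℂ))).im := rfl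

theorem fx_infty : fx (OnePoint.infty : OnePoint ℂ) = 0 := rfl

theorem fx_coe' (z : ℂ) :
    fx (z : OnePoint ℂ) = -z.im / ((z.re - xi) ^ 2 + z.im ^ 2) := by
  rw [fx_coe, one_div, Complex.inv_im, Complex.normSq_apply]
  simp only [Complex.sub_im, Complex.sub_re, Complex.ofReal_im, Complex.ofReal_re, sub_zero]
  congr 1
  ring

theorem mem_RL_coe (z : ℂ) : (z : OnePoint ℂ) ∈ RL ↔ z.im = 0 := by
  unfold RL
  constructor
  · rintro (h | ⟨x, h⟩)
    · exact absurd h (OnePoint.coe_ne_infty z)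
    · have h1 : ((x : ℝ) : ℂ) = z := OnePoint.coe_injective h
      rw [← h1, Complex.ofReal_im]
  · intro h
    right
    refine ⟨z.re, ?_⟩
    have h1 : ((z.re : ℝ) : ℂ) = z := Complex.ext (by simp) (by simp [h])
    exact congrArg _ h1

theorem closedKK (hlam : 1 < lam) : IsClosed KK := by
  have hmem : (OnePoint.infty : OnePoint ℂ) ∈ KK := Or.inl (Or.inl rfl)
  rw [OnePoint.isClosed_iff_of_mem hmem]
  set L : Set ℝ := insert (0 : ℝ) (Set.range fun n : ℤ => lam ^ n) with hL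
  have hLc : IsClosed L := closed_powers hlam
  rw [← isOpen_compl_iff]
  have hO : IsOpen {z : ℂ | z.im ≠ 0} := isOpen_ne_fun Complex.continuous_im continuous_const
  have hc : ContinuousOn (fun z : ℂ => (1 / (z - (xi : ℂ))).im) {z : ℂ | z.im ≠ 0} := by
    apply Complex.continuous_im.comp_continuousOn
    apply ContinuousOn.div continuousOn_const (continuousOn_id.sub continuousOn_const)
    intro z hz h0
    apply hz
    have h1 := congrArg Complex.im h0
    simpa using h1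
  have hopen := hc.isOpen_inter_preimage hO hLc.isOpen_compl
  convert hopen using 1
  ext z
  simp only [Set.mem_compl_iff, Set.mem_preimage, Set.mem_inter_iff, Set.mem_setOf_eq]
  constructor
  · intro h
    have h1 : z.im ≠ 0 := fun h1 => h (Or.inl ((mem_RL_coe z).2 h1))
    refine ⟨h1, ?_⟩
    rintro (h2 | ⟨n, h2⟩)
    · rw [← fx_coe, fx_coe'] at h2
      have h3 : (0 : ℝ) < (z.re - xi) ^ 2 + z.im ^ 2 := by positivity
      rw [div_eq_zero_iff] at h2
      rcases h2 with h2 | h2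
      · exact h1 (by linarith)
      · exact h3.ne' h2
    · exact h (Or.inr ⟨n, h2.symm⟩)
  · rintro ⟨h1, h2⟩ (h3 | ⟨n, h3⟩)
    · exact h1 ((mem_RL_coe z).1 h3)
    · exact h2 (Or.inr ⟨n, h3.symm⟩)

/-! ### Tangency points -/

/-- Gaussian rationals -/
def GQ : Subfield ℂ where
  carrier := {z | ∃ a b : ℚ, z.re = a ∧ z.im = b}
  zero_mem' := ⟨0, 0, by simp, by simp⟩
  one_mem' := ⟨1, 0, by simp, by simp⟩
  add_mem' := by
    rintro x y ⟨a, b, h1, h2⟩ ⟨c, d, h3, h4⟩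
    exact ⟨a + c, b + d, by simp [h1, h3], by simp [h2, h4]⟩
  neg_mem' := by
    rintro x ⟨a, b, h1, h2⟩
    exact ⟨-a, -b, by simp [h1], by simp [h2]⟩
  mul_mem' := by
    rintro x y ⟨a, b, h1, h2⟩ ⟨c, d, h3, h4⟩
    exact ⟨a * c - b * d, a * d + b * c, by simp [h1, h2, h3, h4], by simp [h1, h2, h3, h4]⟩
  inv_mem' := by
    rintro x ⟨a, b, h1, h2⟩
    refine ⟨a / (a * a + b * b), -b / (a * a + b * b), ?_, ?_⟩
    · rw [Complex.inv_re, Complex.normSq_apply, h1, h2]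
      push_cast
      rfl
    · rw [Complex.inv_im, Complex.normSq_apply, h1, h2]
      push_cast
      rfl

theorem mem_GQ {z : ℂ} : z ∈ GQ ↔ ∃ a b : ℚ, z.re = a ∧ z.im = b := Iff.rfl

/-- Gaussian rational points of the sphere -/
def GP : Set (OnePoint ℂ) := {z | ∀ w : ℂ, z = (w : OnePoint ℂ) → w ∈ GQ}

theorem infty_GP : (OnePoint.infty : OnePoint ℂ) ∈ GP := fun w h =>
  absurd h.symm (OnePoint.coe_ne_infty w)

theorem coe_GP {z : ℂ} (h : z ∈ GQ) : (z : OnePoint ℂ) ∈ GP := fun w hw => by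
  rw [← OnePoint.coe_injective hw]; exact h

theorem GQ_of_coe {z : ℂ} (h : (z : OnePoint ℂ) ∈ GP) : z ∈ GQ := h z rfl

theorem smul_GP {g : Matrix.GeneralLinearGroup (Fin 2) ℂ} (hg : ∀ i j, g i j ∈ GQ)
    {z : OnePoint ℂ} (hz : z ∈ GP) : g • z ∈ GP := by
  induction z using OnePoint.rec with
  | infty =>
    rw [OnePoint.smul_infty_eq_ite]
    split_ifs with h
    · exact infty_GP
    · exact coe_GP (GQ.div_mem (hg 0 0) (hg 1 0))
  | coe z =>
    have hz' := GQ_of_coe hz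
    rw [OnePoint.smul_some_eq_ite]
    split_ifs with h
    · exact infty_GP
    · exact coe_GP (GQ.div_mem (GQ.add_mem (GQ.mul_mem (hg 0 0) hz') (hg 0 1))
        (GQ.add_mem (GQ.mul_mem (hg 1 0) hz') (hg 1 1)))

theorem cj_GP {z : OnePoint ℂ} (hz : z ∈ GP) : cj z ∈ GP := by
  unfold cj
  induction z using OnePoint.rec with
  | infty =>
    rw [OnePoint.map_infty]
    exact infty_GP
  | coe z =>
    rw [OnePoint.map_some]
    obtain ⟨a, b, h1, h2⟩ := GQ_of_coe hz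
    exact coe_GP ⟨a, -b, by simpa using h1, by simp [h2]⟩

theorem I_GQ : Complex.I ∈ GQ := ⟨0, 1, by simp, by simp⟩

theorem two_GQ : (2 : ℂ) ∈ GQ := ⟨2, 0, by simp, by simp⟩

theorem M_GQ (i : Fin 4) (a b : Fin 2) : M i a b ∈ GQ := by
  have h1 : (1 : ℂ) ∈ GQ := GQ.one_mem
  have h0 : (0 : ℂ) ∈ GQ := GQ.zero_mem
  have h2 := two_GQ
  have hI := I_GQ
  have h3 : -(1 : ℂ) ∈ GQ := GQ.neg_mem h1
  have h4 : (1 : ℂ) - 2 * Complex.I ∈ GQ := GQ.sub_mem h1 (GQ.mul_mem h2 hI)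
  have h5 : -(2 : ℂ) ∈ GQ := GQ.neg_mem h2
  have h6 : -(1 : ℂ) - 2 * Complex.I ∈ GQ := GQ.sub_mem h3 (GQ.mul_mem h2 hI)
  fin_cases i <;> fin_cases a <;> fin_cases b <;>
    simp only [M, Matrix.GeneralLinearGroup.mkOfDetNeZero] <;> assumption

theorem s_GP (i : Fin 4) {z : OnePoint ℂ} (hz : z ∈ GP) : s i z ∈ GP :=
  smul_GP (M_GQ i) (cj_GP hz)

theorem sg_GP (w : List (Fin 4)) {z : OnePoint ℂ} (hz : z ∈ GP) : sg w z ∈ GP := by
  induction w with
  | nil => exact hz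
  | cons i w ih => exact s_GP i ih

theorem tp_GP (i j : Fin 4) : tp i j ∈ GP := by
  have h1 : (1 : ℂ) ∈ GQ := GQ.one_mem
  have h0 : (0 : ℂ) ∈ GQ := GQ.zero_mem
  have h2 := two_GQ
  have hI := I_GQ
  have g0 := infty_GP
  have g1 : (((1 : ℂ)) : OnePoint ℂ) ∈ GP := coe_GP h1
  have g2 : (((0 : ℂ)) : OnePoint ℂ) ∈ GP := coe_GP h0
  have g3 : (((1 - Complex.I : ℂ)) : OnePoint ℂ) ∈ GP := coe_GP (GQ.sub_mem h1 hI)
  have g4 : (((-Complex.I : ℂ)) : OnePoint ℂ) ∈ GP := coe_GP (GQ.neg_mem hI)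
  have g5 : ((((1 - Complex.I) / 2 : ℂ)) : OnePoint ℂ) ∈ GP :=
    coe_GP (GQ.div_mem (GQ.sub_mem h1 hI) h2)
  fin_cases i <;> fin_cases j <;> simp only [tp] <;> assumption

theorem Tan_GP {z : OnePoint ℂ} (hz : z ∈ Tan) : z ∈ GP := by
  obtain ⟨w, i, j, -, rfl⟩ := hz
  exact sg_GP w (tp_GP i j)

theorem gen_GP (M' : MF) (n : ℤ) {z : OnePoint ℂ} (hz : z ∈ GP) : (gen none ^ n) • z ∈ GP := by
  induction n using Int.induction_on with
  | zero => simpa using hz
  | succ n ih =>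
    rw [add_comm, zpow_add, zpow_one, mul_smul, M'.gen_smul]
    exact sg_GP _ ih
  | pred n ih =>
    rw [sub_eq_add_neg, add_comm, zpow_add, zpow_neg_one, mul_smul, M'.gen_inv_smul]
    exact sg_GP _ ih

theorem fx_zpow (hfx : ∀ z : OnePoint ℂ, fx (gen none • z) = lam * fx z) (hlam : 1 < lam)
    (n : ℤ) (z : OnePoint ℂ) : fx ((gen none ^ n) • z) = lam ^ n * fx z := by
  have hl : lam ≠ 0 := by linarith
  induction n using Int.induction_on with
  | zero => simp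
  | succ n ih =>
    rw [add_comm, zpow_add, zpow_one, mul_smul, hfx, ih, zpow_add₀ hl, zpow_one]
    ring
  | pred n ih =>
    have h1 := hfx ((gen none)⁻¹ • ((gen none ^ (-(n : ℤ))) • z))
    rw [smul_inv_smul, ih] at h1
    rw [sub_eq_add_neg, add_comm, zpow_add, zpow_neg_one, mul_smul, zpow_add₀ hl, zpow_neg_one]
    field_simp
    rw [mul_comm]
    linarith

theorem no_rat {a b : ℚ} (h : -(b : ℝ) / (((a : ℝ) - xi) ^ 2 + (b : ℝ) ^ 2) = 1) : False := by
  have hd : ((a : ℝ) - xi) ^ 2 + (b : ℝ) ^ 2 ≠ 0 := by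
    intro h0
    rw [h0, div_zero] at h
    exact zero_ne_one h
  rw [div_eq_one_iff_eq hd] at h
  have hs : Real.sqrt 2 ^ 2 = 2 := Real.sq_sqrt (by norm_num)
  unfold xi at h
  have h1 : 2 * ((a : ℝ) + 1) * Real.sqrt 2 = ((a : ℝ) + 1) ^ 2 + 2 + (b : ℝ) ^ 2 + b := by
    nlinarith
  by_cases ha : a + 1 = 0
  · have ha' : (a : ℝ) + 1 = 0 := by exact_mod_cast ha
    rw [ha'] at h1
    nlinarith [sq_nonneg ((b : ℝ) + 1 / 2)]
  · have ha' : (a : ℝ) + 1 ≠ 0 := by exact_mod_cast ha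
    have h2 : Real.sqrt 2 = (((a + 1) ^ 2 + 2 + b ^ 2 + b) / (2 * (a + 1)) : ℚ) := by
      push_cast
      rw [eq_div_iff (by positivity)]
      linarith
    exact irrational_sqrt_two ⟨_, h2.symm⟩

theorem Tan_KK' (M' : MF) (hfx : ∀ z : OnePoint ℂ, fx (gen none • z) = lam * fx z)
    (hlam : 1 < lam) (z : OnePoint ℂ) (hz : z ∈ Tan) (hK : z ∈ KK) : z ∈ RL := by
  have hl : lam ≠ 0 := by linarith
  rcases hK with h | ⟨n, h⟩
  · exact h
  · exfalso
    have h1 : (gen none ^ (-n)) • z ∈ GP := gen_GP M' _ (Tan_GP hz)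
    have h2 : fx ((gen none ^ (-n)) • z) = 1 := by
      rw [fx_zpow hfx hlam, h, ← zpow_add₀ hl]
      simp
    generalize (gen none ^ (-n)) • z = y at h1 h2
    induction y using OnePoint.rec with
    | infty =>
      rw [fx_infty] at h2
      exact zero_ne_one h2
    | coe y =>
      obtain ⟨a, b, h3, h4⟩ := GQ_of_coe h1
      rw [fx_coe', h3, h4] at h2
      exact no_rat h2

/-! ### The parabolic maps -/

theorem uu_val (t : ℝ) : ((uu t : Matrix.GeneralLinearGroup (Fin 2) ℂ) : Matrix (Fin 2) (Fin 2) ℂ) =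
    !![1 + Complex.I * t * xi, -(Complex.I * t * xi ^ 2); Complex.I * t,
      1 - Complex.I * t * xi] := rfl

theorem uu_det (t : ℝ) :
    ((uu t : Matrix.GeneralLinearGroup (Fin 2) ℂ) : Matrix (Fin 2) (Fin 2) ℂ).det = 1 := by
  rw [uu_val, Matrix.det_fin_two_of]
  ring

theorem uu_cont : Continuous uu := by
  have hc : Continuous fun t : ℝ =>
      ((uu t : Matrix.GeneralLinearGroup (Fin 2) ℂ) : Matrix (Fin 2) (Fin 2) ℂ) := by
    refine continuous_matrix ?_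
    intro i j
    simp only [uu_val]
    fin_cases i <;> fin_cases j <;> simp <;> fun_prop
  rw [Units.continuous_iff]
  refine ⟨hc, ?_⟩
  have h1 : (fun t : ℝ => (((uu t)⁻¹ : Matrix.GeneralLinearGroup (Fin 2) ℂ) :
      Matrix (Fin 2) (Fin 2) ℂ)) = fun t : ℝ =>
      (((uu t : Matrix.GeneralLinearGroup (Fin 2) ℂ) : Matrix (Fin 2) (Fin 2) ℂ)).adjugate := by
    funext t
    rw [Matrix.coe_units_inv, Matrix.inv_def, uu_det, Ring.inverse_one, one_smul]
  show Continuous fun t : ℝ => (((uu t)⁻¹ : Matrix.GeneralLinearGroup (Fin 2) ℂ) :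
      Matrix (Fin 2) (Fin 2) ℂ)
  rw [h1]
  exact hc.matrix_adjugate

theorem uu_zero : uu 0 = 1 := by
  apply Units.ext
  rw [uu_val]
  ext i j
  fin_cases i <;> fin_cases j <;> simp

theorem uu_lim (hlam : 1 < lam) : Tendsto (fun n : ℕ => uu (lam ^ (-(n : ℤ)))) atTop (𝓝 1) := by
  have h1 : Tendsto (fun n : ℕ => lam ^ (-(n : ℤ))) atTop (𝓝 0) := by
    have h2 : (fun n : ℕ => lam ^ (-(n : ℤ))) = fun n : ℕ => (lam⁻¹) ^ n := by
      funext n
      rw [zpow_neg, zpow_natCast, inv_pow]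
    rw [h2]
    exact tendsto_pow_atTop_nhds_zero_of_lt_one (by positivity) (inv_lt_one_of_one_lt₀ hlam)
  have h3 := (uu_cont.tendsto 0).comp h1
  rw [uu_zero] at h3
  exact h3

theorem kf2 (B : BF) (M : MF) (hfx : ∀ z : OnePoint ℂ, fx (gen none • z) = lam * fx z)
    (hlam : 1 < lam) :
    IsClosed KK ∧ (∀ z : OnePoint ℂ, z ∈ Tan → z ∈ KK → z ∈ RL) ∧
    Tendsto (fun n : ℕ => uu (lam ^ (-(n : ℤ)))) atTop (𝓝 1) :=
  ⟨closedKK hlam, Tan_KK' M hfx hlam, uu_lim hlam⟩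

end Pool.Agent.TH521.J2847
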