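import Pool.Agent.TH196.Loew.Defs

/-!
# Job 2889 (LOEWNER J1, helper196): the flat function `ff` is smooth
-/

set_option autoImplicit false

open Complex
open scoped ContDiff

namespace Pool.Agent.TH521.LW2889

open Pool.Agent.TH196.Loew

/-- real linear map with the given partial derivatives -/
noncomputable def L (a b : ℂ) : ℂ →L[ℝ] ℂ :=
  a • (Complex.ofRealCLM.comp Complex.reCLM) + b • (Complex.ofRealCLM.comp Complex.imCLM)

theorem L_apply (a b h : ℂ) : L a b h = a * (h.re : ℂ) + b * (h.im : ℂ) := by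
  simp [L]

/-- partial derivatives off the origin -/
def HD (g gx gy : ℂ → ℂ) : Prop := ∀ z : ℂ, z ≠ 0 → HasFDerivAt g (L (gx z) (gy z)) z

theorem HD.congr {g gx gy hx hy : ℂ → ℂ} (h : HD g gx gy) (h1 : ∀ z, z ≠ 0 → gx z = hx z)
    (h2 : ∀ z, z ≠ 0 → gy z = hy z) : HD g hx hy := fun z hz => by
  have := h z hz
  rwa [h1 z hz, h2 z hz] at this

theorem HD_const (c : ℂ) : HD (fun _ => c) (fun _ => 0) (fun _ => 0) := fun z _ => by
  refine (hasFDerivAt_const c z).congr_fderiv ?_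
  ext h
  simp [L]

theorem HD_x : HD (fun z => (z.re : ℂ)) (fun _ => 1) (fun _ => 0) := fun z _ => by
  refine (Complex.ofRealCLM.comp Complex.reCLM).hasFDerivAt.congr_fderiv ?_
  ext h
  simp [L]

theorem HD_y : HD (fun z => (z.im : ℂ)) (fun _ => 0) (fun _ => 1) := fun z _ => by
  refine (Complex.ofRealCLM.comp Complex.imCLM).hasFDerivAt.congr_fderiv ?_
  ext h
  simp [L]

theorem HD.add {g gx gy h hx hy : ℂ → ℂ} (hg : HD g gx gy) (hh : HD h hx hy) :
    HD (fun z => g z + h z) (fun z => gx z + hx z) (fun z => gy z + hy z) := fun z hz => by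
  refine ((hg z hz).add (hh z hz)).congr_fderiv ?_
  ext w
  simp only [L_apply, add_apply]; ring

theorem HD.mul {g gx gy h hx hy : ℂ → ℂ} (hg : HD g gx gy) (hh : HD h hx hy) :
    HD (fun z => g z * h z) (fun z => gx z * h z + g z * hx z)
      (fun z => gy z * h z + g z * hy z) := fun z hz => by
  refine ((hg z hz).mul (hh z hz)).congr_fderiv ?_
  ext w
  simp only [L_apply, add_apply, smul_apply, smul_eq_mul]; ring

theorem HD.inv {g gx gy : ℂ → ℂ} (hg : HD g gx gy) (h0 : ∀ z, z ≠ 0 → g z ≠ 0) :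
    HD (fun z => (g z)⁻¹) (fun z => -1 * gx z * ((g z)⁻¹ * (g z)⁻¹))
      (fun z => -1 * gy z * ((g z)⁻¹ * (g z)⁻¹)) := fun z hz => by
  have h1 := ((hasDerivAt_inv (h0 z hz)).hasFDerivAt.restrictScalars ℝ).comp z (hg z hz)
  refine h1.congr_fderiv ?_
  ext w
  simp [L_apply]; ring

theorem HD.exp {g gx gy : ℂ → ℂ} (hg : HD g gx gy) :
    HD (fun z => Complex.exp (g z)) (fun z => gx z * Complex.exp (g z))
      (fun z => gy z * Complex.exp (g z)) := fun z hz => by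
  have h1 := ((Complex.hasDerivAt_exp (g z)).hasFDerivAt.restrictScalars ℝ).comp z (hg z hz)
  refine h1.congr_fderiv ?_
  ext w
  simp [L_apply]; ring

theorem uu_eq (z : ℂ) :
    (uu z : ℂ) = ((z.re : ℂ) * (z.re : ℂ) + (z.im : ℂ) * (z.im : ℂ))⁻¹ := by
  unfold uu
  rw [Complex.sq_norm, Complex.normSq_apply]
  push_cast
  rfl

theorem r2_pos {z : ℂ} (hz : z ≠ 0) : 0 < z.re * z.re + z.im * z.im := by
  rw [← Complex.normSq_apply]
  exact Complex.normSq_pos.2 hz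

theorem r2_ne {z : ℂ} (hz : z ≠ 0) :
    (z.re : ℂ) * (z.re : ℂ) + (z.im : ℂ) * (z.im : ℂ) ≠ 0 := by
  have h := (r2_pos hz).ne'
  exact_mod_cast h

theorem HD_u : HD (fun z => (uu z : ℂ))
    (fun z => -2 * (z.re : ℂ) * ((uu z : ℂ) * (uu z : ℂ)))
    (fun z => -2 * (z.im : ℂ) * ((uu z : ℂ) * (uu z : ℂ))) := by
  have h1 := ((HD_x.mul HD_x).add (HD_y.mul HD_y)).inv (fun z hz => r2_ne hz)
  have h2 : (fun z : ℂ => (uu z : ℂ)) =
      fun z : ℂ => ((z.re : ℂ) * (z.re : ℂ) + (z.im : ℂ) * (z.im : ℂ))⁻¹ := by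
    funext z; exact uu_eq z
  rw [h2]
  refine h1.congr ?_ ?_
  · intro z _
    rw [uu_eq]; ring
  · intro z _
    rw [uu_eq]; ring

/-- numerator of `WW` -/
noncomputable def aa (z : ℂ) : ℂ :=
  4 * (z.re : ℂ) + (uu z : ℂ) * (uu z : ℂ) * (z.im : ℂ) * I

/-- denominator of `WW` -/
noncomputable def bb (z : ℂ) : ℂ :=
  4 * (z.re : ℂ) + (uu z : ℂ) * (uu z : ℂ) * (z.im : ℂ) * (-I)

theorem WW_eq (z : ℂ) : WW z = aa z * (bb z)⁻¹ := by
  unfold WW aa bb
  rw [div_eq_mul_inv]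
  congr 2
  · ring
  · ring

theorem VV_eq : VV = fun z => Complex.exp ((-I / 4) * ((uu z : ℂ) * (uu z : ℂ))) := by
  funext z
  unfold VV
  congr 1
  ring

/-- the algebra -/
inductive S : (ℂ → ℂ) → Prop
  | const (c : ℂ) : S (fun _ => c)
  | x : S (fun z => (z.re : ℂ))
  | y : S (fun z => (z.im : ℂ))
  | u : S (fun z => (uu z : ℂ))
  | v : S VV
  | vi : S (fun z => (VV z)⁻¹)
  | ai : S (fun z => (aa z)⁻¹)
  | bi : S (fun z => (bb z)⁻¹)
  | add {g h : ℂ → ℂ} : S g → S h → S (fun z => g z + h z)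
  | mul {g h : ℂ → ℂ} : S g → S h → S (fun z => g z * h z)

/-- in the algebra, with partial derivatives in the algebra -/
def Q (g : ℂ → ℂ) : Prop := S g ∧ ∃ gx gy : ℂ → ℂ, S gx ∧ S gy ∧ HD g gx gy

theorem Q.const (c : ℂ) : Q (fun _ => c) :=
  ⟨S.const c, _, _, S.const 0, S.const 0, HD_const c⟩

theorem Q.x : Q (fun z => (z.re : ℂ)) := ⟨S.x, _, _, S.const 1, S.const 0, HD_x⟩

theorem Q.y : Q (fun z => (z.im : ℂ)) := ⟨S.y, _, _, S.const 0, S.const 1, HD_y⟩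

theorem Q.u : Q (fun z => (uu z : ℂ)) :=
  ⟨S.u, _, _, ((S.const (-2)).mul S.x).mul (S.u.mul S.u),
    ((S.const (-2)).mul S.y).mul (S.u.mul S.u), HD_u⟩

theorem Q.add {g h : ℂ → ℂ} (hg : Q g) (hh : Q h) : Q (fun z => g z + h z) := by
  obtain ⟨g0, gx, gy, g1, g2, g3⟩ := hg
  obtain ⟨h0, hx, hy, h1, h2, h3⟩ := hh
  exact ⟨g0.add h0, _, _, g1.add h1, g2.add h2, g3.add h3⟩

theorem Q.mul {g h : ℂ → ℂ} (hg : Q g) (hh : Q h) : Q (fun z => g z * h z) := by
  obtain ⟨g0, gx, gy, g1, g2, g3⟩ := hg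
  obtain ⟨h0, hx, hy, h1, h2, h3⟩ := hh
  exact ⟨g0.mul h0, _, _, (g1.mul h0).add (g0.mul h1), (g2.mul h0).add (g0.mul h2), g3.mul h3⟩

theorem Q.inv {g : ℂ → ℂ} (hg : Q g) (hi : S (fun z => (g z)⁻¹))
    (h0 : ∀ z, z ≠ 0 → g z ≠ 0) : Q (fun z => (g z)⁻¹) := by
  obtain ⟨g0, gx, gy, g1, g2, g3⟩ := hg
  exact ⟨hi, _, _, ((S.const (-1)).mul g1).mul (hi.mul hi), ((S.const (-1)).mul g2).mul (hi.mul hi),
    g3.inv h0⟩

theorem Q.v : Q VV := by
  obtain ⟨g0, gx, gy, g1, g2, g3⟩ := (Q.const (-I / 4)).mul (Q.u.mul Q.u)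
  refine ⟨S.v, fun z => gx z * VV z, fun z => gy z * VV z, g1.mul S.v, g2.mul S.v, ?_⟩
  have h := g3.exp
  rw [VV_eq]
  exact h

theorem VV_ne (z : ℂ) : VV z ≠ 0 := Complex.exp_ne_zero _

theorem uu_pos {z : ℂ} (hz : z ≠ 0) : 0 < uu z := by
  unfold uu
  have : 0 < ‖z‖ := norm_pos_iff.2 hz
  positivity

theorem aa_re (z : ℂ) : (aa z).re = 4 * z.re := by
  simp [aa, Complex.add_re, Complex.mul_re, Complex.mul_im]

theorem aa_im (z : ℂ) : (aa z).im = uu z * uu z * z.im := by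
  simp [aa, Complex.add_im, Complex.mul_re, Complex.mul_im]

theorem bb_re (z : ℂ) : (bb z).re = 4 * z.re := by
  simp [bb, Complex.add_re, Complex.mul_re, Complex.mul_im]

theorem bb_im (z : ℂ) : (bb z).im = -(uu z * uu z * z.im) := by
  simp [bb, Complex.add_im, Complex.mul_re, Complex.mul_im]

theorem aa_ne (z : ℂ) (hz : z ≠ 0) : aa z ≠ 0 := by
  intro h
  have h1 := congrArg Complex.re h
  have h2 := congrArg Complex.im h
  rw [aa_re, Complex.zero_re] at h1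
  rw [aa_im, Complex.zero_im] at h2
  have hu := uu_pos hz
  have h3 : z.im = 0 := by
    rcases mul_eq_zero.1 h2 with h | h
    · rcases mul_eq_zero.1 h with h | h <;> linarith
    · exact h
  exact hz (Complex.ext (by simpa using h1) (by simpa using h3))

theorem bb_ne (z : ℂ) (hz : z ≠ 0) : bb z ≠ 0 := by
  intro h
  have h1 := congrArg Complex.re h
  have h2 := congrArg Complex.im h
  rw [bb_re, Complex.zero_re] at h1
  rw [bb_im, Complex.zero_im, neg_eq_zero] at h2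
  have hu := uu_pos hz
  have h3 : z.im = 0 := by
    rcases mul_eq_zero.1 h2 with h | h
    · rcases mul_eq_zero.1 h with h | h <;> linarith
    · exact h
  exact hz (Complex.ext (by simpa using h1) (by simpa using h3))

theorem Q.a : Q aa :=
  ((Q.const 4).mul Q.x).add (((Q.u.mul Q.u).mul Q.y).mul (Q.const I))

theorem Q.b : Q bb :=
  ((Q.const 4).mul Q.x).add (((Q.u.mul Q.u).mul Q.y).mul (Q.const (-I)))

theorem Q_of_S {g : ℂ → ℂ} (h : S g) : Q g := by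
  induction h with
  | const c => exact Q.const c
  | x => exact Q.x
  | y => exact Q.y
  | u => exact Q.u
  | v => exact Q.v
  | vi => exact Q.v.inv S.vi (fun z _ => VV_ne z)
  | ai => exact Q.a.inv S.ai aa_ne
  | bi => exact Q.b.inv S.bi bb_ne
  | add _ _ h1 h2 => exact h1.add h2
  | mul _ _ h1 h2 => exact h1.mul h2

/-! ### Growth -/

theorem one_le_uu {z : ℂ} (hz : z ≠ 0) (h1 : ‖z‖ ≤ 1) : 1 ≤ uu z := by
  unfold uu
  have h0 : 0 < ‖z‖ := norm_pos_iff.2 hz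
  rw [one_le_inv₀ (by positivity)]
  exact pow_le_one₀ h0.le h1

theorem norm_VV (z : ℂ) : ‖VV z‖ = 1 := by
  unfold VV
  rw [Complex.norm_exp]
  have : (-(I * (uu z : ℂ) ^ 2 / 4)).re = 0 := by
    have h : -(I * (uu z : ℂ) ^ 2 / 4) = ((-(uu z ^ 2 / 4) : ℝ) : ℂ) * I := by
      push_cast
      ring
    rw [h, Complex.re_ofReal_mul, Complex.I_re, mul_zero]
  rw [this, Real.exp_zero]

theorem lower_ab {z w : ℂ} (hz : z ≠ 0) (h1 : ‖z‖ ≤ 1) (hre : w.re = 4 * z.re)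
    (him : w.im ^ 2 = (uu z * uu z * z.im) ^ 2) : ‖w⁻¹‖ ≤ 1 * uu z ^ 1 := by
  have hu := one_le_uu hz h1
  have h0 : 0 < ‖z‖ := norm_pos_iff.2 hz
  have hw : ‖w‖ ^ 2 = w.re ^ 2 + w.im ^ 2 := by
    rw [Complex.sq_norm, Complex.normSq_apply]; ring
  have hz2 : ‖z‖ ^ 2 = z.re ^ 2 + z.im ^ 2 := by
    rw [Complex.sq_norm, Complex.normSq_apply]; ring
  have hu4 : 1 ≤ (uu z * uu z) ^ 2 := by
    have : 1 ≤ uu z * uu z := by nlinarith
    nlinarith
  have h3 : ‖z‖ ^ 2 ≤ ‖w‖ ^ 2 := by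
    rw [hw, hz2, him, hre, mul_pow (uu z * uu z)]
    nlinarith [sq_nonneg z.re, sq_nonneg z.im]
  have h4 : ‖z‖ ≤ ‖w‖ := by
    exact le_of_sq_le_sq h3 (norm_nonneg w)
  have h5 : ‖z‖⁻¹ ≤ uu z := by
    unfold uu
    rw [inv_le_inv₀ h0 (by positivity)]
    nlinarith
  rw [norm_inv, one_mul, pow_one]
  exact (inv_anti₀ h0 h4).trans h5

theorem growth {g : ℂ → ℂ} (h : S g) : ∃ C : ℝ, ∃ N : ℕ, 0 ≤ C ∧
    ∀ z : ℂ, z ≠ 0 → ‖z‖ ≤ 1 → ‖g z‖ ≤ C * uu z ^ N := by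
  induction h with
  | const c => exact ⟨‖c‖, 0, norm_nonneg c, fun z _ _ => by simp⟩
  | x =>
    refine ⟨1, 0, zero_le_one, fun z _ h1 => ?_⟩
    rw [pow_zero, mul_one, Complex.norm_real, Real.norm_eq_abs]
    exact (Complex.abs_re_le_norm z).trans h1
  | y =>
    refine ⟨1, 0, zero_le_one, fun z _ h1 => ?_⟩
    rw [pow_zero, mul_one, Complex.norm_real, Real.norm_eq_abs]
    exact (Complex.abs_im_le_norm z).trans h1
  | u =>
    refine ⟨1, 1, zero_le_one, fun z hz _ => ?_⟩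
    rw [pow_one, one_mul, Complex.norm_real, Real.norm_eq_abs, abs_of_pos (uu_pos hz)]
  | v => exact ⟨1, 0, zero_le_one, fun z _ _ => by rw [norm_VV, pow_zero, mul_one]⟩
  | vi =>
    exact ⟨1, 0, zero_le_one, fun z _ _ => by rw [norm_inv, norm_VV, pow_zero, mul_one, inv_one]⟩
  | ai =>
    exact ⟨1, 1, zero_le_one, fun z hz h1 => lower_ab hz h1 (aa_re z) (by rw [aa_im])⟩
  | bi =>
    exact ⟨1, 1, zero_le_one, fun z hz h1 => lower_ab hz h1 (bb_re z) (by rw [bb_im, neg_sq])⟩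
  | add _ _ h1 h2 =>
    obtain ⟨C1, N1, c1, b1⟩ := h1
    obtain ⟨C2, N2, c2, b2⟩ := h2
    refine ⟨C1 + C2, N1 + N2, add_nonneg c1 c2, fun z hz hz1 => ?_⟩
    have hu := one_le_uu hz hz1
    have e1 : uu z ^ N1 ≤ uu z ^ (N1 + N2) := pow_le_pow_right₀ hu (Nat.le_add_right _ _)
    have e2 : uu z ^ N2 ≤ uu z ^ (N1 + N2) := pow_le_pow_right₀ hu (Nat.le_add_left _ _)
    calc _ ≤ _ := norm_add_le _ _
      _ ≤ C1 * uu z ^ N1 + C2 * uu z ^ N2 := add_le_add (b1 z hz hz1) (b2 z hz hz1)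
      _ ≤ C1 * uu z ^ (N1 + N2) + C2 * uu z ^ (N1 + N2) :=
        add_le_add (mul_le_mul_of_nonneg_left e1 c1) (mul_le_mul_of_nonneg_left e2 c2)
      _ = (C1 + C2) * uu z ^ (N1 + N2) := by ring
  | mul _ _ h1 h2 =>
    obtain ⟨C1, N1, c1, b1⟩ := h1
    obtain ⟨C2, N2, c2, b2⟩ := h2
    refine ⟨C1 * C2, N1 + N2, mul_nonneg c1 c2, fun z hz hz1 => ?_⟩
    have hu := one_le_uu hz hz1
    calc _ = _ := norm_mul _ _
      _ ≤ (C1 * uu z ^ N1) * (C2 * uu z ^ N2) :=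
        mul_le_mul (b1 z hz hz1) (b2 z hz hz1) (norm_nonneg _) (by positivity)
      _ = (C1 * C2) * uu z ^ (N1 + N2) := by rw [pow_add]; ring

/-! ### Flat functions -/

/-- the flat function -/
noncomputable def Fl (g : ℂ → ℂ) (z : ℂ) : ℂ :=
  if z = 0 then 0 else ((Real.exp (-uu z) : ℝ) : ℂ) * g z

theorem Fl_zero (g : ℂ → ℂ) : Fl g 0 = 0 := if_pos rfl

theorem Fl_ne (g : ℂ → ℂ) {z : ℂ} (hz : z ≠ 0) :
    Fl g z = ((Real.exp (-uu z) : ℝ) : ℂ) * g z := if_neg hz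

theorem flat_bound {g : ℂ → ℂ} (h : S g) : ∃ C : ℝ, ∀ z : ℂ, ‖z‖ ≤ 1 →
    ‖Fl g z‖ ≤ C * ‖z‖ ^ 2 := by
  obtain ⟨C, N, hC, hb⟩ := growth h
  refine ⟨C * (N + 1).factorial, fun z hz1 => ?_⟩
  by_cases hz : z = 0
  · rw [hz, Fl_zero]; simp
  · rw [Fl_ne g hz, norm_mul, Complex.norm_real, Real.norm_eq_abs, abs_of_pos (Real.exp_pos _)]
    have hu := uu_pos hz
    have h1 := Real.pow_div_factorial_le_exp (uu z) hu.le (N + 1)
    have hf : (0 : ℝ) < ((N + 1).factorial : ℝ) := by exact_mod_cast Nat.factorial_pos _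
    have h2 : Real.exp (-uu z) ≤ (N + 1).factorial / uu z ^ (N + 1) := by
      rw [Real.exp_neg, ← inv_div]
      exact inv_anti₀ (by positivity) h1
    have h3 : ‖z‖ ^ 2 = (uu z)⁻¹ := by unfold uu; rw [inv_inv]
    calc Real.exp (-uu z) * ‖g z‖
        ≤ ((N + 1).factorial / uu z ^ (N + 1)) * (C * uu z ^ N) :=
          mul_le_mul h2 (hb z hz hz1) (norm_nonneg _) (by positivity)
      _ = C * (N + 1).factorial * ‖z‖ ^ 2 := by
          rw [h3]
          field_simp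
          ring

theorem flat_zero {g : ℂ → ℂ} (h : S g) : HasFDerivAt (Fl g) (0 : ℂ →L[ℝ] ℂ) 0 := by
  obtain ⟨C, hC⟩ := flat_bound h
  refine Asymptotics.IsBigO.hasFDerivAt (n := 2) ?_ one_lt_two
  refine Asymptotics.IsBigO.of_bound C ?_
  filter_upwards [Metric.closedBall_mem_nhds (0 : ℂ) one_pos] with z hz
  rw [sub_zero, norm_pow, norm_norm]
  exact hC z (by simpa using hz)

/-- the derivatives of the flat function -/
theorem flat_deriv {g : ℂ → ℂ} (h : S g) : ∃ g1 g2 : ℂ → ℂ, S g1 ∧ S g2 ∧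
    ∀ z : ℂ, HasFDerivAt (Fl g) (L (Fl g1 z) (Fl g2 z)) z := by
  obtain ⟨g0, gx, gy, h1, h2, h3⟩ := Q_of_S h
  refine ⟨fun z => 2 * (z.re : ℂ) * ((uu z : ℂ) * (uu z : ℂ)) * g z + gx z,
    fun z => 2 * (z.im : ℂ) * ((uu z : ℂ) * (uu z : ℂ)) * g z + gy z,
    ((((S.const 2).mul S.x).mul (S.u.mul S.u)).mul g0).add h1,
    ((((S.const 2).mul S.y).mul (S.u.mul S.u)).mul g0).add h2, ?_⟩
  intro z
  by_cases hz : z = 0
  · rw [hz, Fl_zero, Fl_zero]
    refine (flat_zero g0).congr_fderiv ?_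
    ext w <;> simp [L]
  · have e1 : HD (fun z => Complex.exp (-1 * (uu z : ℂ))) _ _ := ((HD_const (-1)).mul HD_u).exp
    have e2 := (e1.mul h3) z hz
    have e3 : Fl g =ᶠ[nhds z] fun z => Complex.exp (-1 * (uu z : ℂ)) * g z := by
      filter_upwards [isOpen_ne.mem_nhds hz] with w hw
      rw [Fl_ne g hw, Complex.ofReal_exp]
      congr 2
      push_cast
      ring
    refine (e2.congr_of_eventuallyEq e3).congr_fderiv ?_
    rw [Fl_ne _ hz, Fl_ne _ hz, Complex.ofReal_exp]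
    have e4 : ((-uu z : ℝ) : ℂ) = -1 * (uu z : ℂ) := by push_cast; ring
    rw [e4]
    ext w
    simp only [L_apply]; ring

theorem flat_contDiff (n : ℕ) : ∀ g : ℂ → ℂ, S g → ContDiff ℝ n (Fl g) := by
  induction n with
  | zero =>
    intro g h
    obtain ⟨g1, g2, -, -, h3⟩ := flat_deriv h
    have hd : Differentiable ℝ (Fl g) := fun z => (h3 z).differentiableAt
    exact contDiff_zero.2 hd.continuous
  | succ n ih =>
    intro g h
    obtain ⟨g1, g2, h1, h2, h3⟩ := flat_deriv h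
    have hd : Differentiable ℝ (Fl g) := fun z => (h3 z).differentiableAt
    have he : fderiv ℝ (Fl g) = fun z => L (Fl g1 z) (Fl g2 z) := by
      funext z; exact (h3 z).fderiv
    push_cast
    rw [contDiff_succ_iff_fderiv]
    refine ⟨hd, fun hω => absurd hω (by simp), ?_⟩
    rw [he]
    unfold L
    exact ((ih g1 h1).smul contDiff_const).add ((ih g2 h2).smul contDiff_const)

/-! ### The function `gg` -/

theorem S.pow {g : ℂ → ℂ} (h : S g) (n : ℕ) : S (fun z => g z ^ n) := by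
  induction n with
  | zero => simpa using S.const 1
  | succ n ih =>
    have := ih.mul h
    simpa [pow_succ] using this

theorem S_a : S aa := Q.a.1

theorem S_b : S bb := Q.b.1

theorem S_V (j : ℤ) : S (fun z => VV z ^ j) := by
  rcases Int.eq_nat_or_neg j with ⟨n, h | h⟩
  · rw [h]
    simpa using S.v.pow n
  · rw [h]
    have := S.vi.pow n
    simpa using this

theorem S_W (k : ℤ) : S (fun z => WW z ^ k) := by
  have e1 : S (fun z => aa z * (bb z)⁻¹) := S_a.mul S.bi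
  have e2 : S (fun z => bb z * (aa z)⁻¹) := S_b.mul S.ai
  rcases Int.eq_nat_or_neg k with ⟨n, h | h⟩
  · rw [h]
    have := e1.pow n
    simpa [WW_eq] using this
  · rw [h]
    have := e2.pow n
    have e3 : (fun z => WW z ^ (-(n : ℤ))) = fun z => (bb z * (aa z)⁻¹) ^ n := by
      funext z
      rw [zpow_neg, zpow_natCast, WW_eq, ← inv_pow, mul_inv, inv_inv, mul_comm]
    rw [e3]
    exact this

theorem S_list (l : List (ℤ × ℤ × ℂ)) :
    S (fun z => (l.map fun m => m.2.2 * VV z ^ m.1 * WW z ^ m.2.1).sum) := by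
  induction l with
  | nil => simpa using S.const 0
  | cons m l ih =>
    have := (((S.const m.2.2).mul (S_V m.1)).mul (S_W m.2.1)).add ih
    simpa using this

theorem S_gg : S gg := by
  have e1 : gg = fun z => 1 + 4 * (((z.re : ℂ) * (z.re : ℂ) + (z.im : ℂ) * (z.im : ℂ)) ^ 2) *
      (modes.map fun m => m.2.2 * VV z ^ m.1 * WW z ^ m.2.1).sum := by
    funext z
    unfold gg pp
    have h : (‖z‖ : ℂ) ^ 4 = ((z.re : ℂ) * (z.re : ℂ) + (z.im : ℂ) * (z.im : ℂ)) ^ 2 := by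
      have h1 : ‖z‖ ^ 4 = (z.re * z.re + z.im * z.im) ^ 2 := by
        rw [← Complex.normSq_apply, ← Complex.sq_norm]; ring
      exact_mod_cast congrArg (fun t : ℝ => (t : ℂ)) h1
    rw [h]
  rw [e1]
  exact (S.const 1).add (((S.const 4).mul (((S.x.mul S.x).add (S.y.mul S.y)).pow 2)).mul
    (S_list modes))

theorem ff_eq : ff = fun z => (Fl gg z).re := by
  funext z
  unfold ff Fl
  split_ifs with h
  · rfl
  · rw [Complex.re_ofReal_mul]

theorem ff_contDiff : ContDiff ℝ ∞ ff := by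
  rw [ff_eq, contDiff_infty]
  intro n
  exact Complex.reCLM.contDiff.comp (flat_contDiff n gg S_gg)

theorem re_flat {g : ℂ → ℂ} (h : S g) :
    HasFDerivAt (fun z => (Fl g z).re) (0 : ℂ →L[ℝ] ℝ) 0 := by
  have h1 := (Complex.reCLM.hasFDerivAt (x := Fl g 0)).comp (0 : ℂ) (flat_zero h)
  refine h1.congr_fderiv ?_
  simp

theorem fderiv_two_zero : fderiv ℝ (fderiv ℝ ff) 0 = 0 := by
  obtain ⟨g1, g2, h1, h2, h3⟩ := flat_deriv S_gg
  have he : fderiv ℝ ff = fun z => (Fl g1 z).re • Complex.reCLM + (Fl g2 z).re • Complex.imCLM := by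
    funext z
    rw [ff_eq]
    have h4 := (Complex.reCLM.hasFDerivAt (x := Fl gg z)).comp z (h3 z)
    refine (h4.congr_fderiv ?_).fderiv
    ext w <;> simp [L]
  rw [he]
  have h5 : HasFDerivAt
      (fun z => (Fl g1 z).re • Complex.reCLM + (Fl g2 z).re • Complex.imCLM) _ (0 : ℂ) :=
    ((re_flat h1).smul_const Complex.reCLM).add ((re_flat h2).smul_const Complex.imCLM)
  rw [h5.fderiv]
  ext w v <;> simp

theorem QQ_ff_zero : QQ ff 0 = 0 := by
  unfold QQ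
  simp only [iteratedFDeriv_two_apply, fderiv_two_zero]
  simp

end Pool.Agent.TH521.LW2889
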