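import Mathlib
set_option autoImplicit false

/-!
Degree of functions with values in `ZMod 2` on an abelian group, through iterated differences;
support bound on `Fin n → ZMod 2`; a greedy lemma: a function of low degree which is constant on the
subset sums of a list of vectors stays constant on many translates.
-/

namespace TH521.AlgDeg

/-- `f` has degree at most `d`: all differences of order `d + 1` vanish. -/
def DegLE {V : Type} [AddCommGroup V] : ℕ → (V → ZMod 2) → Prop
  | 0, f => ∀ x h, f (x + h) = f x
  | d + 1, f => ∀ h, DegLE d (fun x => f (x + h) - f x)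

section
variable {V W : Type} [AddCommGroup V] [AddCommGroup W]

theorem degLE_zero_iff (f : V → ZMod 2) : DegLE 0 f ↔ ∀ x h, f (x + h) = f x := Iff.rfl

theorem degLE_succ_iff (d : ℕ) (f : V → ZMod 2) :
    DegLE (d + 1) f ↔ ∀ h, DegLE d (fun x => f (x + h) - f x) := Iff.rfl

theorem DegLE.const (d : ℕ) (c : ZMod 2) : DegLE d (fun _ : V => c) := by
  induction d generalizing c with
  | zero => intro x h; rfl
  | succ d ih =>
    intro h
    simpa using ih 0

theorem DegLE.eq_zero_const {f : V → ZMod 2} (hf : DegLE 0 f) : f = fun _ => f 0 := by
  funext x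
  have := hf 0 x
  rwa [zero_add] at this

theorem DegLE.succ {d : ℕ} {f : V → ZMod 2} (hf : DegLE d f) : DegLE (d + 1) f := by
  induction d generalizing f with
  | zero =>
    intro h
    have : (fun x => f (x + h) - f x) = fun _ => 0 := by
      funext x; rw [hf x h, sub_self]
    rw [this]; exact DegLE.const 0 0
  | succ d ih =>
    intro h
    exact ih (hf h)

theorem DegLE.mono {d e : ℕ} {f : V → ZMod 2} (hde : d ≤ e) (hf : DegLE d f) : DegLE e f := by
  induction hde with
  | refl => exact hf
  | step _ ih => exact ih.succ

theorem DegLE.add {d : ℕ} {f g : V → ZMod 2} (hf : DegLE d f) (hg : DegLE d g) :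
    DegLE d (fun x => f x + g x) := by
  induction d generalizing f g with
  | zero => intro x h; simp only [hf x h, hg x h]
  | succ d ih =>
    intro h
    have := ih (hf h) (hg h)
    convert this using 2
    ring

theorem DegLE.shift {d : ℕ} {f : V → ZMod 2} (hf : DegLE d f) (a : V) :
    DegLE d (fun x => f (x + a)) := by
  induction d generalizing f with
  | zero =>
    intro x h
    show f (x + h + a) = f (x + a)
    rw [add_right_comm]; exact hf (x + a) h
  | succ d ih =>
    intro h
    have := ih (hf h)
    convert this using 2
    simp only [add_right_comm]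

theorem DegLE.constMul {d : ℕ} {f : V → ZMod 2} (hf : DegLE d f) (c : ZMod 2) :
    DegLE d (fun x => c * f x) := by
  induction d generalizing f with
  | zero => intro x h; simp only [hf x h]
  | succ d ih =>
    intro h
    have := ih (hf h)
    convert this using 2
    ring

theorem DegLE.mul {d e : ℕ} {f g : V → ZMod 2} (hf : DegLE d f) (hg : DegLE e g) :
    DegLE (d + e) (fun x => f x * g x) := by
  induction hn : d + e using Nat.strong_induction_on generalizing d e f g with
  | _ n ih =>
    subst hn
    rcases d with _ | d
    · rw [hf.eq_zero_const]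
      rw [Nat.zero_add]
      exact hg.constMul _
    · rcases e with _ | e
      · rw [hg.eq_zero_const]
        have := hf.constMul (g 0)
        simp only [Nat.add_zero]
        convert this using 2
        ring
      · have h1 : d + 1 + (e + 1) = (d + e + 1) + 1 := by ring
        rw [h1]
        intro h
        have ha := ih (d + (e + 1)) (by omega) (hf h) (hg.shift h) rfl
        have hb := ih (d + 1 + e) (by omega) hf (hg h) rfl
        have h2 : d + (e + 1) = d + e + 1 := by ring
        have h3 : d + 1 + e = d + e + 1 := by ring
        rw [h2] at ha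
        rw [h3] at hb
        have := ha.add hb
        convert this using 2
        ring

theorem DegLE.prod {ι : Type} (S : Finset ι) {d : ι → ℕ} {f : ι → V → ZMod 2}
    (hf : ∀ i ∈ S, DegLE (d i) (f i)) : DegLE (∑ i ∈ S, d i) (fun x => ∏ i ∈ S, f i x) := by
  classical
  induction S using Finset.induction_on with
  | empty => simpa using DegLE.const (V := V) 0 1
  | insert a S ha ih =>
    rw [Finset.sum_insert ha]
    simp only [Finset.prod_insert ha]
    exact (hf a (Finset.mem_insert_self _ _)).mul (ih fun i hi => hf i (Finset.mem_insert_of_mem hi))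

theorem DegLE.sum {ι : Type} (S : Finset ι) {d : ℕ} {f : ι → V → ZMod 2}
    (hf : ∀ i ∈ S, DegLE d (f i)) : DegLE d (fun x => ∑ i ∈ S, f i x) := by
  classical
  induction S using Finset.induction_on with
  | empty => simpa using DegLE.const (V := V) d 0
  | insert a S ha ih =>
    simp only [Finset.sum_insert ha]
    exact (hf a (Finset.mem_insert_self _ _)).add (ih fun i hi => hf i (Finset.mem_insert_of_mem hi))

theorem DegLE.pow {d : ℕ} {f : V → ZMod 2} (hf : DegLE d f) (m : ℕ) :
    DegLE (m * d) (fun x => f x ^ m) := by
  induction m with
  | zero => simpa using DegLE.const (V := V) 0 1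
  | succ m ih =>
    have := ih.mul hf
    rw [Nat.succ_mul]
    convert this using 2
    ring

theorem DegLE.comp {d : ℕ} {f : V → ZMod 2} (hf : DegLE d f) (φ ψ : W → V)
    (h : ∀ x y, φ (x + y) = φ x + ψ y) : DegLE d (fun x => f (φ x)) := by
  induction d generalizing f with
  | zero => intro x y; simp only [h, hf (φ x) (ψ y)]
  | succ d ih =>
    intro y
    have := ih (hf (ψ y))
    convert this using 2
    simp only [h]

end

/-- polynomials of total degree at most `d` have degree at most `d` as functions -/
theorem degLE_eval {ι : Type} [Fintype ι] (P : MvPolynomial ι (ZMod 2)) (d : ℕ)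
    (hP : P.totalDegree ≤ d) : DegLE d (fun x : ι → ZMod 2 => MvPolynomial.eval x P) := by
  classical
  simp only [MvPolynomial.eval_eq]
  refine DegLE.sum _ fun m hm => ?_
  refine DegLE.constMul ?_ _
  have h1 : DegLE (∑ i ∈ m.support, m i * 1) (fun x : ι → ZMod 2 => ∏ i ∈ m.support, x i ^ m i) := by
    refine DegLE.prod _ fun i _ => ?_
    refine DegLE.pow ?_ _
    intro h
    have : (fun x : ι → ZMod 2 => (x + h) i - x i) = fun _ => h i := by
      funext x; simp
    rw [this]
    exact DegLE.const 0 _
  refine h1.mono ?_
  have h2 := MvPolynomial.le_totalDegree hm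
  refine le_trans ?_ (h2.trans hP)
  simp [Finsupp.sum]

theorem zmod2_ne_zero {x : ZMod 2} (h : x ≠ 0) : x = 1 := by
  revert x; decide

/-- The support of a nonzero function of degree at most `d` on `F_2^n` has at least `2^(n-d)`
elements. -/
theorem support_bound (n : ℕ) : ∀ (d : ℕ) (f : (Fin n → ZMod 2) → ZMod 2), DegLE d f →
    (∃ x, f x ≠ 0) → 2 ^ n ≤ 2 ^ d * (Finset.univ.filter (fun x => f x ≠ 0)).card := by
  classical
  induction n with
  | zero =>
    intro d f _ ⟨x, hx⟩
    have h1 : 0 < (Finset.univ.filter (fun x => f x ≠ 0)).card :=
      Finset.card_pos.2 ⟨x, Finset.mem_filter.2 ⟨Finset.mem_univ _, hx⟩⟩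
    calc 2 ^ 0 = 1 := rfl
      _ ≤ 2 ^ d * (Finset.univ.filter (fun x => f x ≠ 0)).card :=
        Nat.one_le_iff_ne_zero.2 (Nat.mul_ne_zero (by positivity) h1.ne')
  | succ n ih =>
    intro d f hf ⟨x, hx⟩
    -- the two halves
    set g : ZMod 2 → (Fin n → ZMod 2) → ZMod 2 := fun a y => f (Fin.cons a y) with hg
    have hgdeg : ∀ a, DegLE d (g a) := by
      intro a
      refine hf.comp (fun y => (Fin.cons a y : Fin (n + 1) → ZMod 2))
        (fun y => (Fin.cons 0 y : Fin (n + 1) → ZMod 2)) ?_
      intro x y
      funext i
      refine Fin.cases ?_ (fun i => ?_) i <;> simp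
    have hcard : (Finset.univ.filter (fun x => f x ≠ 0)).card =
        (Finset.univ.filter (fun y => g 0 y ≠ 0)).card +
        (Finset.univ.filter (fun y => g 1 y ≠ 0)).card := by
      have h1 : (Finset.univ.filter (fun x => f x ≠ 0)) =
          ((Finset.univ.filter (fun y => g 0 y ≠ 0)).image
            (fun y => (Fin.cons 0 y : Fin (n + 1) → ZMod 2))) ∪
          ((Finset.univ.filter (fun y => g 1 y ≠ 0)).image
            (fun y => (Fin.cons 1 y : Fin (n + 1) → ZMod 2))) := by
        ext z
        simp only [Finset.mem_filter, Finset.mem_univ, true_and, Finset.mem_union,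
          Finset.mem_image]
        constructor
        · intro hz
          have e0 : (Fin.cons (z 0) (Fin.tail z) : Fin (n + 1) → ZMod 2) = z :=
            Fin.cons_self_tail z
          by_cases h0 : z 0 = 0
          · left
            rw [h0] at e0
            refine ⟨Fin.tail z, ?_, e0⟩
            simp only [hg]; rw [e0]; exact hz
          · right
            have h1 := zmod2_ne_zero h0
            rw [h1] at e0
            refine ⟨Fin.tail z, ?_, e0⟩
            simp only [hg]; rw [e0]; exact hz
        · rintro (⟨y, hy, rfl⟩ | ⟨y, hy, rfl⟩) <;> exact hy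
      rw [h1, Finset.card_union_of_disjoint, Finset.card_image_of_injective,
        Finset.card_image_of_injective]
      · exact fun a b h => Fin.cons_right_injective (α := fun _ => ZMod 2) _ h
      · exact fun a b h => Fin.cons_right_injective (α := fun _ => ZMod 2) _ h
      · rw [Finset.disjoint_left]
        intro z hz1 hz2
        obtain ⟨y, _, rfl⟩ := Finset.mem_image.1 hz1
        obtain ⟨y', _, h⟩ := Finset.mem_image.1 hz2
        have := congrFun h 0
        simp at this
    -- the difference
    rcases d with _ | d
    · -- constant
      have h0 : ∀ y, f y ≠ 0 := by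
        intro y
        have h1 := hf.eq_zero_const
        rw [h1] at hx ⊢
        exact hx
      have : Finset.univ.filter (fun x => f x ≠ 0) = Finset.univ := by
        ext y; simp [h0 y]
      rw [this, Finset.card_univ]
      simp
    · have hdiff : DegLE d (fun y => g 1 y - g 0 y) := by
        have h1 := hf (Fin.cons 1 0)
        have h2 := h1.comp (fun y => (Fin.cons 0 y : Fin (n + 1) → ZMod 2))
          (fun y => (Fin.cons 0 y : Fin (n + 1) → ZMod 2)) (by
            intro x y
            funext i
            refine Fin.cases ?_ (fun i => ?_) i <;> simp)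
        convert h2 using 2
        rename_i y
        simp only [hg]
        congr 2
        funext i
        refine Fin.cases ?_ (fun i => ?_) i <;> simp
      by_cases hz0 : ∃ y, g 0 y ≠ 0
      · by_cases hz1 : ∃ y, g 1 y ≠ 0
        · have h0 := ih (d + 1) (g 0) (hgdeg 0) hz0
          have h1 := ih (d + 1) (g 1) (hgdeg 1) hz1
          rw [hcard, pow_succ, Nat.mul_add]
          omega
        · push Not at hz1
          have h2 : (fun y => g 1 y - g 0 y) = g 0 := by
            funext y
            rw [hz1 y]
            have : ∀ a : ZMod 2, 0 - a = a := by decide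
            exact this _
          rw [h2] at hdiff
          have h0 := ih d (g 0) hdiff hz0
          rw [hcard, pow_succ, pow_succ, Nat.mul_add]
          have : 2 ^ d * 2 * (Finset.univ.filter (fun y => g 0 y ≠ 0)).card =
            2 ^ d * (Finset.univ.filter (fun y => g 0 y ≠ 0)).card * 2 := by ring
          rw [this]
          have := Nat.mul_le_mul_right 2 h0
          omega
      · push Not at hz0
        have hz1 : ∃ y, g 1 y ≠ 0 := by
          by_contra hcon
          push Not at hcon
          apply hx
          have e0 : (Fin.cons (x 0) (Fin.tail x) : Fin (n + 1) → ZMod 2) = x :=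
            Fin.cons_self_tail x
          by_cases h0 : x 0 = 0
          · have := hz0 (Fin.tail x)
            simp only [hg] at this
            rw [h0] at e0
            rwa [e0] at this
          · have h1 := zmod2_ne_zero h0
            have := hcon (Fin.tail x)
            simp only [hg] at this
            rw [h1] at e0
            rwa [e0] at this
        have h2 : (fun y => g 1 y - g 0 y) = g 1 := by
          funext y
          rw [hz0 y, sub_zero]
        rw [h2] at hdiff
        have h0 := ih d (g 1) hdiff hz1
        rw [hcard, pow_succ, pow_succ, Nat.mul_add]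
        have : 2 ^ d * 2 * (Finset.univ.filter (fun y => g 1 y ≠ 0)).card =
          2 ^ d * (Finset.univ.filter (fun y => g 1 y ≠ 0)).card * 2 := by ring
        rw [this]
        have := Nat.mul_le_mul_right 2 h0
        omega

end TH521.AlgDeg
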