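import Pool.Agent.TH521.AlgDeg1
set_option autoImplicit false

/-! Subset sums, indicator functions of low degree, the greedy construction of a subspace `U` such
that all given functions of low degree are constant on `U × U`. -/

namespace TH521.AlgDeg

open Classical in
/-- subset sums of a list -/
noncomputable def SS {V : Type} [AddCommGroup V] : List V → Finset V
  | [] => {0}
  | h :: L => SS L ∪ (SS L).image (fun u => u + h)

/-- the degree of the indicator: `∑_{i<D} C(m,i) (D-i)` -/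
def Nm : ℕ → ℕ → ℕ
  | 0, D => D
  | _ + 1, 0 => 0
  | m + 1, D + 1 => Nm m (D + 1) + Nm m D

theorem Nm_zero (m : ℕ) : Nm m 0 = 0 := by cases m <;> rfl

theorem Nm_eq (m : ℕ) : ∀ D : ℕ, Nm m D = ∑ i ∈ Finset.range D, m.choose i * (D - i) := by
  induction m with
  | zero =>
    intro D
    rcases D with _ | D
    · simp [Nm]
    · rw [Finset.sum_range_succ']
      simp [Nm]
  | succ m ih =>
    intro D
    rcases D with _ | D
    · simp [Nm]
    · rw [Nm, ih, ih]
      rw [Finset.sum_range_succ' _ D, Finset.sum_range_succ' _ D]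
      simp only [Nat.choose_zero_right, one_mul]
      have : ∀ i ∈ Finset.range D, (m + 1).choose (i + 1) * (D + 1 - (i + 1)) =
          m.choose (i + 1) * (D + 1 - (i + 1)) + m.choose i * (D - i) := by
        intro i _
        rw [Nat.choose_succ_succ]
        have : D + 1 - (i + 1) = D - i := by omega
        rw [this]
        ring
      rw [Finset.sum_congr rfl this, Finset.sum_add_distrib]
      ring

theorem Nm_succ_le (m D : ℕ) : Nm m D ≤ Nm (m + 1) D := by
  rcases D with _ | D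
  · rw [Nm_zero]; exact Nat.zero_le _
  · rw [Nm]; exact Nat.le_add_right _ _

theorem Nm_mono {m m' : ℕ} (h : m ≤ m') (D : ℕ) : Nm m D ≤ Nm m' D := by
  induction h with
  | refl => exact le_rfl
  | step _ ih => exact ih.trans (Nm_succ_le _ _)

section
variable {V : Type} [AddCommGroup V]

theorem mem_SS_nil (v : V) : v ∈ SS ([] : List V) ↔ v = 0 := by
  simp [SS]

theorem mem_SS_cons (h : V) (L : List V) (v : V) :
    v ∈ SS (h :: L) ↔ v ∈ SS L ∨ ∃ u ∈ SS L, u + h = v := by
  classical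
  rw [SS, Finset.mem_union, Finset.mem_image]

theorem zero_mem_SS (L : List V) : (0 : V) ∈ SS L := by
  induction L with
  | nil => simp [SS]
  | cons h L ih => rw [mem_SS_cons]; exact Or.inl ih

theorem SS_add (h2 : ∀ v : V, v + v = 0) (L : List V) :
    ∀ u ∈ SS L, ∀ v ∈ SS L, u + v ∈ SS L := by
  induction L with
  | nil =>
    intro u hu v hv
    rw [mem_SS_nil] at hu hv ⊢
    rw [hu, hv, add_zero]
  | cons h L ih =>
    intro u hu v hv
    rw [mem_SS_cons] at hu hv ⊢
    rcases hu with hu | ⟨u', hu, rfl⟩ <;> rcases hv with hv | ⟨v', hv, rfl⟩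
    · exact Or.inl (ih u hu v hv)
    · exact Or.inr ⟨u + v', ih u hu v' hv, by abel⟩
    · exact Or.inr ⟨u' + v, ih u' hu v hv, by abel⟩
    · left
      have : u' + h + (v' + h) = u' + v' := by
        calc u' + h + (v' + h) = u' + v' + (h + h) := by abel
          _ = u' + v' := by rw [h2, add_zero]
      rw [this]
      exact ih u' hu v' hv

theorem SS_card_le (L : List V) : (SS L).card ≤ 2 ^ L.length := by
  classical
  induction L with
  | nil => simp [SS]
  | cons h L ih =>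
    rw [SS, List.length_cons, pow_succ]
    refine (Finset.card_union_le _ _).trans ?_
    have := Finset.card_image_le (s := SS L) (f := fun u => u + h)
    omega

theorem SS_card_cons (h2 : ∀ v : V, v + v = 0) (L : List V) (w : V) (hw : w ∉ SS L) :
    (SS (w :: L)).card = 2 * (SS L).card := by
  classical
  rw [SS, Finset.card_union_of_disjoint, Finset.card_image_of_injective]
  · ring
  · intro a b hab
    exact add_right_cancel hab
  · rw [Finset.disjoint_left]
    intro a ha hb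
    obtain ⟨u, hu, rfl⟩ := Finset.mem_image.1 hb
    apply hw
    have := SS_add h2 L u hu (u + w) ha
    have h3 : u + (u + w) = w := by rw [← add_assoc, h2, zero_add]
    rwa [h3] at this

/-- the indicator lemma -/
theorem key (L : List V) : ∀ (D : ℕ) (P : V → ZMod 2) (c : ZMod 2), DegLE D P →
    (∀ u ∈ SS L, P u = c) →
    ∃ I : V → ZMod 2, DegLE (Nm L.length D) I ∧ I 0 ≠ 0 ∧
      ∀ w, I w ≠ 0 → ∀ u ∈ SS L, P (w + u) = c := by
  induction L with
  | nil =>
    intro D P c hP hc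
    refine ⟨fun w => P w + (c + 1), ?_, ?_, ?_⟩
    · exact hP.add (DegLE.const D _)
    · have h0 := hc 0 (zero_mem_SS _)
      show P 0 + (c + 1) ≠ 0
      rw [h0]
      have : ∀ a : ZMod 2, a + (a + 1) ≠ 0 := by decide
      exact this c
    · intro w hw u hu
      rw [mem_SS_nil] at hu
      rw [hu, add_zero]
      have : ∀ a b : ZMod 2, a + (b + 1) ≠ 0 → a = b := by decide
      exact this _ _ hw
  | cons h L ih =>
    intro D P c hP hc
    rcases D with _ | D
    · refine ⟨fun _ => 1, ?_, one_ne_zero, ?_⟩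
      · exact DegLE.const _ _
      · intro w _ u _
        have h1 := hP.eq_zero_const
        rw [h1]
        exact hc 0 (zero_mem_SS _)
    · have hc1 : ∀ u ∈ SS L, P u = c := fun u hu => hc u ((mem_SS_cons _ _ _).2 (Or.inl hu))
      have hc2 : ∀ u ∈ SS L, P (u + h) - P u = 0 := by
        intro u hu
        rw [hc1 u hu, hc (u + h) ((mem_SS_cons _ _ _).2 (Or.inr ⟨u, hu, rfl⟩)), sub_self]
      obtain ⟨I1, hd1, hz1, hI1⟩ := ih (D + 1) P c hP hc1
      obtain ⟨I2, hd2, hz2, hI2⟩ := ih D (fun x => P (x + h) - P x) 0 (hP h) hc2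
      refine ⟨fun w => I1 w * I2 w, ?_, mul_ne_zero hz1 hz2, ?_⟩
      · rw [List.length_cons, Nm]
        exact hd1.mul hd2
      · intro w hw u hu
        have hw1 : I1 w ≠ 0 := left_ne_zero_of_mul hw
        have hw2 : I2 w ≠ 0 := right_ne_zero_of_mul hw
        rw [mem_SS_cons] at hu
        rcases hu with hu | ⟨u', hu', rfl⟩
        · exact hI1 w hw1 u hu
        · have ha := hI1 w hw1 u' hu'
          have hb := hI2 w hw2 u' hu'
          rw [← add_assoc]
          have := sub_eq_zero.1 hb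
          rw [this, ha]

/-- the list of the vectors `(w,0)`, `(0,w)` -/
def L2 : List V → List (V × V)
  | [] => []
  | w :: l => (w, 0) :: (0, w) :: L2 l

theorem L2_length (l : List V) : (L2 l).length = 2 * l.length := by
  induction l with
  | nil => rfl
  | cons w l ih => simp only [L2, List.length_cons, ih]; ring

theorem mem_SS_L2 (l : List V) : ∀ p : V × V, p ∈ SS (L2 l) ↔ p.1 ∈ SS l ∧ p.2 ∈ SS l := by
  induction l with
  | nil =>
    rintro ⟨a, b⟩
    simp only [L2, mem_SS_nil, Prod.ext_iff]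
    rfl
  | cons w l ih =>
    rintro ⟨a, b⟩
    simp only [L2, mem_SS_cons, ih]
    constructor
    · rintro ((⟨ha, hb⟩ | ⟨⟨a', b'⟩, ⟨ha, hb⟩, h⟩) | ⟨⟨a', b'⟩, (⟨ha, hb⟩ | ⟨⟨a'', b''⟩, ⟨ha, hb⟩, h'⟩), h⟩)
      · exact ⟨Or.inl ha, Or.inl hb⟩
      · simp only [Prod.mk_add_mk, Prod.mk.injEq, add_zero] at h ha hb
        exact ⟨Or.inl (h.1 ▸ ha), Or.inr ⟨b', hb, h.2⟩⟩
      · simp only [Prod.mk_add_mk, Prod.mk.injEq, add_zero] at h ha hb
        exact ⟨Or.inr ⟨a', ha, h.1⟩, Or.inl (h.2 ▸ hb)⟩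
      · simp only [Prod.mk_add_mk, Prod.mk.injEq, add_zero] at h h' ha hb
        obtain ⟨h1, h2⟩ := h
        obtain ⟨h3, h4⟩ := h'
        subst h2 h3
        exact ⟨Or.inr ⟨a'', ha, h1⟩, Or.inr ⟨b'', hb, h4⟩⟩
    · rintro ⟨ha | ⟨a', ha, rfl⟩, hb | ⟨b', hb, rfl⟩⟩
      · exact Or.inl (Or.inl ⟨ha, hb⟩)
      · exact Or.inl (Or.inr ⟨(a, b'), ⟨ha, hb⟩, by simp⟩)
      · exact Or.inr ⟨(a', b), Or.inl ⟨ha, hb⟩, by simp⟩
      · exact Or.inr ⟨(a', b' + w), Or.inr ⟨(a', b'), ⟨ha, hb⟩, by simp⟩, by simp⟩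

end

theorem char_two {n : ℕ} (v : Fin n → ZMod 2) : v + v = 0 := by
  funext i
  have : ∀ a : ZMod 2, a + a = 0 := by decide
  exact this _

/-- one step of the greedy construction -/
theorem step (n s D : ℕ) (P : Fin s → (Fin n → ZMod 2) × (Fin n → ZMod 2) → ZMod 2)
    (hP : ∀ j, DegLE D (P j)) (l : List (Fin n → ZMod 2)) (c : Fin s → ZMod 2)
    (hc : ∀ j, ∀ u ∈ SS l, ∀ v ∈ SS l, P j (u, v) = c j)
    (hn : l.length + 3 * s * Nm (2 * l.length) D < n) :
    ∃ w, w ∉ SS l ∧ ∀ j, ∀ u ∈ SS (w :: l), ∀ v ∈ SS (w :: l), P j (u, v) = c j := by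
  classical
  have hkey : ∀ j, ∃ I : (Fin n → ZMod 2) × (Fin n → ZMod 2) → ZMod 2,
      DegLE (Nm (2 * l.length) D) I ∧ I 0 ≠ 0 ∧
      ∀ w, I w ≠ 0 → ∀ u ∈ SS (L2 l), P j (w + u) = c j := by
    intro j
    have := key (L2 l) D (P j) (c j) (hP j) (by
      rintro ⟨u, v⟩ huv
      obtain ⟨hu, hv⟩ := (mem_SS_L2 l _).1 huv
      exact hc j u hu v hv)
    rwa [L2_length] at this
  choose I hId hI0 hI using hkey
  set N := Nm (2 * l.length) D with hN
  let J : (Fin n → ZMod 2) → ZMod 2 := fun w =>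
    ∏ j : Fin s, (I j (w, 0) * I j (0, w) * I j (w, w))
  have hJd : DegLE (3 * s * N) J := by
    have h1 : DegLE (∑ _j : Fin s, (N + N + N)) J := by
      refine DegLE.prod _ fun j _ => ?_
      refine ((?_ : DegLE _ _).mul ?_).mul ?_
      · exact (hId j).comp (fun w => (w, 0)) (fun w => (w, 0)) (by intro x y; simp)
      · exact (hId j).comp (fun w => (0, w)) (fun w => (0, w)) (by intro x y; simp)
      · exact (hId j).comp (fun w => (w, w)) (fun w => (w, w)) (by intro x y; simp)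
    have h2 : ∑ _j : Fin s, (N + N + N) = 3 * s * N := by
      rw [Finset.sum_const, Finset.card_univ, Fintype.card_fin, smul_eq_mul]; ring
    rwa [h2] at h1
  have hJ0 : J 0 ≠ 0 := by
    refine Finset.prod_ne_zero_iff.2 fun j _ => ?_
    exact mul_ne_zero (mul_ne_zero (hI0 j) (hI0 j)) (hI0 j)
  have hsupp := support_bound n _ J hJd ⟨0, hJ0⟩
  obtain ⟨w, hw, hwS⟩ : ∃ w, J w ≠ 0 ∧ w ∉ SS l := by
    by_contra hcon
    push Not at hcon
    have hsub : Finset.univ.filter (fun x => J x ≠ 0) ⊆ SS l := by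
      intro x hx
      exact hcon x (Finset.mem_filter.1 hx).2
    have h1 := (Finset.card_le_card hsub).trans (SS_card_le l)
    have h2 : 2 ^ n ≤ 2 ^ (3 * s * N) * 2 ^ l.length :=
      hsupp.trans (Nat.mul_le_mul_left _ h1)
    rw [← pow_add] at h2
    have h3 := (Nat.pow_le_pow_iff_right (by norm_num : 1 < 2)).1 h2
    omega
  refine ⟨w, hwS, ?_⟩
  have hw' : ∀ j, I j (w, 0) ≠ 0 ∧ I j (0, w) ≠ 0 ∧ I j (w, w) ≠ 0 := by
    intro j
    have := Finset.prod_ne_zero_iff.1 hw j (Finset.mem_univ _)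
    exact ⟨left_ne_zero_of_mul (left_ne_zero_of_mul this),
      right_ne_zero_of_mul (left_ne_zero_of_mul this), right_ne_zero_of_mul this⟩
  intro j u hu v hv
  obtain ⟨h10, h01, h11⟩ := hw' j
  rw [mem_SS_cons] at hu hv
  rcases hu with hu | ⟨u', hu, rfl⟩ <;> rcases hv with hv | ⟨v', hv, rfl⟩
  · exact hc j u hu v hv
  · have := hI j (0, w) h01 (u, v') ((mem_SS_L2 l _).2 ⟨hu, hv⟩)
    simpa [add_comm] using this
  · have := hI j (w, 0) h10 (u', v) ((mem_SS_L2 l _).2 ⟨hu, hv⟩)
    simpa [add_comm] using this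
  · have := hI j (w, w) h11 (u', v') ((mem_SS_L2 l _).2 ⟨hu, hv⟩)
    simpa [add_comm] using this

/-- the greedy construction -/
theorem greedy (n s D : ℕ) (P : Fin s → (Fin n → ZMod 2) × (Fin n → ZMod 2) → ZMod 2)
    (hP : ∀ j, DegLE D (P j)) (t : ℕ)
    (hn : t = 0 ∨ t + 3 * s * Nm (2 * t - 2) D ≤ n) :
    ∃ l : List (Fin n → ZMod 2), l.length = t ∧ (SS l).card = 2 ^ t ∧
      ∀ j, ∀ u ∈ SS l, ∀ v ∈ SS l, P j (u, v) = P j (0, 0) := by
  induction t with
  | zero =>
    refine ⟨[], rfl, by simp [SS], ?_⟩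
    intro j u hu v hv
    rw [mem_SS_nil] at hu hv
    rw [hu, hv]
  | succ t ih =>
    have hn' : t + 1 + 3 * s * Nm (2 * (t + 1) - 2) D ≤ n := by
      rcases hn with hn | hn
      · omega
      · exact hn
    have e : 2 * (t + 1) - 2 = 2 * t := by omega
    rw [e] at hn'
    have hmono : Nm (2 * t - 2) D ≤ Nm (2 * t) D := Nm_mono (by omega) D
    obtain ⟨l, hl, hcard, hc⟩ := ih (Or.inr (by
      have := Nat.mul_le_mul_left (3 * s) hmono
      omega))
    obtain ⟨w, hw, hc'⟩ := step n s D P hP l (fun j => P j (0, 0)) hc (by rw [hl]; omega)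
    refine ⟨w :: l, by rw [List.length_cons, hl], ?_, hc'⟩
    rw [SS_card_cons char_two l w hw, hcard, pow_succ]
    ring

end TH521.AlgDeg
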