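import Pool.Agent.TH521.AlgDeg3
import Pool.Agent.H161R3.Lower
set_option autoImplicit false

/-! Counting: a symmetric polynomial of degree at most `2 * d` in two blocks of `n` variables
whose graph has no homogeneous set of size `k`. -/

namespace TH521.AlgDeg

open MvPolynomial Finset

/-- symmetric functions of two blocks given by polynomials of degree at most `D` -/
def symPoly (n D : ℕ) : Submodule (ZMod 2) ((Fin n ⊕ Fin n → ZMod 2) → ZMod 2) where
  carrier := {F | (∃ P : MvPolynomial (Fin n ⊕ Fin n) (ZMod 2), P.totalDegree ≤ D ∧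
    ∀ x, F x = eval x P) ∧ ∀ u v, F (Sum.elim u v) = F (Sum.elim v u)}
  add_mem' := by
    rintro F G ⟨⟨P, hP, hP2⟩, hF⟩ ⟨⟨Q, hQ, hQ2⟩, hG⟩
    exact ⟨⟨P + Q, (totalDegree_add _ _).trans (max_le hP hQ), fun x => by
      rw [Pi.add_apply, hP2, hQ2, map_add]⟩, fun u v => by
      rw [Pi.add_apply, Pi.add_apply, hF, hG]⟩
  zero_mem' := ⟨⟨0, by simp, fun x => by simp⟩, fun u v => rfl⟩
  smul_mem' := by
    rintro c F ⟨⟨P, hP, hP2⟩, hF⟩
    exact ⟨⟨C c * P, (totalDegree_mul _ _).trans (by rw [totalDegree_C, zero_add]; exact hP),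
      fun x => by rw [Pi.smul_apply, hP2, map_mul, eval_C, smul_eq_mul]⟩, fun u v => by
      rw [Pi.smul_apply, Pi.smul_apply, hF]⟩

/-- the increasing pairs of a set of vertices -/
def incr {N : ℕ} (K : Finset (Fin N)) : Finset (Fin N × Fin N) :=
  (K ×ˢ K).filter (fun p => p.1 < p.2)

theorem mem_incr {N : ℕ} (K : Finset (Fin N)) (p : Fin N × Fin N) :
    p ∈ incr K ↔ (p.1 ∈ K ∧ p.2 ∈ K) ∧ p.1 < p.2 := by
  rw [incr, mem_filter, mem_product]

theorem card_incr {N : ℕ} (K : Finset (Fin N)) : 2 * (incr K).card + K.card = K.card * K.card := by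
  classical
  have h1 : (K ×ˢ K).card = (incr K).card + ((incr K).map (Equiv.prodComm _ _).toEmbedding).card +
      K.diag.card := by
    have hdis1 : Disjoint (incr K) ((incr K).map (Equiv.prodComm _ _).toEmbedding) := by
      rw [disjoint_left]
      rintro ⟨a, b⟩ h1 h2
      rw [mem_map] at h2
      obtain ⟨⟨c, d⟩, h2, h3⟩ := h2
      simp only [Equiv.coe_toEmbedding, Equiv.prodComm_apply, Prod.swap_prod_mk,
        Prod.mk.injEq] at h3
      obtain ⟨rfl, rfl⟩ := h3
      rw [mem_incr] at h1 h2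
      exact absurd h1.2 (not_lt.2 h2.2.le)
    have hdis2 : Disjoint (incr K ∪ (incr K).map (Equiv.prodComm _ _).toEmbedding) K.diag := by
      rw [disjoint_left]
      rintro ⟨a, b⟩ h1 h2
      rw [mem_diag] at h2
      have hab : a = b := h2.2
      subst hab
      rcases mem_union.1 h1 with h1 | h1
      · have h5 : a < a := ((mem_incr K (a, a)).1 h1).2
        exact lt_irrefl _ h5
      · rw [mem_map] at h1
        obtain ⟨⟨c, d⟩, h7, h3⟩ := h1
        simp only [Equiv.coe_toEmbedding, Equiv.prodComm_apply, Prod.swap_prod_mk,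
          Prod.mk.injEq] at h3
        obtain ⟨h31, h32⟩ := h3
        subst h31
        subst h32
        have h5 := ((mem_incr K _).1 h7).2
        exact lt_irrefl _ h5
    rw [← card_union_of_disjoint hdis1, ← card_union_of_disjoint hdis2]
    congr 1
    ext ⟨a, b⟩
    simp only [mem_product, mem_union, mem_incr, mem_map, Equiv.coe_toEmbedding,
      Equiv.prodComm_apply, mem_diag, Prod.exists, Prod.swap_prod_mk, Prod.mk.injEq]
    constructor
    · rintro ⟨ha, hb⟩
      rcases lt_trichotomy a b with h | h | h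
      · exact Or.inl (Or.inl ⟨⟨ha, hb⟩, h⟩)
      · exact Or.inr ⟨ha, h⟩
      · exact Or.inl (Or.inr ⟨b, a, ⟨⟨hb, ha⟩, h⟩, rfl, rfl⟩)
    · rintro ((⟨⟨ha, hb⟩, _⟩ | ⟨c, d, ⟨⟨hc, hd⟩, _⟩, rfl, rfl⟩) | ⟨ha, rfl⟩)
      · exact ⟨ha, hb⟩
      · exact ⟨hd, hc⟩
      · exact ⟨ha, ha⟩
  rw [card_product, card_map, diag_card] at h1
  omega

/-- restriction to the increasing pairs of `K` -/
def restr2 {N n : ℕ} (D : ℕ) (b : Fin N → Fin n → ZMod 2) (K : Finset (Fin N)) :
    symPoly n D →ₗ[ZMod 2] ({p // p ∈ incr K} → ZMod 2) where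
  toFun F p := F.1 (Sum.elim (b p.1.1) (b p.1.2))
  map_add' _ _ := rfl
  map_smul' _ _ := rfl

theorem restr2_surj {N n : ℕ} (D d : ℕ) (hd : 2 * d ≤ D) (b : Fin N → Fin n → ZMod 2)
    (hb : Function.Injective b) (K : Finset (Fin N))
    (hK : ∀ g : (Fin n → ZMod 2) → ZMod 2, ∃ f, PolyLT (d + 1) f ∧
      ∀ x ∈ K.image b, f x = g x) :
    Function.Surjective (restr2 D b K) := by
  classical
  have hdelta : ∀ x : Fin N, ∃ P : MvPolynomial (Fin n) (ZMod 2), P.totalDegree ≤ d ∧
      ∀ y ∈ K, eval (b y) P = if y = x then 1 else 0 := by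
    intro x
    obtain ⟨f, ⟨P, hP, hPe⟩, hf⟩ := hK (fun z => if z = b x then 1 else 0)
    refine ⟨P, ?_, ?_⟩
    · rcases hP with rfl | hP
      · simp
      · omega
    · intro y hy
      rw [← hPe, hf _ (mem_image_of_mem _ hy)]
      by_cases h : y = x
      · simp [h]
      · have : b y ≠ b x := fun h' => h (hb h')
        simp [h, this]
  choose P hPd hPe using hdelta
  have hex : ∀ p0 : {p // p ∈ incr K}, ∃ F : symPoly n D, restr2 D b K F = Pi.single p0 1 := by
    rintro ⟨⟨x0, y0⟩, h0⟩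
    have h0' := (mem_incr _ _).1 h0
    have hlt : x0 < y0 := h0'.2
    let Q : MvPolynomial (Fin n ⊕ Fin n) (ZMod 2) :=
      rename Sum.inl (P x0) * rename Sum.inr (P y0) + rename Sum.inl (P y0) * rename Sum.inr (P x0)
    have hQe : ∀ u v : Fin n → ZMod 2, eval (Sum.elim u v) Q =
        eval u (P x0) * eval v (P y0) + eval u (P y0) * eval v (P x0) := by
      intro u v
      simp only [Q, map_add, map_mul, eval_rename, Sum.elim_comp_inl, Sum.elim_comp_inr]
    have hQd : Q.totalDegree ≤ D := by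
      refine (totalDegree_add _ _).trans (max_le ?_ ?_)
      · refine (totalDegree_mul _ _).trans ?_
        have h1 := totalDegree_rename_le (Sum.inl : Fin n → Fin n ⊕ Fin n) (P x0)
        have h2 := totalDegree_rename_le (Sum.inr : Fin n → Fin n ⊕ Fin n) (P y0)
        have h3 := hPd x0
        have h4 := hPd y0
        omega
      · refine (totalDegree_mul _ _).trans ?_
        have h1 := totalDegree_rename_le (Sum.inl : Fin n → Fin n ⊕ Fin n) (P y0)
        have h2 := totalDegree_rename_le (Sum.inr : Fin n → Fin n ⊕ Fin n) (P x0)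
        have h3 := hPd x0
        have h4 := hPd y0
        omega
    refine ⟨⟨fun x => eval x Q, ⟨Q, hQd, fun x => rfl⟩, ?_⟩, ?_⟩
    · intro u v
      simp only [hQe]
      ring
    · funext p
      obtain ⟨⟨x, y⟩, hp⟩ := p
      have hp' := (mem_incr _ _).1 hp
      have hxy : x < y := hp'.2
      show eval (Sum.elim (b x) (b y)) Q = _
      rw [hQe, hPe x0 x hp'.1.1, hPe y0 y hp'.1.2, hPe y0 x hp'.1.1, hPe x0 y hp'.1.2]
      by_cases hpp : x = x0 ∧ y = y0
      · obtain ⟨rfl, rfl⟩ := hpp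
        rw [Pi.single_eq_same]
        have h1 : x ≠ y := hxy.ne
        simp [h1]
      · have hne : (⟨(x, y), hp⟩ : {p // p ∈ incr K}) ≠ ⟨(x0, y0), h0⟩ := by
          intro h
          apply hpp
          have := congrArg Subtype.val h
          simpa using this
        rw [Pi.single_eq_of_ne hne]
        by_cases h1 : x = x0
        · subst h1
          have h2 : y ≠ y0 := fun h => hpp ⟨rfl, h⟩
          have h3 : y ≠ x := hxy.ne'
          simp [h2, h3]
        · by_cases h4 : x = y0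
          · subst h4
            have h5 : y ≠ x0 := by
              rintro rfl
              exact absurd hxy (not_lt.2 hlt.le)
            simp [h1, h5]
          · simp [h1, h4]
  intro y
  choose F hF using hex
  refine ⟨∑ A0, y A0 • F A0, ?_⟩
  rw [map_sum]
  simp only [map_smul, hF]
  funext A
  simp [Finset.sum_apply, Pi.single_apply]

/-- If every `k`-set contains a set `K'` of `k'` vertices on which all functions are given by
polynomials of degree at most `d`, and `2n + 1 ≤ k'`, then some symmetric polynomial of degree at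
most `2 d` defines a graph without homogeneous `k`-sets. -/
theorem lower2 (n k d D : ℕ) (hd : 2 * d ≤ D) (hk : 3 ≤ Gs k (d + 1)) (hn : 2 * n + 1 ≤ Gs k (d + 1))
    (b : Fin (2 ^ n) → Fin n → ZMod 2) (hb : Function.Injective b) :
    ∃ P : MvPolynomial (Fin n ⊕ Fin n) (ZMod 2), P.totalDegree ≤ D ∧
      (∀ u v : Fin n → ZMod 2, eval (Sum.elim u v) P = eval (Sum.elim v u) P) ∧
      ∀ K : Finset (Fin (2 ^ n)), K.card = k → ∀ e : ZMod 2,
        ∃ x ∈ K, ∃ y ∈ K, x ≠ y ∧ eval (Sum.elim (b x) (b y)) P ≠ e := by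
  classical
  by_contra hno
  push Not at hno
  set k' := Gs k (d + 1) with hk'
  have : Fintype (symPoly n D) := Fintype.ofFinite _
  -- good sets
  let good : Finset (Fin (2 ^ n)) → Prop := fun K' => ∀ g : (Fin n → ZMod 2) → ZMod 2,
    ∃ f, PolyLT (d + 1) f ∧ ∀ x ∈ K'.image b, f x = g x
  set 𝒮 := ((univ : Finset (Fin (2 ^ n))).powersetCard k').filter good with h𝒮
  have hgood : ∀ K : Finset (Fin (2 ^ n)), K.card = k → ∃ K' ⊆ K, K' ∈ 𝒮 := by
    intro K hK
    obtain ⟨A, hA, hAc, hAi⟩ := interp n (d + 1) (K.image b)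
    rw [card_image_of_injective _ hb, hK] at hAc
    obtain ⟨B, hB, hBc⟩ := exists_subset_card_eq hAc
    have hsub : B ⊆ K.image b := hB.trans hA
    refine ⟨K.filter (fun x => b x ∈ B), filter_subset _ _, ?_⟩
    have him : (K.filter (fun x => b x ∈ B)).image b = B := by
      ext z
      simp only [mem_image, mem_filter]
      constructor
      · rintro ⟨x, ⟨_, hx⟩, rfl⟩; exact hx
      · intro hz
        obtain ⟨x, hx, rfl⟩ := mem_image.1 (hsub hz)
        exact ⟨x, ⟨hx, hz⟩, rfl⟩
    rw [h𝒮, mem_filter, mem_powersetCard]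
    refine ⟨⟨subset_univ _, ?_⟩, ?_⟩
    · rw [← card_image_of_injective _ hb, him, hBc]
    · show ∀ g : (Fin n → ZMod 2) → ZMod 2, ∃ f, PolyLT (d + 1) f ∧ ∀ x ∈ _, f x = g x
      rw [him]
      intro g
      obtain ⟨f, hf, hf2⟩ := hAi g
      exact ⟨f, hf, fun x hx => hf2 x (hB hx)⟩
  let bad : Finset (Fin (2 ^ n)) → ZMod 2 → Finset (symPoly n D) := fun S e =>
    Finset.univ.filter (fun F => restr2 D b S F = fun _ => e)
  have hinc : ∀ S ∈ 𝒮, n * k' ≤ (incr S).card := by
    intro S hS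
    have hc : S.card = k' := (mem_powersetCard.1 (mem_filter.1 hS).1).2
    have h1 := card_incr S
    rw [hc] at h1
    have h2 : (2 * n + 1) * k' ≤ k' * k' := Nat.mul_le_mul_right _ hn
    have h3 : (2 * n + 1) * k' = 2 * (n * k') + k' := by ring
    omega
  have hbad : ∀ S ∈ 𝒮, ∀ e, 2 ^ (n * k') * (bad S e).card ≤ Fintype.card (symPoly n D) := by
    intro S hS e
    have h1 := Pool.Agent.H161R3.fiber_card (restr2 D b S)
      (restr2_surj D d hd b hb S (mem_filter.1 hS).2) (fun _ => e)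
    rw [Fintype.card_fun, ZMod.card, Fintype.card_coe] at h1
    rw [← h1]
    refine Nat.mul_le_mul_right _ (Nat.pow_le_pow_right (by norm_num) (hinc S hS))
  have hcover : (Finset.univ : Finset (symPoly n D)) ⊆
      𝒮.biUnion (fun S => Finset.univ.biUnion (fun e => bad S e)) := by
    intro F _
    obtain ⟨⟨P, hP, hP2⟩, hP3⟩ := F.2
    obtain ⟨S, hS, e, hSe⟩ := hno P hP (fun u v => by rw [← hP2, ← hP2]; exact hP3 u v)
    obtain ⟨K', hK', hK'S⟩ := hgood S hS
    refine mem_biUnion.2 ⟨K', hK'S, mem_biUnion.2 ⟨e, mem_univ _, mem_filter.2 ⟨mem_univ _, ?_⟩⟩⟩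
    funext p
    obtain ⟨⟨x, y⟩, hp⟩ := p
    have hp' := (mem_incr _ _).1 hp
    change F.1 (Sum.elim (b x) (b y)) = e
    rw [hP2]
    exact hSe x (hK' hp'.1.1) y (hK' hp'.1.2) (ne_of_lt hp'.2)
  have hle := Finset.card_le_card hcover
  rw [Finset.card_univ] at hle
  have hle2 : 2 ^ (n * k') * Fintype.card (symPoly n D) ≤
      𝒮.card * 2 * Fintype.card (symPoly n D) := by
    calc 2 ^ (n * k') * Fintype.card (symPoly n D)
        ≤ 2 ^ (n * k') * ∑ S ∈ 𝒮, ∑ e : ZMod 2, (bad S e).card := by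
          refine Nat.mul_le_mul_left _ (hle.trans ?_)
          refine Finset.card_biUnion_le.trans (Finset.sum_le_sum fun S _ => ?_)
          exact Finset.card_biUnion_le
      _ = ∑ S ∈ 𝒮, ∑ e : ZMod 2, 2 ^ (n * k') * (bad S e).card := by
          rw [Finset.mul_sum]
          refine Finset.sum_congr rfl fun S _ => ?_
          rw [Finset.mul_sum]
      _ ≤ ∑ S ∈ 𝒮, ∑ e : ZMod 2, Fintype.card (symPoly n D) :=
          Finset.sum_le_sum fun S hS => Finset.sum_le_sum fun e _ => hbad S hS e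
      _ = 𝒮.card * 2 * Fintype.card (symPoly n D) := by
          simp [Finset.sum_const, Finset.card_univ, ZMod.card, mul_assoc]
  have hpos : 0 < Fintype.card (symPoly n D) := Fintype.card_pos
  have h6 : 2 ^ (n * k') ≤ 𝒮.card * 2 := Nat.le_of_mul_le_mul_right hle2 hpos
  have h5 : 𝒮.card ≤ (2 ^ n).choose k' := by
    refine (card_le_card (filter_subset _ _)).trans ?_
    rw [card_powersetCard, card_univ, Fintype.card_fin]
  have h7 : k'.factorial * (2 ^ n).choose k' ≤ 2 ^ (n * k') := by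
    rw [← Nat.descFactorial_eq_factorial_mul_choose]
    refine (Nat.descFactorial_le_pow _ _).trans ?_
    rw [← pow_mul]
  have h8 : 6 ≤ k'.factorial := by
    have : Nat.factorial 3 ≤ k'.factorial := Nat.factorial_le hk
    simpa [Nat.factorial] using this
  have h9 : 6 * (2 ^ n).choose k' ≤ 2 ^ (n * k') := (Nat.mul_le_mul_right _ h8).trans h7
  have h10 : 0 < 2 ^ (n * k') := by positivity
  omega

end TH521.AlgDeg
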