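import Mathlib
import Pool.Agent.H523R4.Union

set_option autoImplicit false

/-!
Many representations from an intersection closed family: linear form of
`Pool.Agent.H523R4.BC.main_cube`.
-/

namespace Pool.Agent.TH521.Dig

open Finset Pool.Agent.H523R4.BC

/-- If the elements of `An ⊆ A` are a constant plus the weight of a subset `φ a` of `{0, ..., N-1}`,
if the sets `φ a` are closed under intersections and numerous, then some integer has many
representations as a sum of two elements of `A`. -/
theorem main_lin {A : Set ℕ} (An : Finset ℕ) (hAn : ∀ a ∈ An, a ∈ A) (N t M : ℕ)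
    (hM : ∀ a ∈ An, a < M)
    (φ : ℕ → Finset ℕ) (hφr : ∀ a ∈ An, φ a ⊆ range N) (hφinj : Set.InjOn φ An)
    (hφi : ∀ a ∈ An, ∀ b ∈ An, ∃ c ∈ An, φ c = φ a ∩ φ b)
    (c0 : ℤ) (w : ℕ → ℤ) (hval : ∀ a ∈ An, (a : ℤ) = c0 + ∑ j ∈ φ a, w j)
    (hcard : ∑ k ∈ range (t + 1), N.choose k < An.card) :
    ∃ x < 2 * M, 2 ^ (t ^ 2 / (10 * N)) ≤ rep2 A x := by
  classical
  set n := N with hn
  set G := An.image φ with hG
  have hGc : G.card = An.card := card_image_of_injOn hφinj
  have hGr : ∀ s ∈ G, s ⊆ range n := by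
    intro s hs
    rw [hG, mem_image] at hs
    obtain ⟨a, ha, rfl⟩ := hs
    exact hφr a ha
  have hGi : ∀ s ∈ G, ∀ s' ∈ G, s ∩ s' ∈ G := by
    intro s hs s' hs'
    rw [hG, mem_image] at hs hs' ⊢
    obtain ⟨a, ha, rfl⟩ := hs
    obtain ⟨b, hb, rfl⟩ := hs'
    obtain ⟨c, hc, hcb⟩ := hφi a ha b hb
    exact ⟨c, hc, hcb⟩
  -- a large shattered set
  obtain ⟨T, hT, hTt⟩ : ∃ T, G.Shatters T ∧ t + 1 ≤ T.card := by
    by_contra hcon
    push Not at hcon
    have h1 : G.shatterer ⊆ ((range n).powerset).filter (fun s => s.card ≤ t) := by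
      intro s hs
      rw [mem_shatterer] at hs
      rw [mem_filter, mem_powerset]
      refine ⟨?_, by have := hcon s hs; omega⟩
      obtain ⟨u, hu, hsu⟩ := hs (subset_refl s)
      rw [← hsu]
      exact inter_subset_right.trans (hGr u hu)
    have h2 := (card_le_card_shatterer G).trans ((card_le_card h1).trans (card_small' n t))
    rw [hGc] at h2
    omega
  have hTn : T.card ≤ n := by
    obtain ⟨u, hu, hsu⟩ := hT (subset_refl T)
    have h1 : T ⊆ range n := by
      rw [← hsu]
      exact inter_subset_right.trans (hGr u hu)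
    have := card_le_card h1
    rwa [card_range] at this
  -- parameters
  set τ := T.card with hτ
  have hτ0 : 0 < τ := by omega
  set D := 4 * n / τ with hD
  set m := t ^ 2 / (10 * n) with hm
  have hn0 : 0 < n := by omega
  have hDlt : 4 * n < τ * (D + 1) := Nat.lt_mul_div_succ (4 * n) hτ0
  have hDle : D * τ ≤ 4 * n := Nat.div_mul_le_self (4 * n) τ
  have hmle : m * (10 * n) ≤ t ^ 2 := Nat.div_mul_le_self _ _
  have hkey : 2 * (m * (D + 1)) ≤ t := by
    by_contra hcon
    push Not at hcon
    -- multiply by `5 n τ`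
    have h1 : t * (5 * n * τ) < 2 * (m * (D + 1)) * (5 * n * τ) :=
      Nat.mul_lt_mul_of_pos_right hcon (by positivity)
    have h2 : 2 * (m * (D + 1)) * (5 * n * τ) = m * (10 * n) * (D * τ + τ) := by ring
    have h3 : m * (10 * n) * (D * τ + τ) ≤ t ^ 2 * (4 * n + τ) :=
      Nat.mul_le_mul hmle (by omega)
    have h4 : t ^ 2 * (4 * n + τ) ≤ t ^ 2 * (5 * n) := Nat.mul_le_mul_left _ (by omega)
    have h5 : t ^ 2 * (5 * n) ≤ t * (5 * n * τ) := by
      have : t * t ≤ t * τ := Nat.mul_le_mul_left _ (by omega)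
      nlinarith
    omega
  set L := τ - τ / 2 with hLdef
  have hL2 : τ ≤ 2 * L := by omega
  have hL : 2 * n < L * (D + 1) := by
    have h1 : τ * (D + 1) ≤ 2 * L * (D + 1) := Nat.mul_le_mul_right _ hL2
    have h2 : 2 * L * (D + 1) = 2 * (L * (D + 1)) := by ring
    omega
  obtain ⟨T', X, hT'n, hT'm, hXG, hXT, hXj⟩ := cube n G hGr hGi T hT D L m hL (by omega)
  -- the elements of `A`
  have ha : ∀ S, ∃ a, S ⊆ T' → a ∈ An ∧ φ a = X S := by
    intro S
    by_cases hS : S ⊆ T'
    · have h1 := hXG S hS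
      rw [hG, mem_image] at h1
      obtain ⟨a, ha, hax⟩ := h1
      exact ⟨a, fun _ => ⟨ha, hax⟩⟩
    · exact ⟨0, fun h => absurd h hS⟩
  choose a ha using ha
  have hval' : ∀ S ⊆ T', ((a S : ℕ) : ℤ) = c0 + ∑ j ∈ range n, if j ∈ X S then w j else 0 := by
    intro S hS
    rw [hval _ (ha S hS).1, (ha S hS).2]
    congr 1
    rw [← sum_filter]
    refine sum_congr ?_ fun _ _ => rfl
    ext j
    rw [mem_filter]
    exact ⟨fun h => ⟨hGr _ (hXG S hS) h, h⟩, fun h => h.2⟩
  have hsum : ∀ S ⊆ T', a S + a (T' \ S) = a ∅ + a T' := by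
    intro S hS
    have hS' : T' \ S ⊆ T' := sdiff_subset
    suffices h : ((a S : ℕ) : ℤ) + (a (T' \ S) : ℕ) = (a ∅ : ℕ) + (a T' : ℕ) by exact_mod_cast h
    rw [hval' S hS, hval' _ hS', hval' ∅ (empty_subset _), hval' T' (subset_refl _)]
    have key : ∑ j ∈ range n, (if j ∈ X S then w j else 0) +
        ∑ j ∈ range n, (if j ∈ X (T' \ S) then w j else 0) =
        ∑ j ∈ range n, (if j ∈ X ∅ then w j else 0) +
        ∑ j ∈ range n, (if j ∈ X T' then w j else 0) := by
      rw [← sum_add_distrib, ← sum_add_distrib]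
      refine sum_congr rfl fun j hj => ?_
      rcases hXj j with h | h | h
      · have h1 := h S hS
        have h2 := h ∅ (empty_subset _)
        rw [sdiff_empty] at h2
        by_cases h3 : j ∈ X S
        · have h4 : j ∉ X (T' \ S) := h1.1 h3
          by_cases h5 : j ∈ X ∅
          · have h6 := h2.1 h5
            simp only [h3, h4, h5, h6, if_true, if_false]
          · have h6 : j ∈ X T' := by
              by_contra h7
              exact h5 (h2.2 h7)
            simp only [h3, h4, h5, h6, if_true, if_false]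
            ring
        · have h4 : j ∈ X (T' \ S) := by
            by_contra h7
            exact h3 (h1.2 h7)
          by_cases h5 : j ∈ X ∅
          · have h6 := h2.1 h5
            simp only [h3, h4, h5, h6, if_true, if_false]
            ring
          · have h6 : j ∈ X T' := by
              by_contra h7
              exact h5 (h2.2 h7)
            simp only [h3, h4, h5, h6, if_true, if_false]
      · simp only [h S hS, h _ hS', h ∅ (empty_subset _), h T' (subset_refl _)]
      · simp only [h S hS, h _ hS', h ∅ (empty_subset _), h T' (subset_refl _)]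
    linarith
  have hinj : Set.InjOn (fun S => (a S, a (T' \ S))) (T'.powerset : Set (Finset ℕ)) := by
    intro S hS S' hS' heq
    rw [mem_coe, mem_powerset] at hS hS'
    have h1 : a S = a S' := congrArg Prod.fst heq
    have h2 : X S = X S' := by
      rw [← (ha S hS).2, ← (ha S' hS').2, h1]
    ext i
    by_cases hi : i ∈ T'
    · rw [← hXT S hS i hi, ← hXT S' hS' i hi, h2]
    · exact ⟨fun h => absurd (hS h) hi, fun h => absurd (hS' h) hi⟩
  refine ⟨a ∅ + a T', ?_, ?_⟩
  · have h1 := hM _ (ha ∅ (empty_subset _)).1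
    have h2 := hM _ (ha T' (subset_refl _)).1
    omega
  · have h1 : ((T'.powerset.image (fun S => (a S, a (T' \ S))) : Finset (ℕ × ℕ)) : Set (ℕ × ℕ)) ⊆
        {p : ℕ × ℕ | p.1 ∈ A ∧ p.2 ∈ A ∧ p.1 + p.2 = a ∅ + a T'} := by
      intro p hp
      rw [mem_coe, mem_image] at hp
      obtain ⟨S, hS, rfl⟩ := hp
      rw [mem_powerset] at hS
      exact ⟨hAn _ (ha S hS).1, hAn _ (ha _ sdiff_subset).1, hsum S hS⟩
    have h2 := Set.ncard_le_ncard h1 (rep2_finite A _)
    rw [Set.ncard_coe_finset, card_image_of_injOn hinj, card_powerset, hT'm] at h2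
    exact h2

end Pool.Agent.TH521.Dig
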