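import Mathlib
import Pool.Agent.TH521.DigLin

set_option autoImplicit false

/-!
Sets of naturals closed under digitwise semilattice operations in an arbitrary base.
-/

namespace Pool.Agent.TH521.Dig

open Finset Pool.Agent.H523R4.BC

/-- the `j`-th digit of `a` in base `g` -/
def digit (g a j : ℕ) : ℕ := a / g ^ j % g

theorem digit_lt {g : ℕ} (hg : 2 ≤ g) (a j : ℕ) : digit g a j < g := Nat.mod_lt _ (by omega)

theorem mod_eq_digits (g a n : ℕ) : a % g ^ n = ∑ j ∈ range n, g ^ j * digit g a j := by
  induction n with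
  | zero => simp [Nat.mod_one]
  | succ n ih => rw [sum_range_succ, ← ih, Nat.mod_pow_succ]; rfl

theorem eq_of_digits {g a b n : ℕ} (ha : a < g ^ n) (hb : b < g ^ n)
    (h : ∀ j < n, digit g a j = digit g b j) : a = b := by
  rw [← Nat.mod_eq_of_lt ha, ← Nat.mod_eq_of_lt hb, mod_eq_digits, mod_eq_digits]
  refine sum_congr rfl fun j hj => ?_
  rw [h j (mem_range.1 hj)]

theorem digit_eq_zero {g a n j : ℕ} (hg : 2 ≤ g) (ha : a < g ^ n) (hj : n ≤ j) :
    digit g a j = 0 := by
  have h1 : a < g ^ j := lt_of_lt_of_le ha (Nat.pow_le_pow_right (by omega) hj)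
  unfold digit
  rw [Nat.div_eq_of_lt h1, Nat.zero_mod]

theorem lt_of_digits {g a n : ℕ} (hg : 2 ≤ g) (h : ∀ j, n ≤ j → digit g a j = 0) :
    a < g ^ n := by
  by_contra hcon
  push Not at hcon
  have ha0 : a ≠ 0 := by
    have : 0 < g ^ n := by positivity
    omega
  have h1 : n ≤ Nat.log g a := Nat.le_log_of_pow_le (by omega) hcon
  have h2 := h _ h1
  unfold digit at h2
  have h3 : a / g ^ Nat.log g a < g := by
    rw [Nat.div_lt_iff_lt_mul (by positivity)]
    have := Nat.lt_pow_succ_log_self (show 1 < g by omega) a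
    rw [pow_succ] at this
    linarith
  rw [Nat.mod_eq_of_lt h3] at h2
  have h4 : g ^ Nat.log g a ≤ a := Nat.pow_log_le_self g ha0
  have h5 : 0 < a / g ^ Nat.log g a := Nat.div_pos h4 (by positivity)
  omega

/-- `op` is a semilattice operation on the digits, at every place -/
structure IsSemi (g : ℕ) (op : ℕ → ℕ → ℕ → ℕ) : Prop where
  lt : ∀ j x y, x < g → y < g → op j x y < g
  idem : ∀ j x, x < g → op j x x = x
  comm : ∀ j x y, x < g → y < g → op j x y = op j y x
  assoc : ∀ j x y z, x < g → y < g → z < g → op j (op j x y) z = op j x (op j y z)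

/-- every function on a finite poset is a sum over lower sets -/
theorem exists_weights (g : ℕ) (op : ℕ → ℕ → ℕ) (_hlt : ∀ x y, x < g → y < g → op x y < g)
    (hidem : ∀ x, x < g → op x x = x) (hcomm : ∀ x y, x < g → y < g → op x y = op y x)
    (hassoc : ∀ x y z, x < g → y < g → z < g → op (op x y) z = op x (op y z)) :
    ∃ w : ℕ → ℤ, ∀ x, x < g → (x : ℤ) = ∑ s ∈ (range g).filter (fun s => op s x = s), w s := by
  classical
  set D : ℕ → Finset ℕ := fun x => (range g).filter (fun s => op s x = s) with hD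
  have hmem : ∀ x s, s ∈ D x ↔ s < g ∧ op s x = s := by
    intro x s
    simp [hD]
  have hself : ∀ x, x < g → x ∈ D x := fun x hx => (hmem x x).2 ⟨hx, hidem x hx⟩
  have hsub : ∀ x s, x < g → s ∈ D x → D s ⊆ D x := by
    intro x s hx hs r hr
    rw [hmem] at hs hr ⊢
    refine ⟨hr.1, ?_⟩
    calc op r x = op (op r s) x := by rw [hr.2]
      _ = op r (op s x) := hassoc _ _ _ hr.1 hs.1 hx
      _ = r := by rw [hs.2, hr.2]
  have hss : ∀ x s, x < g → s ∈ D x → s ≠ x → (D s).card < (D x).card := by
    intro x s hx hs hne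
    refine card_lt_card ⟨hsub x s hx hs, fun hcon => ?_⟩
    have h1 := hcon (hself x hx)
    rw [hmem] at h1 hs
    exact hne (hs.2.symm.trans ((hcomm s x hs.1 hx).trans h1.2))
  -- weights for digits of bounded rank
  have hmain : ∀ k : ℕ, ∃ w : ℕ → ℤ, ∀ x, x < g → (D x).card ≤ k → (x : ℤ) = ∑ s ∈ D x, w s := by
    intro k
    induction k with
    | zero =>
      refine ⟨fun _ => 0, fun x hx hc => ?_⟩
      have := card_pos.2 ⟨x, hself x hx⟩
      omega
    | succ k ih =>
      obtain ⟨w, hw⟩ := ih
      refine ⟨fun x => if (D x).card = k + 1 then x - ∑ s ∈ (D x).erase x, w s else w x, ?_⟩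
      intro x hx hc
      rcases Nat.lt_or_ge (D x).card (k + 1) with h | h
      · rw [hw x hx (by omega)]
        refine sum_congr rfl fun s hs => ?_
        have h1 := card_le_card (hsub x s hx hs)
        have h2 : ¬ (D s).card = k + 1 := by omega
        simp only [h2, if_false]
      · have h1 : (D x).card = k + 1 := le_antisymm hc h
        rw [← add_sum_erase _ _ (hself x hx)]
        have h2 : ∑ s ∈ (D x).erase x,
            (if (D s).card = k + 1 then (s : ℤ) - ∑ r ∈ (D s).erase s, w r else w s) =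
            ∑ s ∈ (D x).erase x, w s := by
          refine sum_congr rfl fun s hs => ?_
          rw [mem_erase] at hs
          have h3 := hss x s hx hs.2 hs.1
          rw [if_neg (by omega)]
        rw [h2]
        simp only [h1, if_true]
        ring
  obtain ⟨w, hw⟩ := hmain g
  refine ⟨w, fun x hx => hw x hx ?_⟩
  refine (card_filter_le _ _).trans ?_
  rw [card_range]

/-- many representations for sets closed under a digitwise semilattice operation -/
theorem main_semi {g : ℕ} (hg : 2 ≤ g) {op : ℕ → ℕ → ℕ → ℕ} (hop : IsSemi g op) {A : Set ℕ}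
    (hA : ∀ a ∈ A, ∀ b ∈ A, ∃ d ∈ A, ∀ j, digit g d j = op j (digit g a j) (digit g b j))
    (n t : ℕ) (hcard : ∑ k ∈ range (t + 1), (n * g).choose k < (A ∩ Set.Iio (g ^ n)).ncard) :
    ∃ x < 2 * g ^ n, 2 ^ (t ^ 2 / (10 * (n * g))) ≤ rep2 A x := by
  classical
  have hfin : (A ∩ Set.Iio (g ^ n)).Finite := (Set.finite_Iio _).subset fun a ha => ha.2
  set An := hfin.toFinset with hAn
  have hmemAn : ∀ a, a ∈ An ↔ a ∈ A ∧ a < g ^ n := by
    intro a
    rw [hAn, Set.Finite.mem_toFinset]
    rfl
  have hAnc : (A ∩ Set.Iio (g ^ n)).ncard = An.card := Set.ncard_eq_toFinset_card _ hfin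
  rw [hAnc] at hcard
  have hw : ∀ j, ∃ w : ℕ → ℤ, ∀ x, x < g →
      (x : ℤ) = ∑ s ∈ (range g).filter (fun s => op j s x = s), w s := fun j =>
    exists_weights g (op j) (hop.lt j) (hop.idem j) (hop.comm j) (hop.assoc j)
  choose w hw using hw
  set φ : ℕ → Finset ℕ := fun a => (range (n * g)).filter
    (fun i => op (i / g) (i % g) (digit g a (i / g)) = i % g) with hφ
  have hg0 : 0 < g := by omega
  have hφm : ∀ a j s, j < n → s < g → (j * g + s ∈ φ a ↔ op j s (digit g a j) = s) := by
    intro a j s hj hs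
    have h1 : (j * g + s) / g = j := by
      rw [Nat.mul_comm, Nat.mul_add_div hg0, Nat.div_eq_of_lt hs, add_zero]
    have h2 : (j * g + s) % g = s := by
      rw [Nat.mul_comm, Nat.mul_add_mod, Nat.mod_eq_of_lt hs]
    have h3 : j * g + s < n * g := by
      calc j * g + s < j * g + g := by omega
        _ = (j + 1) * g := by ring
        _ ≤ n * g := Nat.mul_le_mul_right _ hj
    rw [hφ]
    simp only [mem_filter, mem_range, h1, h2, h3, true_and]
  refine main_lin An (fun a ha => ((hmemAn a).1 ha).1) (n * g) t (g ^ n)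
    (fun a ha => ((hmemAn a).1 ha).2) φ (fun a _ => filter_subset _ _) ?_ ?_ 0
    (fun i => (g : ℤ) ^ (i / g) * w (i / g) (i % g)) ?_ hcard
  · intro a ha b hb hab
    rw [mem_coe, hmemAn] at ha hb
    refine eq_of_digits ha.2 hb.2 fun j hj => ?_
    have hda := digit_lt hg a j
    have hdb := digit_lt hg b j
    have h1 : op j (digit g a j) (digit g b j) = digit g a j := by
      rw [← hφm b j _ hj hda, ← hab, hφm a j _ hj hda]
      exact hop.idem j _ hda
    have h2 : op j (digit g b j) (digit g a j) = digit g b j := by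
      rw [← hφm a j _ hj hdb, hab, hφm b j _ hj hdb]
      exact hop.idem j _ hdb
    rw [← h1, hop.comm j _ _ hda hdb, h2]
  · intro a ha b hb
    rw [hmemAn] at ha hb
    obtain ⟨d, hd, hdd⟩ := hA a ha.1 b hb.1
    refine ⟨d, ?_, ?_⟩
    · rw [hmemAn]
      refine ⟨hd, lt_of_digits hg fun j hj => ?_⟩
      rw [hdd j, digit_eq_zero hg ha.2 hj, digit_eq_zero hg hb.2 hj]
      exact hop.idem j 0 hg0
    · ext i
      rw [hφ]
      simp only [mem_filter, mem_inter, mem_range]
      set j := i / g with hj
      set s := i % g with hs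
      have hsg : s < g := Nat.mod_lt _ hg0
      have hda := digit_lt hg a j
      have hdb := digit_lt hg b j
      rw [hdd j]
      set x := digit g a j with hx
      set y := digit g b j with hy
      constructor
      · rintro ⟨hi, h⟩
        refine ⟨⟨hi, ?_⟩, hi, ?_⟩
        · calc op j s x = op j (op j s (op j x y)) x := by rw [h]
            _ = op j s (op j (op j x y) x) := hop.assoc j _ _ _ hsg (hop.lt j _ _ hda hdb) hda
            _ = op j s (op j x y) := by
                rw [hop.comm j _ _ (hop.lt j _ _ hda hdb) hda, ← hop.assoc j _ _ _ hda hda hdb,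
                  hop.idem j _ hda]
            _ = s := h
        · calc op j s y = op j (op j s (op j x y)) y := by rw [h]
            _ = op j s (op j (op j x y) y) := hop.assoc j _ _ _ hsg (hop.lt j _ _ hda hdb) hdb
            _ = op j s (op j x y) := by
                rw [hop.assoc j _ _ _ hda hdb hdb, hop.idem j _ hdb]
            _ = s := h
      · rintro ⟨⟨hi, h1⟩, _, h2⟩
        refine ⟨hi, ?_⟩
        rw [← hop.assoc j _ _ _ hsg hda hdb, h1, h2]
  · intro a ha
    rw [hmemAn] at ha
    have h1 : (a : ℤ) = ∑ j ∈ range n, (g : ℤ) ^ j * (digit g a j : ℕ) := by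
      have h2 := mod_eq_digits g a n
      rw [Nat.mod_eq_of_lt ha.2] at h2
      exact_mod_cast h2
    rw [h1, zero_add]
    have h3 : ∑ i ∈ φ a, (g : ℤ) ^ (i / g) * w (i / g) (i % g) =
        ∑ i ∈ range (n * g), if op (i / g) (i % g) (digit g a (i / g)) = i % g then
          (g : ℤ) ^ (i / g) * w (i / g) (i % g) else 0 := by
      rw [hφ]
      rw [sum_filter]
    rw [h3]
    have h4 : ∀ m : ℕ, ∑ i ∈ range (m * g), (if op (i / g) (i % g) (digit g a (i / g)) = i % g then
          (g : ℤ) ^ (i / g) * w (i / g) (i % g) else 0) =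
        ∑ j ∈ range m, (g : ℤ) ^ j * (digit g a j : ℕ) := by
      intro m
      induction m with
      | zero => simp
      | succ m ih =>
        rw [sum_range_succ, ← ih, Nat.succ_mul, sum_range_add]
        congr 1
        rw [hw m (digit g a m) (digit_lt hg a m), mul_sum, sum_filter]
        refine sum_congr rfl fun s hs => ?_
        rw [mem_range] at hs
        have h1 : (m * g + s) / g = m := by
          rw [Nat.mul_comm, Nat.mul_add_div hg0, Nat.div_eq_of_lt hs, add_zero]
        have h2 : (m * g + s) % g = s := by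
          rw [Nat.mul_comm, Nat.mul_add_mod, Nat.mod_eq_of_lt hs]
        rw [h1, h2]
    rw [h4]

end Pool.Agent.TH521.Dig
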