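import Mathlib
import Pool.Agent.TH521.DigSemi

set_option autoImplicit false

/-!
Sets of naturals whose base `g` digits are given by linear congruences.
-/

namespace Pool.Agent.TH521.Dig

open Finset Pool.Agent.H523R4.BC

/-- closed under `a - b + c`, digit by digit modulo `g` -/
def AffC (g : ℕ) (A : Set ℕ) : Prop :=
  ∀ a ∈ A, ∀ b ∈ A, ∀ c ∈ A, ∃ d ∈ A, ∀ j,
    (digit g d j + digit g b j) % g = (digit g a j + digit g c j) % g

theorem cancel_mod {g a b c : ℕ} (ha : a < g) (hb : b < g) (h : (a + c) % g = (b + c) % g) :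
    a = b := by
  have h1 : a ≡ b [MOD g] := Nat.ModEq.add_right_cancel' c h
  exact Nat.ModEq.eq_of_lt_of_lt h1 ha hb

/-- many representations for sets closed under `a - b + c` -/
theorem main_aff {g : ℕ} (hg : 2 ≤ g) {A : Set ℕ} (hA : AffC g A) (n : ℕ)
    (hne : (A ∩ Set.Iio (g ^ n)).Nonempty) :
    ∃ x < 2 * g ^ n, ∃ b : ℕ, b * g ≤ n * (g - 1) ∧
      (A ∩ Set.Iio (g ^ n)).ncard ≤ 2 ^ b * rep2 A x := by
  classical
  have hg0 : 0 < g := by omega
  have hfin : (A ∩ Set.Iio (g ^ n)).Finite := (Set.finite_Iio _).subset fun a ha => ha.2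
  set An := hfin.toFinset with hAn
  have hmemAn : ∀ a, a ∈ An ↔ a ∈ A ∧ a < g ^ n := by
    intro a
    rw [hAn, Set.Finite.mem_toFinset]
    rfl
  have hAnc : (A ∩ Set.Iio (g ^ n)).ncard = An.card := Set.ncard_eq_toFinset_card _ hfin
  rw [hAnc]
  have hAn0 : An.Nonempty := by
    obtain ⟨a, ha⟩ := hne
    exact ⟨a, (hmemAn a).2 ha⟩
  have hlt : ∀ a j, digit g a j < g := digit_lt hg
  have htern : ∀ a b c, ∃ d, a ∈ An → b ∈ An → c ∈ An → d ∈ An ∧ ∀ j,
      (digit g d j + digit g b j) % g = (digit g a j + digit g c j) % g := by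
    intro a b c
    by_cases h : a ∈ An ∧ b ∈ An ∧ c ∈ An
    · obtain ⟨ha, hb, hc⟩ := h
      rw [hmemAn] at ha hb hc
      obtain ⟨d, hd, hdd⟩ := hA a ha.1 b hb.1 c hc.1
      refine ⟨d, fun _ _ _ => ⟨?_, hdd⟩⟩
      rw [hmemAn]
      refine ⟨hd, lt_of_digits hg fun j hj => ?_⟩
      have h1 := hdd j
      rw [digit_eq_zero hg ha.2 hj, digit_eq_zero hg hb.2 hj, digit_eq_zero hg hc.2 hj] at h1
      simpa [Nat.mod_eq_of_lt (hlt d j)] using h1
    · exact ⟨0, fun ha hb hc => absurd ⟨ha, hb, hc⟩ h⟩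
  choose T hT using htern
  obtain ⟨z, hz⟩ := hAn0
  have hmin : ∀ j, ∃ p ∈ An, ∀ a ∈ An, digit g p j ≤ digit g a j := fun j =>
    exists_min_image An (fun a => digit g a j) ⟨z, hz⟩
  have hmax : ∀ j, ∃ p ∈ An, ∀ a ∈ An, digit g a j ≤ digit g p j := fun j =>
    exists_max_image An (fun a => digit g a j) ⟨z, hz⟩
  choose p hp hpm using hmin
  choose q hq hqm using hmax
  set u : ℕ → ℕ := fun j => T (p j) z (q j) with hu
  have huA : ∀ j, u j ∈ An := fun j => (hT _ _ _ (hp j) hz (hq j)).1
  have hud : ∀ j, (digit g (u j) j + digit g z j) % g = (digit g (p j) j + digit g (q j) j) % g :=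
    fun j => (hT _ _ _ (hp j) hz (hq j)).2 j
  set F : ℕ → Finset ℕ := fun j => An.filter (fun v => digit g v j = digit g (u j) j) with hF
  have hFc : ∀ j, An.card ≤ (F j).card * g := by
    intro j
    have h1 := card_le_mul_card_image_of_maps_to (s := An) (t := range g)
      (f := fun a => digit g a j) (fun a _ => mem_range.2 (hlt a j)) (F j).card ?_
    · rwa [card_range] at h1
    intro s _
    rcases (An.filter (fun a => digit g a j = s)).eq_empty_or_nonempty with h0 | ⟨w, hw⟩
    · rw [h0, card_empty]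
      exact Nat.zero_le _
    · rw [mem_filter] at hw
      refine card_le_card_of_injOn (fun v => T v w (u j)) ?_ ?_
      · intro v hv
        rw [mem_coe, mem_filter] at hv
        have h2 := hT v w (u j) hv.1 hw.1 (huA j)
        rw [mem_coe, hF, mem_filter]
        refine ⟨h2.1, ?_⟩
        have h3 := h2.2 j
        rw [hv.2, hw.2, add_comm s] at h3
        exact cancel_mod (hlt _ _) (hlt _ _) h3
      · intro v hv v' hv' hvv
        rw [mem_coe, mem_filter] at hv hv'
        have h2 := hT v w (u j) hv.1 hw.1 (huA j)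
        have h2' := hT v' w (u j) hv'.1 hw.1 (huA j)
        simp only at hvv
        rw [hvv] at h2
        refine eq_of_digits ((hmemAn v).1 hv.1).2 ((hmemAn v').1 hv'.1).2 fun i _ => ?_
        exact cancel_mod (hlt _ _) (hlt _ _) ((h2.2 i).symm.trans (h2'.2 i))
  set Gd : ℕ → Finset ℕ := fun v => (range n).filter (fun j => digit g v j = digit g (u j) j)
    with hGd
  have hcount : ∑ v ∈ An, (Gd v).card = ∑ j ∈ range n, (F j).card := by
    have h1 : ∀ v, (Gd v).card = ∑ j ∈ range n, if digit g v j = digit g (u j) j then 1 else 0 := by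
      intro v
      rw [hGd, card_filter]
    have h2 : ∀ j, (F j).card = ∑ v ∈ An, if digit g v j = digit g (u j) j then 1 else 0 := by
      intro j
      rw [hF, card_filter]
    simp only [h1, h2]
    exact sum_comm
  obtain ⟨v, hv, hvG⟩ : ∃ v ∈ An, n ≤ (Gd v).card * g := by
    by_contra hcon
    push Not at hcon
    have h1 : ∑ v ∈ An, (Gd v).card * g < ∑ _v ∈ An, n := sum_lt_sum_of_nonempty ⟨z, hz⟩ hcon
    rw [← sum_mul, hcount, sum_mul, sum_const, smul_eq_mul] at h1
    have h2 : ∑ _j ∈ range n, An.card ≤ ∑ j ∈ range n, (F j).card * g :=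
      sum_le_sum fun j _ => hFc j
    rw [sum_const, card_range, smul_eq_mul] at h2
    rw [mul_comm] at h1
    omega
  -- the involution
  set y : ℕ → ℕ := fun x => T v x z with hy
  have hyA : ∀ x ∈ An, y x ∈ An := fun x hx => (hT v x z hv hx hz).1
  have hyd : ∀ x ∈ An, ∀ j, (digit g (y x) j + digit g x j) % g = (digit g v j + digit g z j) % g :=
    fun x hx => (hT v x z hv hx hz).2
  set Bd := range n \ Gd v with hBd
  set κ : ℕ → Finset ℕ := fun x => Bd.filter (fun j => g ≤ digit g (y x) j + digit g x j) with hκ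
  have hsum : ∀ x ∈ An, ∀ x' ∈ An, κ x = κ x' → x + y x = x' + y x' := by
    intro x hx x' hx' hk
    have h1 := ((hmemAn x).1 hx).2
    have h2 := ((hmemAn _).1 (hyA x hx)).2
    have h3 := ((hmemAn x').1 hx').2
    have h4 := ((hmemAn _).1 (hyA x' hx')).2
    suffices key : ∑ j ∈ range n, g ^ j * digit g x j + ∑ j ∈ range n, g ^ j * digit g (y x) j =
        ∑ j ∈ range n, g ^ j * digit g x' j + ∑ j ∈ range n, g ^ j * digit g (y x') j by
      rw [← mod_eq_digits, ← mod_eq_digits, ← mod_eq_digits, ← mod_eq_digits,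
        Nat.mod_eq_of_lt h1, Nat.mod_eq_of_lt h2, Nat.mod_eq_of_lt h3, Nat.mod_eq_of_lt h4] at key
      exact key
    rw [← sum_add_distrib, ← sum_add_distrib]
    refine sum_congr rfl fun j hj => ?_
    rw [← mul_add, ← mul_add]
    congr 1
    rw [add_comm (digit g x j), add_comm (digit g x' j)]
    have e1 := hyd x hx j
    have e2 := hyd x' hx' j
    have l1 := hlt x j
    have l2 := hlt (y x) j
    have l3 := hlt x' j
    have l4 := hlt (y x') j
    by_cases hjG : j ∈ Gd v
    · have h5 : digit g v j = digit g (u j) j := by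
        rw [hGd, mem_filter] at hjG
        exact hjG.2
      rw [h5, hud j] at e1 e2
      have key : ∀ x ∈ An, (digit g (y x) j + digit g x j) % g =
          (digit g (p j) j + digit g (q j) j) % g →
          digit g (y x) j + digit g x j = digit g (p j) j + digit g (q j) j := by
        intro x hx e
        have m1 := hpm j x hx
        have m2 := hpm j _ (hyA x hx)
        have m3 := hqm j x hx
        have m4 := hqm j _ (hyA x hx)
        have m5 := hlt (q j) j
        have e' : digit g (y x) j + digit g x j ≡ digit g (p j) j + digit g (q j) j [MOD g] := e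
        rcases le_total (digit g (y x) j + digit g x j) (digit g (p j) j + digit g (q j) j) with h | h
        · have h6 := (Nat.modEq_iff_dvd' h).1 e'
          have h7 := Nat.eq_zero_of_dvd_of_lt h6 (by omega)
          omega
        · have h6 := (Nat.modEq_iff_dvd' h).1 e'.symm
          have h7 := Nat.eq_zero_of_dvd_of_lt h6 (by omega)
          omega
      rw [key x hx e1, key x' hx' e2]
    · have hjB : j ∈ Bd := by
        rw [hBd, mem_sdiff]
        exact ⟨hj, hjG⟩
      have h5 : g ≤ digit g (y x) j + digit g x j ↔ g ≤ digit g (y x') j + digit g x' j := by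
        have h6 : j ∈ κ x ↔ j ∈ κ x' := by rw [hk]
        simpa only [hκ, mem_filter, hjB, true_and] using h6
      have e3 : (digit g (y x) j + digit g x j) % g = (digit g (y x') j + digit g x' j) % g :=
        e1.trans e2.symm
      by_cases h6 : g ≤ digit g (y x) j + digit g x j
      · have h7 := h5.1 h6
        rw [Nat.mod_eq_sub_mod h6, Nat.mod_eq_sub_mod h7, Nat.mod_eq_of_lt (by omega),
          Nat.mod_eq_of_lt (by omega)] at e3
        omega
      · have h7 : ¬ g ≤ digit g (y x') j + digit g x' j := fun h => h6 (h5.2 h)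
        rw [Nat.mod_eq_of_lt (by omega), Nat.mod_eq_of_lt (by omega)] at e3
        exact e3
  obtain ⟨Y, hY, hYm⟩ := exists_max_image Bd.powerset
    (fun Y => (An.filter (fun a => κ a = Y)).card) ⟨∅, empty_mem_powerset _⟩
  have hcard := card_le_mul_card_image_of_maps_to (s := An) (t := Bd.powerset)
      (f := κ) (fun a _ => mem_powerset.2 (filter_subset _ _))
      (An.filter (fun a => κ a = Y)).card (fun s hs => hYm s hs)
  rw [card_powerset] at hcard
  have hGn : Gd v ⊆ range n := filter_subset _ _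
  have hBc : Bd.card = n - (Gd v).card := by
    rw [hBd, card_sdiff_of_subset hGn, card_range]
  have hGc : (Gd v).card ≤ n := by
    have := card_le_card hGn
    rwa [card_range] at this
  have hF0 : (An.filter (fun a => κ a = Y)).Nonempty := by
    rw [← card_pos]
    by_contra hcon
    have h1 : (An.filter (fun a => κ a = Y)).card = 0 := by omega
    rw [h1, zero_mul] at hcard
    have := card_pos.2 ⟨z, hz⟩
    omega
  obtain ⟨a0, ha0⟩ := hF0
  rw [mem_filter] at ha0
  refine ⟨a0 + y a0, ?_, Bd.card, ?_, ?_⟩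
  · have h1 := ((hmemAn a0).1 ha0.1).2
    have h2 := ((hmemAn _).1 (hyA a0 ha0.1)).2
    omega
  · rw [hBc]
    obtain ⟨k, hk⟩ : ∃ k, n = (Gd v).card + k := ⟨n - (Gd v).card, by omega⟩
    have h1 : n - (Gd v).card = k := by omega
    rw [h1]
    obtain ⟨g', hg'⟩ : ∃ g', g = g' + 1 := ⟨g - 1, by omega⟩
    have h2 : g - 1 = g' := by omega
    rw [h2]
    have h3 : n ≤ (Gd v).card * (g' + 1) := by rw [← hg']; exact hvG
    rw [hg']
    nlinarith
  · have h1 : (((An.filter (fun a => κ a = Y)).image (fun a => (a, y a)) : Finset (ℕ × ℕ)) :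
        Set (ℕ × ℕ)) ⊆ {p : ℕ × ℕ | p.1 ∈ A ∧ p.2 ∈ A ∧ p.1 + p.2 = a0 + y a0} := by
      intro r hr
      rw [mem_coe, mem_image] at hr
      obtain ⟨a, ha, rfl⟩ := hr
      rw [mem_filter] at ha
      exact ⟨((hmemAn a).1 ha.1).1, ((hmemAn _).1 (hyA a ha.1)).1,
        hsum a ha.1 a0 ha0.1 (ha.2.trans ha0.2.symm)⟩
    have h2 := Set.ncard_le_ncard h1 (rep2_finite A _)
    rw [Set.ncard_coe_finset, card_image_of_injective _ (fun a b h => congrArg Prod.fst h)] at h2
    calc An.card ≤ (An.filter (fun a => κ a = Y)).card * 2 ^ Bd.card := hcard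
      _ ≤ rep2 A (a0 + y a0) * 2 ^ Bd.card := Nat.mul_le_mul_right _ h2
      _ = _ := by rw [mul_comm]

theorem digit_two (a j : ℕ) : digit 2 a j = (a.testBit j).toNat := by
  rw [Nat.toNat_testBit]
  rfl

/-- base two -/
theorem main_aff_two {A : Set ℕ} (hA : AffC 2 A) (n C : ℕ)
    (hcard : 2 ^ (n - C) ≤ ((A ∩ Set.Iio (2 ^ n)).ncard) ^ 2) :
    ∃ x < 2 ^ (n + 1), 2 ^ ((n - 11 * C) / 16) ≤ rep2 A x := by
  refine main_xor ?_ n C hcard
  intro a ha b hb c hc
  obtain ⟨d, hd, hdd⟩ := hA a ha b hb c hc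
  refine ⟨d, hd, fun j => ?_⟩
  have h1 := hdd j
  rw [digit_two, digit_two, digit_two, digit_two] at h1
  revert h1
  cases a.testBit j <;> cases b.testBit j <;> cases c.testBit j <;> cases d.testBit j <;> simp

end Pool.Agent.TH521.Dig
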