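import Mathlib
import Pool.Agent.TH521.DigAff

set_option autoImplicit false

/-!
Power lower bounds.
-/

namespace Pool.Agent.TH521.Dig

open Finset Filter Pool.Agent.H523R4.BC

theorem choose_small (ε : ℝ) (hε : 0 < ε) (hε1 : ε ≤ 1) : ∃ γ : ℝ, 0 < γ ∧ γ ≤ 1 ∧
    ∀ n t : ℕ, (t : ℝ) ≤ 2 * γ * n →
      ((∑ k ∈ range (t + 1), n.choose k : ℕ) : ℝ) ≤ (2 : ℝ) ^ (ε * n / 2) := by
  set q := ⌈8 / ε⌉₊ with hq
  have hq8 : 8 / ε ≤ (q : ℝ) := Nat.le_ceil _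
  have hqpos : (0 : ℝ) < q := lt_of_lt_of_le (by positivity) hq8
  have hq1 : 1 ≤ q := by exact_mod_cast hqpos
  obtain ⟨l, hl⟩ : ∃ l : ℕ, l = q := ⟨q, rfl⟩
  have hql : q < 2 ^ l := by rw [hl]; exact Nat.lt_two_pow_self
  set g : ℝ := ε / (8 * l) with hg
  have hlpos : (0 : ℝ) < l := by rw [hl]; exact hqpos
  have hgpos : 0 < g := by positivity
  have hg1 : g ≤ 1 := by
    rw [hg, div_le_one (by positivity)]
    have : (1 : ℝ) ≤ l := by rw [hl]; exact_mod_cast hq1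
    linarith
  refine ⟨g, hgpos, hg1, fun n t ht1 => ?_⟩
  have hn0 : (0 : ℝ) ≤ n := Nat.cast_nonneg n
  have h1 := sum_choose_le n t q hq1
  have h2 : (q : ℝ) ^ n * (∑ k ∈ range (t + 1), n.choose k : ℕ) ≤ ((q : ℝ) + 1) ^ n * q ^ t := by
    exact_mod_cast h1
  have h3 : ((q : ℝ) + 1) ^ n ≤ (q : ℝ) ^ n * (2 : ℝ) ^ (ε * n / 4) := by
    have h4 : (q : ℝ) + 1 ≤ q * Real.exp (1 / q) := by
      have h5 := Real.add_one_le_exp (1 / (q : ℝ))
      have h6 : (q : ℝ) * (1 / q + 1) ≤ q * Real.exp (1 / q) :=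
        mul_le_mul_of_nonneg_left h5 hqpos.le
      have h7 : (q : ℝ) * (1 / q + 1) = q + 1 := by
        rw [mul_add, mul_one_div_cancel hqpos.ne', mul_one]; ring
      linarith
    have h5 : ((q : ℝ) + 1) ^ n ≤ ((q : ℝ) * Real.exp (1 / q)) ^ n :=
      pow_le_pow_left₀ (by positivity) h4 n
    refine h5.trans ?_
    rw [mul_pow]
    refine mul_le_mul_of_nonneg_left ?_ (by positivity)
    rw [← Real.exp_nat_mul, Real.rpow_def_of_pos (by norm_num : (0 : ℝ) < 2)]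
    rw [Real.exp_le_exp]
    have h6 : 1 / (q : ℝ) ≤ ε / 8 := by
      rw [div_le_iff₀ hqpos]
      rw [div_le_iff₀ hε] at hq8
      linarith
    have h7 := Real.log_two_gt_d9
    have h8 : (n : ℝ) * (1 / q) ≤ n * (ε / 8) := mul_le_mul_of_nonneg_left h6 hn0
    have h9 : n * (ε / 8) ≤ Real.log 2 * (ε * n / 4) := by
      have h10 : 0 ≤ ε * n := by positivity
      nlinarith
    linarith
  have h4 : (q : ℝ) ^ t ≤ (2 : ℝ) ^ (ε * n / 4) := by
    calc (q : ℝ) ^ t ≤ ((2 : ℝ) ^ l) ^ t := by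
          refine pow_le_pow_left₀ hqpos.le ?_ t
          exact_mod_cast hql.le
      _ = (2 : ℝ) ^ ((l : ℝ) * t) := by
          rw [← pow_mul, ← Real.rpow_natCast]
          push_cast
          rfl
      _ ≤ (2 : ℝ) ^ (ε * n / 4) := by
          refine Real.rpow_le_rpow_of_exponent_le (by norm_num) ?_
          have h5 : (l : ℝ) * t ≤ l * (2 * g * n) := mul_le_mul_of_nonneg_left ht1 hlpos.le
          have h6 : (l : ℝ) * (2 * g * n) = ε * n / 4 := by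
            rw [hg]
            field_simp
            ring
          linarith
  have h5 : (q : ℝ) ^ n * (∑ k ∈ range (t + 1), n.choose k : ℕ) ≤
      (q : ℝ) ^ n * (2 : ℝ) ^ (ε * n / 2) := by
    refine h2.trans ?_
    calc ((q : ℝ) + 1) ^ n * q ^ t ≤ ((q : ℝ) ^ n * (2 : ℝ) ^ (ε * n / 4)) *
          (2 : ℝ) ^ (ε * n / 4) := mul_le_mul h3 h4 (by positivity) (by positivity)
      _ = (q : ℝ) ^ n * (2 : ℝ) ^ (ε * n / 2) := by
          rw [mul_assoc, ← Real.rpow_add (by norm_num)]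
          congr 2
          ring
  exact le_of_mul_le_mul_left h5 (by positivity)

/-- semilattice operations: many elements below `g ^ n` give large values of `r` -/
theorem power_semi {g : ℕ} (hg : 2 ≤ g) (α : ℝ) (hα : 0 < α) (hα1 : α ≤ 1) :
    ∃ c : ℝ, 0 < c ∧ c ≤ 1 ∧ ∀ᶠ n : ℕ in atTop, ∀ op : ℕ → ℕ → ℕ → ℕ, IsSemi g op →
      ∀ A : Set ℕ, (∀ a ∈ A, ∀ b ∈ A, ∃ d ∈ A, ∀ j,
        digit g d j = op j (digit g a j) (digit g b j)) →
      (2 : ℝ) ^ (α * n) ≤ ((A ∩ Set.Iio (g ^ n)).ncard : ℝ) →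
      ∃ x < 2 * g ^ n, (2 : ℝ) ^ (c * n) ≤ rep2 A x := by
  have hgR : (2 : ℝ) ≤ g := by exact_mod_cast hg
  have hg0 : (0 : ℝ) < g := by linarith
  obtain ⟨γ, hγ, hγ1, hsmall⟩ := choose_small (α / g) (by positivity)
    (by rw [div_le_one hg0]; linarith)
  refine ⟨γ ^ 2 / 20, by positivity, by nlinarith, ?_⟩
  filter_upwards [eventually_ge_atTop (⌈1 / γ⌉₊ + ⌈20 / γ ^ 2⌉₊ + 2)] with n hn op hop A hA hcard
  have hn1 : 1 / γ ≤ (n : ℝ) := by
    refine (Nat.le_ceil _).trans ?_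
    exact_mod_cast (by omega : ⌈1 / γ⌉₊ ≤ n)
  have hn2 : 20 / γ ^ 2 ≤ (n : ℝ) := by
    refine (Nat.le_ceil _).trans ?_
    exact_mod_cast (by omega : ⌈20 / γ ^ 2⌉₊ ≤ n)
  have hn1' : 1 ≤ γ * n := by
    rw [div_le_iff₀ hγ] at hn1
    linarith
  have hn2' : 20 ≤ γ ^ 2 * n := by
    rw [div_le_iff₀ (by positivity)] at hn2
    linarith
  have hnpos : (0 : ℝ) < n := by
    have : 2 ≤ n := by omega
    exact_mod_cast (by omega : 0 < n)
  set N := n * g with hN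
  have hNR : (N : ℝ) = n * g := by rw [hN]; push_cast; ring
  have hNn : (n : ℝ) ≤ N := by rw [hNR]; nlinarith
  have hNpos : (0 : ℝ) < N := lt_of_lt_of_le hnpos hNn
  set t := ⌊2 * γ * N⌋₊ with ht
  have ht1 : (t : ℝ) ≤ 2 * γ * N := Nat.floor_le (by positivity)
  have ht2 : γ * N ≤ (t : ℝ) := by
    have := Nat.lt_floor_add_one (2 * γ * N)
    rw [← ht] at this
    have h1 : γ * n ≤ γ * N := mul_le_mul_of_nonneg_left hNn hγ.le
    linarith
  have hsum : ∑ k ∈ range (t + 1), N.choose k < (A ∩ Set.Iio (g ^ n)).ncard := by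
    have h1 := hsmall N t ht1
    have h2 : α / g * N / 2 = α * n / 2 := by
      rw [hNR]
      field_simp
    rw [h2] at h1
    have h3 : (2 : ℝ) ^ (α * n / 2) < (2 : ℝ) ^ (α * n) := by
      refine Real.rpow_lt_rpow_of_exponent_lt (by norm_num) ?_
      have : 0 < α * n := by positivity
      linarith
    exact_mod_cast lt_of_le_of_lt h1 (lt_of_lt_of_le h3 hcard)
  obtain ⟨x, hx, hrep⟩ := main_semi hg hop hA n t hsum
  refine ⟨x, hx, ?_⟩
  rw [← hN] at hrep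
  have h1 : ((2 ^ (t ^ 2 / (10 * N)) : ℕ) : ℝ) ≤ (rep2 A x : ℝ) := by exact_mod_cast hrep
  refine le_trans ?_ h1
  rw [Nat.cast_pow, Nat.cast_ofNat, ← Real.rpow_natCast 2 (t ^ 2 / (10 * N))]
  refine Real.rpow_le_rpow_of_exponent_le (by norm_num) ?_
  have hN0 : 0 < N := by exact_mod_cast hNpos
  have h2 : (t : ℝ) ^ 2 / (10 * N) < ((t ^ 2 / (10 * N) : ℕ) : ℝ) + 1 := by
    have h3 := Nat.lt_mul_div_succ (t ^ 2) (show 0 < 10 * N by omega)
    rw [div_lt_iff₀ (by positivity)]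
    have h4 : ((t ^ 2 : ℕ) : ℝ) < ((10 * N * (t ^ 2 / (10 * N) + 1) : ℕ) : ℝ) := by
      exact_mod_cast h3
    rw [Nat.cast_mul, Nat.cast_add, Nat.cast_pow] at h4
    push_cast at h4 ⊢
    linarith
  have h3 : γ ^ 2 * N / 10 ≤ (t : ℝ) ^ 2 / (10 * N) := by
    rw [div_le_div_iff₀ (by norm_num) (by positivity)]
    have h4 : (γ * N) ^ 2 ≤ (t : ℝ) ^ 2 := pow_le_pow_left₀ (by positivity) ht2 2
    nlinarith
  have h4 : γ ^ 2 * n ≤ γ ^ 2 * N := mul_le_mul_of_nonneg_left hNn (by positivity)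
  linarith

/-- linear congruences on the digits in base `g`: many elements below `g ^ n` give large values
of `r` -/
theorem power_aff {g : ℕ} (hg : 2 ≤ g) (α : ℝ) (hα : (1 - 1 / (g : ℝ)) * Real.log 2 <
    α * Real.log g) : ∃ c : ℝ, 0 < c ∧ ∀ n : ℕ, ∀ A : Set ℕ, AffC g A →
      (g : ℝ) ^ (α * n) ≤ ((A ∩ Set.Iio (g ^ n)).ncard : ℝ) →
      ∃ x < 2 * g ^ n, (2 : ℝ) ^ (c * n) ≤ rep2 A x := by
  have hgR : (2 : ℝ) ≤ g := by exact_mod_cast hg
  have hg0 : (0 : ℝ) < g := by linarith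
  have hl2 : 0 < Real.log 2 := Real.log_pos (by norm_num)
  refine ⟨(α * Real.log g - (1 - 1 / (g : ℝ)) * Real.log 2) / Real.log 2,
    div_pos (by linarith) hl2, fun n A hA hcard => ?_⟩
  have hne : (A ∩ Set.Iio (g ^ n)).Nonempty := by
    rw [Set.nonempty_iff_ne_empty]
    intro h
    rw [h, Set.ncard_empty, Nat.cast_zero] at hcard
    have : (0 : ℝ) < (g : ℝ) ^ (α * n) := Real.rpow_pos_of_pos hg0 _
    linarith
  obtain ⟨x, hx, b, hb, hrep⟩ := main_aff hg hA n hne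
  refine ⟨x, hx, ?_⟩
  have h1 : ((A ∩ Set.Iio (g ^ n)).ncard : ℝ) ≤ (2 : ℝ) ^ b * rep2 A x := by exact_mod_cast hrep
  have h2 : (g : ℝ) ^ (α * n) ≤ (2 : ℝ) ^ b * rep2 A x := hcard.trans h1
  have hbR : (b : ℝ) ≤ n * (1 - 1 / (g : ℝ)) := by
    have h3 : ((b * g : ℕ) : ℝ) ≤ ((n * (g - 1) : ℕ) : ℝ) := by exact_mod_cast hb
    rw [Nat.cast_mul, Nat.cast_mul, Nat.cast_sub (by omega)] at h3
    have h4 : (n : ℝ) * (1 - 1 / (g : ℝ)) = n * (g - 1) / g := by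
      field_simp
    rw [h4, le_div_iff₀ hg0]
    simpa using h3
  have h3 : (2 : ℝ) ^ b ≤ (2 : ℝ) ^ (n * (1 - 1 / (g : ℝ))) := by
    rw [← Real.rpow_natCast]
    exact Real.rpow_le_rpow_of_exponent_le (by norm_num) hbR
  have h4 : (g : ℝ) ^ (α * n) ≤ (2 : ℝ) ^ (n * (1 - 1 / (g : ℝ))) * rep2 A x :=
    h2.trans (mul_le_mul_of_nonneg_right h3 (Nat.cast_nonneg _))
  have h5 : (g : ℝ) ^ (α * n) = (2 : ℝ) ^ (n * (1 - 1 / (g : ℝ))) *
      (2 : ℝ) ^ ((α * Real.log g - (1 - 1 / (g : ℝ)) * Real.log 2) / Real.log 2 * n) := by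
    rw [← Real.rpow_add (by norm_num), Real.rpow_def_of_pos hg0,
      Real.rpow_def_of_pos (by norm_num : (0 : ℝ) < 2)]
    congr 1
    field_simp
    ring
  rw [h5] at h4
  exact le_of_mul_le_mul_left h4 (by positivity)

theorem power_aff_two (α : ℝ) (hα : 5 / 11 < α) : ∃ c : ℝ, 0 < c ∧ ∀ᶠ n : ℕ in atTop,
    ∀ A : Set ℕ, AffC 2 A → (2 : ℝ) ^ (α * n) ≤ ((A ∩ Set.Iio (2 ^ n)).ncard : ℝ) →
      ∃ x < 2 * 2 ^ n, (2 : ℝ) ^ (c * n) ≤ rep2 A x := by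
  wlog hα1 : α ≤ 1 / 2 with H
  · obtain ⟨c, hc, h⟩ := H (1 / 2) (by norm_num) le_rfl
    refine ⟨c, hc, ?_⟩
    filter_upwards [h] with n hn A hA hcard
    refine hn A hA (le_trans ?_ hcard)
    refine Real.rpow_le_rpow_of_exponent_le (by norm_num) ?_
    exact mul_le_mul_of_nonneg_right (by linarith) (Nat.cast_nonneg _)
  set δ : ℝ := 22 * α - 10 with hδ
  have hδ0 : 0 < δ := by linarith
  refine ⟨δ / 32, by positivity, ?_⟩
  filter_upwards [eventually_ge_atTop (⌈54 / δ⌉₊ + 1)] with n hn A hA hcard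
  have hn1 : 54 / δ ≤ (n : ℝ) := by
    refine (Nat.le_ceil _).trans ?_
    exact_mod_cast (by omega : ⌈54 / δ⌉₊ ≤ n)
  have hn1' : 54 ≤ δ * n := by
    rw [div_le_iff₀ hδ0] at hn1
    linarith
  have hn0 : (0 : ℝ) ≤ n := Nat.cast_nonneg n
  set C := ⌈(1 - 2 * α) * n⌉₊ with hC
  have hC1 : (1 - 2 * α) * n ≤ C := Nat.le_ceil _
  have hC2 : (C : ℝ) < (1 - 2 * α) * n + 1 :=
    Nat.ceil_lt_add_one (mul_nonneg (by linarith) hn0)
  have hcard' : 2 ^ (n - C) ≤ ((A ∩ Set.Iio (2 ^ n)).ncard) ^ 2 := by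
    have h1 : ((2 : ℝ) ^ (α * n)) ^ 2 ≤ ((A ∩ Set.Iio (2 ^ n)).ncard : ℝ) ^ 2 :=
      pow_le_pow_left₀ (by positivity) hcard 2
    have h2 : ((2 : ℝ) ^ (α * n)) ^ 2 = (2 : ℝ) ^ (2 * α * n) := by
      rw [← Real.rpow_natCast, ← Real.rpow_mul (by norm_num)]
      congr 1
      push_cast
      ring
    have h3 : ((n - C : ℕ) : ℝ) ≤ 2 * α * n := by
      rcases le_total n C with h | h
      · rw [Nat.sub_eq_zero_of_le h]
        simp only [Nat.cast_zero]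
        have : 0 ≤ α := by linarith
        positivity
      · rw [Nat.cast_sub h]
        linarith
    have h4 : ((2 ^ (n - C) : ℕ) : ℝ) ≤ (2 : ℝ) ^ (2 * α * n) := by
      rw [Nat.cast_pow, Nat.cast_ofNat, ← Real.rpow_natCast]
      exact Real.rpow_le_rpow_of_exponent_le (by norm_num) h3
    rw [h2] at h1
    exact_mod_cast h4.trans h1
  obtain ⟨x, hx, hrep⟩ := main_aff_two hA n C hcard'
  refine ⟨x, by rw [pow_succ] at hx; omega, ?_⟩
  have h1 : ((2 ^ ((n - 11 * C) / 16) : ℕ) : ℝ) ≤ (rep2 A x : ℝ) := by exact_mod_cast hrep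
  refine le_trans ?_ h1
  rw [Nat.cast_pow, Nat.cast_ofNat, ← Real.rpow_natCast 2 ((n - 11 * C) / 16)]
  refine Real.rpow_le_rpow_of_exponent_le (by norm_num) ?_
  have h2 : n ≤ 16 * ((n - 11 * C) / 16) + 16 + 11 * C := by omega
  have h3 : (n : ℝ) ≤ 16 * (((n - 11 * C) / 16 : ℕ) : ℝ) + 16 + 11 * C := by exact_mod_cast h2
  nlinarith

/-- from powers of `g` to powers of `x` -/
theorem to_freq {g : ℕ} (hg : 2 ≤ g) {A : Set ℕ} {c : ℝ} (hc : 0 < c)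
    (H : ∃ᶠ n : ℕ in atTop, ∃ x < 2 * g ^ n, (2 : ℝ) ^ (c * n) ≤ rep2 A x) :
    ∃ᶠ x : ℕ in atTop, (x : ℝ) ^ (c / (4 * g)) ≤ (rep2 A x : ℝ) := by
  have hgR : (2 : ℝ) ≤ g := by exact_mod_cast hg
  have hg0 : (0 : ℝ) < g := by linarith
  refine freq (r := fun x => rep2 A x) fun M => ?_
  rw [frequently_atTop] at H
  obtain ⟨n, hn, x, hx, hrep⟩ := H (1 + ⌈((M : ℝ) + 1) / c⌉₊)
  have hn1 : ((M : ℝ) + 1) / c ≤ n := by
    refine (Nat.le_ceil _).trans ?_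
    exact_mod_cast (by omega : ⌈((M : ℝ) + 1) / c⌉₊ ≤ n)
  have hn1' : (M : ℝ) + 1 ≤ c * n := by
    rw [div_le_iff₀ hc] at hn1
    linarith
  refine ⟨x, ?_, ?_⟩
  · have h1 : (M : ℝ) < (2 : ℝ) ^ (c * n) := by
      calc (M : ℝ) < (2 : ℝ) ^ (M : ℝ) := by
            rw [Real.rpow_natCast]
            exact_mod_cast Nat.lt_two_pow_self
        _ ≤ (2 : ℝ) ^ (c * n) :=
            Real.rpow_le_rpow_of_exponent_le (by norm_num) (by linarith)
    exact_mod_cast lt_of_lt_of_le h1 hrep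
  · have h1 : (g : ℕ) ≤ 2 ^ g := Nat.lt_two_pow_self.le
    have h2 : x ≤ 2 ^ (g * n + 1) := by
      have h3 : g ^ n ≤ 2 ^ (g * n) := by
        rw [pow_mul]
        exact Nat.pow_le_pow_left h1 n
      rw [pow_succ]
      omega
    have hn0 : 1 ≤ n := by omega
    have hnR : (1 : ℝ) ≤ n := by exact_mod_cast hn0
    have h3 : (x : ℝ) ≤ (2 : ℝ) ^ ((g : ℝ) * n + 1) := by
      have : (x : ℝ) ≤ ((2 ^ (g * n + 1) : ℕ) : ℝ) := by exact_mod_cast h2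
      refine this.trans (le_of_eq ?_)
      rw [show ((g : ℝ) * n + 1) = ((g * n + 1 : ℕ) : ℝ) by push_cast; ring, Real.rpow_natCast]
      push_cast
      rfl
    calc (x : ℝ) ^ (c / (4 * g)) ≤ ((2 : ℝ) ^ ((g : ℝ) * n + 1)) ^ (c / (4 * g)) :=
          Real.rpow_le_rpow (by positivity) h3 (by positivity)
      _ = (2 : ℝ) ^ (((g : ℝ) * n + 1) * (c / (4 * g))) := by rw [← Real.rpow_mul (by norm_num)]
      _ ≤ (2 : ℝ) ^ (c * n) := by
          refine Real.rpow_le_rpow_of_exponent_le (by norm_num) ?_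
          have h4 : ((g : ℝ) * n + 1) * (c / (4 * g)) = ((g * n + 1) / (4 * g)) * c := by
            field_simp
          rw [h4]
          have h5 : ((g : ℝ) * n + 1) / (4 * g) ≤ n := by
            rw [div_le_iff₀ (by positivity)]
            nlinarith
          nlinarith
      _ ≤ _ := hrep

/-- from `N` to powers of `g` -/
theorem freq_pow {g : ℕ} (hg : 2 ≤ g) {A : Set ℕ} {α ε : ℝ} (hα : 0 ≤ α) (hαε : α < ε)
    (H : ∃ᶠ N : ℕ in atTop, (N : ℝ) ^ ε ≤ ((A ∩ Set.Iio N).ncard : ℝ)) :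
    ∃ᶠ n : ℕ in atTop, (g : ℝ) ^ (α * n) ≤ ((A ∩ Set.Iio (g ^ n)).ncard : ℝ) := by
  have hgR : (2 : ℝ) ≤ g := by exact_mod_cast hg
  have hg0 : (0 : ℝ) < g := by linarith
  rw [frequently_atTop] at H ⊢
  intro M
  obtain ⟨N, hN, hcard⟩ := H (g ^ (M + ⌈ε / (ε - α)⌉₊))
  set n := Nat.log g N + 1 with hn
  have hNn : N < g ^ n := Nat.lt_pow_succ_log_self (by omega) N
  have hN0 : N ≠ 0 := by
    have : 0 < g ^ (M + ⌈ε / (ε - α)⌉₊) := by positivity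
    omega
  have hnN : g ^ (n - 1) ≤ N := by
    rw [hn, Nat.add_sub_cancel]
    exact Nat.pow_log_le_self g hN0
  have hMn : M + ⌈ε / (ε - α)⌉₊ ≤ n := by
    have := Nat.le_log_of_pow_le (show 1 < g by omega) hN
    omega
  refine ⟨n, by omega, ?_⟩
  have h1 : ε / (ε - α) ≤ n := by
    refine (Nat.le_ceil _).trans ?_
    exact_mod_cast (by omega : ⌈ε / (ε - α)⌉₊ ≤ n)
  rw [div_le_iff₀ (by linarith)] at h1
  have h2 : ((A ∩ Set.Iio N).ncard : ℝ) ≤ ((A ∩ Set.Iio (g ^ n)).ncard : ℝ) := by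
    have : (A ∩ Set.Iio N).ncard ≤ (A ∩ Set.Iio (g ^ n)).ncard := by
      refine Set.ncard_le_ncard ?_ ((Set.finite_Iio _).subset Set.inter_subset_right)
      intro x hx
      exact ⟨hx.1, lt_trans hx.2 hNn⟩
    exact_mod_cast this
  refine le_trans ?_ (hcard.trans h2)
  have h3 : ((g : ℝ) ^ (n - 1)) ^ ε ≤ (N : ℝ) ^ ε := by
    refine Real.rpow_le_rpow (by positivity) ?_ (by linarith)
    exact_mod_cast hnN
  refine le_trans ?_ h3
  rw [← Real.rpow_natCast, ← Real.rpow_mul hg0.le]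
  refine Real.rpow_le_rpow_of_exponent_le (by linarith) ?_
  have h4 : ((n - 1 : ℕ) : ℝ) = n - 1 := by
    rw [Nat.cast_sub (by omega)]
    simp
  rw [h4]
  nlinarith

end Pool.Agent.TH521.Dig
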