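import Mathlib
import Pool.Agent.TH521.DigReal

set_option autoImplicit false

/-!
Finite unions of sets closed under digitwise operations.
-/

namespace Pool.Agent.TH521.Dig

open Finset Filter Pool.Agent.H523R4.BC

/-- closed under a digitwise semilattice operation -/
def SemC (g : ℕ) (B : Set ℕ) : Prop :=
  ∃ op : ℕ → ℕ → ℕ → ℕ,
    (∀ j x y z : ℕ, x < g → y < g → z < g → op j x y < g ∧ op j x x = x ∧ op j x y = op j y x ∧
      op j (op j x y) z = op j x (op j y z)) ∧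
    ∀ a ∈ B, ∀ b ∈ B, ∃ d ∈ B, ∀ j, digit g d j = op j (digit g a j) (digit g b j)

/-- closed under the digitwise median -/
def MedC (g : ℕ) (B : Set ℕ) : Prop :=
  ∀ a ∈ B, ∀ b ∈ B, ∀ c ∈ B, ∃ d ∈ B, ∀ j, digit g d j =
    max (min (digit g a j) (digit g b j)) (min (max (digit g a j) (digit g b j)) (digit g c j))

theorem semC_of_medC {g : ℕ} (hg : 2 ≤ g) {B : Set ℕ} (h : MedC g B) : SemC g B := by
  rcases B.eq_empty_or_nonempty with h0 | ⟨c, hc⟩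
  · subst h0
    refine ⟨fun _ x y => min x y, ?_, fun a ha => absurd ha (Set.notMem_empty a)⟩
    intro j x y z hx hy hz
    refine ⟨?_, ?_, ?_, ?_⟩ <;> simp only <;> omega
  · refine ⟨fun j x y => max (min x y) (min (max x y) (digit g c j)), ?_, ?_⟩
    · intro j x y z hx hy hz
      have := digit_lt hg c j
      refine ⟨?_, ?_, ?_, ?_⟩ <;> simp only <;> omega
    · intro a ha b hb
      exact h a ha b hb c hc

theorem semi_freq {g : ℕ} (hg : 2 ≤ g) {ε : ℝ} (hε : 0 < ε) : ∃ c : ℝ, 0 < c ∧ ∀ B : Set ℕ,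
    SemC g B → (∃ᶠ N : ℕ in atTop, (N : ℝ) ^ ε ≤ ((B ∩ Set.Iio N).ncard : ℝ)) →
    ∃ᶠ n : ℕ in atTop, (n : ℝ) ^ c ≤ (rep2 B n : ℝ) := by
  have hgR : (2 : ℝ) ≤ g := by exact_mod_cast hg
  set α := min (ε / 2) 1 with hα
  have hα0 : 0 < α := lt_min (by linarith) one_pos
  have hα1 : α ≤ 1 := min_le_right _ _
  have hαε : α < ε := lt_of_le_of_lt (min_le_left _ _) (by linarith)
  obtain ⟨c, hc, _, hev⟩ := power_semi hg α hα0 hα1
  refine ⟨c / (4 * g), by positivity, fun B hB H => ?_⟩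
  obtain ⟨op, hop, hcl⟩ := hB
  have hop' : IsSemi g op := by
    refine ⟨?_, ?_, ?_, ?_⟩
    · exact fun j x y hx hy => (hop j x y x hx hy hx).1
    · exact fun j x hx => (hop j x x x hx hx hx).2.1
    · exact fun j x y hx hy => (hop j x y x hx hy hx).2.2.1
    · exact fun j x y z hx hy hz => (hop j x y z hx hy hz).2.2.2
  have H2 := freq_pow hg hα0.le hαε H
  refine to_freq hg hc ?_
  refine (H2.and_eventually hev).mono fun n hn => ?_
  refine hn.2 op hop' B hcl (le_trans ?_ hn.1)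
  exact Real.rpow_le_rpow (by norm_num) hgR (by positivity)

theorem aff_freq {g : ℕ} (hg : 2 ≤ g) {ε : ℝ} (hε : (1 - 1 / (g : ℝ)) * Real.log 2 <
    ε * Real.log g) : ∃ c : ℝ, 0 < c ∧ ∀ B : Set ℕ,
    AffC g B → (∃ᶠ N : ℕ in atTop, (N : ℝ) ^ ε ≤ ((B ∩ Set.Iio N).ncard : ℝ)) →
    ∃ᶠ n : ℕ in atTop, (n : ℝ) ^ c ≤ (rep2 B n : ℝ) := by
  have hgR : (2 : ℝ) ≤ g := by exact_mod_cast hg
  have hg0 : (0 : ℝ) < g := by linarith
  have hl2 : 0 < Real.log 2 := Real.log_pos (by norm_num)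
  have hlg : 0 < Real.log g := Real.log_pos (by linarith)
  have h1g : 0 < 1 - 1 / (g : ℝ) := by
    have : 1 / (g : ℝ) < 1 := by
      rw [div_lt_one hg0]
      linarith
    linarith
  set θ := (1 - 1 / (g : ℝ)) * Real.log 2 / Real.log g with hθ
  have hθε : θ < ε := by
    rw [hθ, div_lt_iff₀ hlg]
    exact hε
  have hθ0 : 0 ≤ θ := by positivity
  set α := (θ + ε) / 2 with hα
  have hα1 : (1 - 1 / (g : ℝ)) * Real.log 2 < α * Real.log g := by
    have : θ < α := by linarith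
    rw [hθ, div_lt_iff₀ hlg] at this
    exact this
  obtain ⟨c, hc, hev⟩ := power_aff hg α hα1
  refine ⟨c / (4 * g), by positivity, fun B hB H => ?_⟩
  have H2 := freq_pow hg (by linarith : 0 ≤ α) (by linarith : α < ε) H
  exact to_freq hg hc (H2.mono fun n hn => hev n B hB hn)

theorem aff_freq_two {ε : ℝ} (hε : 5 / 11 < ε) : ∃ c : ℝ, 0 < c ∧ ∀ B : Set ℕ,
    AffC 2 B → (∃ᶠ N : ℕ in atTop, (N : ℝ) ^ ε ≤ ((B ∩ Set.Iio N).ncard : ℝ)) →
    ∃ᶠ n : ℕ in atTop, (n : ℝ) ^ c ≤ (rep2 B n : ℝ) := by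
  set α := (5 / 11 + ε) / 2 with hα
  obtain ⟨c, hc, hev⟩ := power_aff_two α (by linarith)
  refine ⟨c / (4 * (2 : ℕ)), by positivity, fun B hB H => ?_⟩
  have H2 := freq_pow (g := 2) le_rfl (by linarith : 0 ≤ α) (by linarith : α < ε) H
  refine to_freq le_rfl hc ?_
  refine (H2.and_eventually hev).mono fun n hn => ?_
  refine hn.2 B hB ?_
  have := hn.1
  norm_num at this ⊢
  exact this

theorem theta_lt {g : ℕ} (hg : 3 ≤ g) : (1 - 1 / (g : ℝ)) * Real.log 2 <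
    5 / 11 * Real.log g := by
  have h2 := Real.log_two_lt_d9
  have h2' := Real.log_two_gt_d9
  rcases eq_or_ne g 3 with h3 | h3
  · subst h3
    -- 2 ^ 22 < 3 ^ 15
    have h4 : Real.log ((2 : ℝ) ^ 22) < Real.log ((3 : ℝ) ^ 15) :=
      Real.log_lt_log (by norm_num) (by norm_num)
    rw [Real.log_pow, Real.log_pow] at h4
    push_cast at h4 ⊢
    linarith
  · rcases eq_or_ne g 4 with h4 | h4
    · subst h4
      have h5 : Real.log ((4 : ℕ) : ℝ) = 2 * Real.log 2 := by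
        rw [show ((4 : ℕ) : ℝ) = (2 : ℝ) ^ 2 by norm_num, Real.log_pow]
        push_cast
        ring
      rw [h5]
      push_cast
      linarith
    · have h5 : 5 ≤ g := by omega
      have h5R : (5 : ℝ) ≤ g := by exact_mod_cast h5
      have h6 : Real.log 5 ≤ Real.log g := Real.log_le_log (by norm_num) h5R
      -- 2 ^ 11 < 5 ^ 5
      have h7 : Real.log ((2 : ℝ) ^ 11) < Real.log ((5 : ℝ) ^ 5) :=
        Real.log_lt_log (by norm_num) (by norm_num)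
      rw [Real.log_pow, Real.log_pow] at h7
      push_cast at h7
      have h8 : 0 < 1 / (g : ℝ) := by positivity
      nlinarith

/-- closed under some digitwise operation -/
def DigC (g : ℕ) (B : Set ℕ) : Prop := SemC g B ∨ MedC g B ∨ AffC g B

theorem freq_weaken {f : ℕ → ℕ} {c c' : ℝ} (hcc : c' ≤ c)
    (h : ∃ᶠ n : ℕ in atTop, (n : ℝ) ^ c ≤ (f n : ℝ)) :
    ∃ᶠ n : ℕ in atTop, (n : ℝ) ^ c' ≤ (f n : ℝ) := by
  refine (h.and_eventually (eventually_ge_atTop 1)).mono fun n hn => le_trans ?_ hn.1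
  exact Real.rpow_le_rpow_of_exponent_le (by exact_mod_cast hn.2) hcc

theorem dig_freq {g : ℕ} (hg : 2 ≤ g) {ε : ℝ} (hε : 5 / 11 < ε) : ∃ c : ℝ, 0 < c ∧
    ∀ B : Set ℕ, DigC g B →
    (∃ᶠ N : ℕ in atTop, (N : ℝ) ^ ε ≤ ((B ∩ Set.Iio N).ncard : ℝ)) →
    ∃ᶠ n : ℕ in atTop, (n : ℝ) ^ c ≤ (rep2 B n : ℝ) := by
  obtain ⟨c1, hc1, h1⟩ := semi_freq hg (by linarith : 0 < ε)
  obtain ⟨c2, hc2, h2⟩ : ∃ c : ℝ, 0 < c ∧ ∀ B : Set ℕ, AffC g B →
      (∃ᶠ N : ℕ in atTop, (N : ℝ) ^ ε ≤ ((B ∩ Set.Iio N).ncard : ℝ)) →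
      ∃ᶠ n : ℕ in atTop, (n : ℝ) ^ c ≤ (rep2 B n : ℝ) := by
    rcases eq_or_ne g 2 with h | h
    · subst h
      exact aff_freq_two hε
    · refine aff_freq hg (lt_trans (theta_lt (by omega)) ?_)
      refine mul_lt_mul_of_pos_right hε (Real.log_pos ?_)
      exact_mod_cast (by omega : 1 < g)
  refine ⟨min c1 c2, lt_min hc1 hc2, fun B hB H => ?_⟩
  rcases hB with hB | hB | hB
  · exact freq_weaken (min_le_left _ _) (h1 B hB H)
  · exact freq_weaken (min_le_left _ _) (h1 B (semC_of_medC hg hB) H)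
  · exact freq_weaken (min_le_right _ _) (h2 B hB H)

theorem dig_freq_unif (G : ℕ) {ε : ℝ} (hε : 5 / 11 < ε) : ∃ c : ℝ, 0 < c ∧
    ∀ g, 2 ≤ g → g ≤ G → ∀ B : Set ℕ, DigC g B →
    (∃ᶠ N : ℕ in atTop, (N : ℝ) ^ ε ≤ ((B ∩ Set.Iio N).ncard : ℝ)) →
    ∃ᶠ n : ℕ in atTop, (n : ℝ) ^ c ≤ (rep2 B n : ℝ) := by
  induction G with
  | zero => exact ⟨1, one_pos, fun g h1 h2 => by omega⟩
  | succ G ih =>
    obtain ⟨c, hc, h⟩ := ih
    by_cases hG : 2 ≤ G + 1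
    · obtain ⟨c', hc', h'⟩ := dig_freq hG hε
      refine ⟨min c c', lt_min hc hc', fun g h1 h2 B hB H => ?_⟩
      rcases Nat.lt_or_ge g (G + 1) with h3 | h3
      · exact freq_weaken (min_le_left _ _) (h g h1 (by omega) B hB H)
      · have h4 : g = G + 1 := by omega
        subst h4
        exact freq_weaken (min_le_right _ _) (h' B hB H)
    · exact ⟨c, hc, fun g h1 h2 => by omega⟩

/-- finite unions -/
theorem union_freq (G : ℕ) {ε : ℝ} (hε : 5 / 11 < ε) : ∃ c : ℝ, 0 < c ∧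
    ∀ (A : Set ℕ) (m : ℕ) (B : Fin m → Set ℕ) (g : Fin m → ℕ), (∀ i, 2 ≤ g i ∧ g i ≤ G) →
    (∀ i, DigC (g i) (B i)) → A = ⋃ i, B i →
    (∃ᶠ N : ℕ in atTop, (N : ℝ) ^ ε ≤ ((A ∩ Set.Iio N).ncard : ℝ)) →
    ∃ᶠ n : ℕ in atTop, (n : ℝ) ^ c ≤ (rep2 A n : ℝ) := by
  set ε' := (5 / 11 + ε) / 2 with hε'
  obtain ⟨c, hc, h⟩ := dig_freq_unif G (show 5 / 11 < ε' by linarith)
  refine ⟨c, hc, fun A m B g hg hB hAB H => ?_⟩
  have h1 : ∃ᶠ N : ℕ in atTop, ∃ i, (N : ℝ) ^ ε' ≤ ((B i ∩ Set.Iio N).ncard : ℝ) := by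
    have hev : ∀ᶠ N : ℕ in atTop, (m : ℝ) ≤ (N : ℝ) ^ (ε - ε') :=
      ((tendsto_rpow_atTop (by linarith : 0 < ε - ε')).comp
        tendsto_natCast_atTop_atTop).eventually_ge_atTop _
    refine ((H.and_eventually hev).and_eventually (eventually_ge_atTop 1)).mono fun N hN => ?_
    obtain ⟨⟨hN1, hN2⟩, hN3⟩ := hN
    have hN0 : (0 : ℝ) < N := by exact_mod_cast hN3
    have hpos : 0 < (A ∩ Set.Iio N).ncard := by
      have : (0 : ℝ) < (N : ℝ) ^ ε := Real.rpow_pos_of_pos hN0 _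
      exact_mod_cast lt_of_lt_of_le this hN1
    obtain ⟨i, hi⟩ := exists_part hAB N hpos
    refine ⟨i, ?_⟩
    have hi' : ((A ∩ Set.Iio N).ncard : ℝ) ≤ m * (B i ∩ Set.Iio N).ncard := by exact_mod_cast hi
    have h2 : (N : ℝ) ^ ε = (N : ℝ) ^ (ε - ε') * (N : ℝ) ^ ε' := by
      rw [← Real.rpow_add hN0]
      congr 1
      ring
    by_contra hcon
    push Not at hcon
    have h3 : (m : ℝ) * (B i ∩ Set.Iio N).ncard < (N : ℝ) ^ (ε - ε') * (N : ℝ) ^ ε' := by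
      rcases Nat.eq_zero_or_pos m with h0 | h0
      · subst h0
        exact i.elim0
      · have hm : (0 : ℝ) < m := by exact_mod_cast h0
        calc (m : ℝ) * (B i ∩ Set.Iio N).ncard < m * (N : ℝ) ^ ε' :=
              mul_lt_mul_of_pos_left hcon hm
          _ ≤ _ := mul_le_mul_of_nonneg_right hN2 (by positivity)
    linarith
  have h2 : ∃ i, ∃ᶠ N : ℕ in atTop, (N : ℝ) ^ ε' ≤ ((B i ∩ Set.Iio N).ncard : ℝ) := by
    by_contra hcon
    push Not at hcon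
    have h3 := eventually_all.2 hcon
    obtain ⟨N, hN1, hN2⟩ := (h1.and_eventually h3).exists
    obtain ⟨i, hi⟩ := hN1
    exact absurd hi (not_le.2 (hN2 i))
  obtain ⟨i, hi⟩ := h2
  have h3 := h (g i) (hg i).1 (hg i).2 (B i) (hB i) hi
  refine h3.mono fun n hn => hn.trans ?_
  have : rep2 (B i) n ≤ rep2 A n := rep2_mono (by rw [hAB]; exact Set.subset_iUnion B i) n
  exact_mod_cast this

/-- a basis has at least `N ^ ε` elements below `N`, for large `N`, if `ε < 1/2` -/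
theorem count_basis {A : Set ℕ} (h : ∀ᶠ n : ℕ in atTop, 1 ≤ rep2 A n) {ε : ℝ} (hε : ε < 1 / 2) :
    ∃ᶠ N : ℕ in atTop, (N : ℝ) ^ ε ≤ ((A ∩ Set.Iio N).ncard : ℝ) := by
  classical
  refine Eventually.frequently ?_
  obtain ⟨n0, hn0⟩ := eventually_atTop.1 h
  have hev : ∀ᶠ N : ℕ in atTop, (2 : ℝ) ≤ (N : ℝ) ^ (1 - 2 * ε) :=
    ((tendsto_rpow_atTop (by linarith : 0 < 1 - 2 * ε)).comp
      tendsto_natCast_atTop_atTop).eventually_ge_atTop _
  filter_upwards [hev, eventually_ge_atTop (2 * n0 + 2)] with N hN1 hN2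
  have hN0 : (0 : ℝ) < N := by exact_mod_cast (by omega : 0 < N)
  have hfin : (A ∩ Set.Iio N).Finite := (Set.finite_Iio _).subset fun a ha => ha.2
  set S := hfin.toFinset with hS
  have hSc : (A ∩ Set.Iio N).ncard = S.card := Set.ncard_eq_toFinset_card _ hfin
  have hcov : Finset.Ico n0 N ⊆ (S ×ˢ S).image (fun p => p.1 + p.2) := by
    intro n hn
    rw [Finset.mem_Ico] at hn
    have h1 := hn0 n hn.1
    have h2 : {p : ℕ × ℕ | p.1 ∈ A ∧ p.2 ∈ A ∧ p.1 + p.2 = n}.Nonempty := by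
      rw [← Set.ncard_pos (rep2_finite A n)]
      exact h1
    obtain ⟨p, hp1, hp2, hp3⟩ := h2
    rw [mem_image]
    refine ⟨p, ?_, hp3⟩
    rw [mem_product, hS, Set.Finite.mem_toFinset, Set.Finite.mem_toFinset]
    exact ⟨⟨hp1, by simp only [Set.mem_Iio]; omega⟩, ⟨hp2, by simp only [Set.mem_Iio]; omega⟩⟩
  have h3 := (card_le_card hcov).trans card_image_le
  rw [Nat.card_Ico, card_product] at h3
  have h4 : (N : ℝ) ≤ 2 * ((S.card : ℝ) * S.card) := by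
    have : N ≤ 2 * (S.card * S.card) := by omega
    exact_mod_cast this
  rw [hSc]
  have h5 : ((N : ℝ) ^ ε) ^ 2 ≤ (S.card : ℝ) ^ 2 := by
    have h6 : ((N : ℝ) ^ ε) ^ 2 * (N : ℝ) ^ (1 - 2 * ε) = N := by
      rw [← Real.rpow_natCast, ← Real.rpow_mul hN0.le, ← Real.rpow_add hN0]
      have : ε * (2 : ℕ) + (1 - 2 * ε) = 1 := by push_cast; ring
      rw [this, Real.rpow_one]
    have h7 : ((N : ℝ) ^ ε) ^ 2 * 2 ≤ N := by
      calc ((N : ℝ) ^ ε) ^ 2 * 2 ≤ ((N : ℝ) ^ ε) ^ 2 * (N : ℝ) ^ (1 - 2 * ε) :=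
            mul_le_mul_of_nonneg_left hN1 (by positivity)
        _ = N := h6
    nlinarith
  exact le_of_sq_le_sq h5 (Nat.cast_nonneg _)

/-- an infinite set whose `n`-th element is at most `C n ^ 2` for infinitely many `n` -/
theorem count_square {A : Set ℕ} (hA : A.Infinite) {C : ℝ}
    (h : ∃ᶠ n : ℕ in atTop, (Nat.nth (· ∈ A) n : ℝ) ≤ C * ((n : ℝ) + 1) ^ 2) {ε : ℝ}
    (hε0 : 0 ≤ ε) (hε : ε < 1 / 2) :
    ∃ᶠ N : ℕ in atTop, (N : ℝ) ^ ε ≤ ((A ∩ Set.Iio N).ncard : ℝ) := by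
  classical
  have hA' : (Set.ofPred (fun x => x ∈ A)).Infinite := hA
  have hcount : ∀ n, (A ∩ Set.Iio (Nat.nth (· ∈ A) n + 1)).ncard = n + 1 := by
    intro n
    have h1 : Nat.count (· ∈ A) (Nat.nth (· ∈ A) n + 1) = n + 1 :=
      Nat.count_nth_succ_of_infinite hA' n
    rw [Nat.count_eq_card_filter_range] at h1
    rw [← h1, ← Set.ncard_coe_finset]
    congr 1
    ext x
    simp only [Set.mem_inter_iff, Set.mem_Iio, coe_filter, mem_range, Set.mem_ofPred_eq]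
    exact and_comm
  have hge : ∀ n, n ≤ Nat.nth (· ∈ A) n := fun n => (Nat.nth_strictMono hA').id_le n
  set D : ℝ := |C| + 1 with hD
  have hD0 : 0 < D := by positivity
  have hev : ∀ᶠ n : ℕ in atTop, D ^ ε ≤ ((n : ℝ) + 1) ^ (1 - 2 * ε) := by
    have h1 : Tendsto (fun n : ℕ => ((n : ℝ) + 1)) atTop atTop :=
      tendsto_atTop_add_const_right _ _ tendsto_natCast_atTop_atTop
    exact ((tendsto_rpow_atTop (by linarith : 0 < 1 - 2 * ε)).comp h1).eventually_ge_atTop _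
  have h2 := h.and_eventually hev
  rw [frequently_atTop] at h2 ⊢
  intro M
  obtain ⟨n, hn, hn1, hn2⟩ := h2 M
  refine ⟨Nat.nth (· ∈ A) n + 1, by have := hge n; omega, ?_⟩
  rw [hcount n]
  push_cast
  have hn0 : (0 : ℝ) ≤ n := Nat.cast_nonneg n
  have hn3 : (0 : ℝ) < (n : ℝ) + 1 := by linarith
  have h3 : (Nat.nth (· ∈ A) n : ℝ) + 1 ≤ D * ((n : ℝ) + 1) ^ 2 := by
    have h4 : C * ((n : ℝ) + 1) ^ 2 ≤ |C| * ((n : ℝ) + 1) ^ 2 :=
      mul_le_mul_of_nonneg_right (le_abs_self C) (by positivity)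
    have h5 : (1 : ℝ) ≤ ((n : ℝ) + 1) ^ 2 := by nlinarith
    rw [hD]
    nlinarith
  calc ((Nat.nth (· ∈ A) n : ℝ) + 1) ^ ε ≤ (D * ((n : ℝ) + 1) ^ 2) ^ ε :=
        Real.rpow_le_rpow (by positivity) h3 hε0
    _ = D ^ ε * ((n : ℝ) + 1) ^ (2 * ε) := by
        rw [Real.mul_rpow hD0.le (by positivity), ← Real.rpow_natCast, ← Real.rpow_mul hn3.le]
        norm_num
    _ ≤ ((n : ℝ) + 1) ^ (1 - 2 * ε) * ((n : ℝ) + 1) ^ (2 * ε) :=
        mul_le_mul_of_nonneg_right hn2 (by positivity)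
    _ = (n : ℝ) + 1 := by
        rw [← Real.rpow_add hn3]
        have : 1 - 2 * ε + 2 * ε = 1 := by ring
        rw [this, Real.rpow_one]

end Pool.Agent.TH521.Dig
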