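import Mathlib
import Pool.Agent.TH521.DigFinal

set_option autoImplicit false

/-!
Bases of order `h` which are finite unions of sets closed under digitwise operations.
-/

namespace Pool.Agent.TH521.Dig

open Finset Filter Pool.Agent.H523R4.BC

/-- many representations as a sum of `h` elements for sets closed under `a - b + c` -/
theorem main_aff_h {g h : ℕ} (hg : 2 ≤ g) (hh : 1 ≤ h) {A : Set ℕ} (hA : AffC g A) (n : ℕ)
    (hne : (A ∩ Set.Iio (g ^ n)).Nonempty) :
    ∃ x < h * g ^ n, ((A ∩ Set.Iio (g ^ n)).ncard) ^ (h - 1) ≤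
      h ^ n * (h.factorial * (reps A h x).ncard) := by
  classical
  obtain ⟨k, rfl⟩ : ∃ k, h = k + 1 := ⟨h - 1, by omega⟩
  rw [Nat.add_sub_cancel]
  have hg0 : 0 < g := by omega
  have hfin : (A ∩ Set.Iio (g ^ n)).Finite := (Set.finite_Iio _).subset fun a ha => ha.2
  set An := hfin.toFinset with hAn
  have hmemAn : ∀ a, a ∈ An ↔ a ∈ A ∧ a < g ^ n := by
    intro a
    rw [hAn, Set.Finite.mem_toFinset]
    rfl
  have hAnc : (A ∩ Set.Iio (g ^ n)).ncard = An.card := Set.ncard_eq_toFinset_card _ hfin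
  rw [hAnc]
  obtain ⟨z, hz'⟩ := hne
  have hz : z ∈ An := (hmemAn z).2 hz'
  have hlt : ∀ a j, digit g a j < g := digit_lt hg
  -- the last summand
  have hlast : ∀ (l : ℕ) (f : Fin l → ℕ), (∀ i, f i ∈ An) → ∃ y ∈ An, ∀ j,
      (digit g y j + ∑ i, digit g (f i) j) % g = ((l + 1) * digit g z j) % g := by
    intro l
    induction l with
    | zero =>
      intro f _
      exact ⟨z, hz, fun j => by simp⟩
    | succ l ih =>
      intro f hf
      obtain ⟨y, hy, hyd⟩ := ih (fun i => f i.castSucc) (fun i => hf _)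
      have h1 := (hmemAn _).1 (hf (Fin.last l))
      have h2 := (hmemAn _).1 hy
      have h3 := (hmemAn _).1 hz
      obtain ⟨d, hd, hdd⟩ := hA y h2.1 _ h1.1 z h3.1
      refine ⟨d, ?_, fun j => ?_⟩
      · rw [hmemAn]
        refine ⟨hd, lt_of_digits hg fun j hj => ?_⟩
        have h4 := hdd j
        rw [digit_eq_zero hg h2.2 hj, digit_eq_zero hg h1.2 hj, digit_eq_zero hg h3.2 hj] at h4
        simpa [Nat.mod_eq_of_lt (hlt d j)] using h4
      · rw [Fin.sum_univ_castSucc]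
        have e1 : digit g d j + (∑ i : Fin l, digit g (f i.castSucc) j +
            digit g (f (Fin.last l)) j) ≡ (digit g d j + digit g (f (Fin.last l)) j) +
            ∑ i : Fin l, digit g (f i.castSucc) j [MOD g] := by
          have : digit g d j + (∑ i : Fin l, digit g (f i.castSucc) j +
            digit g (f (Fin.last l)) j) = (digit g d j + digit g (f (Fin.last l)) j) +
            ∑ i : Fin l, digit g (f i.castSucc) j := by ring
          rw [this]
        have e2 : (digit g d j + digit g (f (Fin.last l)) j) +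
            ∑ i : Fin l, digit g (f i.castSucc) j ≡ (digit g y j + digit g z j) +
            ∑ i : Fin l, digit g (f i.castSucc) j [MOD g] := Nat.ModEq.add_right _ (hdd j)
        have e3 : (digit g y j + digit g z j) + ∑ i : Fin l, digit g (f i.castSucc) j ≡
            (l + 1) * digit g z j + digit g z j [MOD g] := by
          have : (digit g y j + digit g z j) + ∑ i : Fin l, digit g (f i.castSucc) j =
              (digit g y j + ∑ i : Fin l, digit g (f i.castSucc) j) + digit g z j := by ring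
          rw [this]
          exact Nat.ModEq.add_right _ (hyd j)
        have e4 : (l + 1) * digit g z j + digit g z j = (l + 1 + 1) * digit g z j := by ring
        rw [e4] at e3
        exact (e1.trans e2).trans e3
  have hlast' : ∀ f : Fin k → ℕ, ∃ y, (∀ i, f i ∈ An) → y ∈ An ∧ ∀ j,
      (digit g y j + ∑ i, digit g (f i) j) % g = ((k + 1) * digit g z j) % g := by
    intro f
    by_cases hf : ∀ i, f i ∈ An
    · obtain ⟨y, hy, hyd⟩ := hlast k f hf
      exact ⟨y, fun _ => ⟨hy, hyd⟩⟩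
    · exact ⟨0, fun h => absurd h hf⟩
  choose y hy using hlast'
  set F : Finset (Fin k → ℕ) := Fintype.piFinset (fun _ => An) with hF
  have hFm : ∀ f, f ∈ F ↔ ∀ i, f i ∈ An := fun f => Fintype.mem_piFinset
  have hFc : F.card = An.card ^ k := by
    rw [hF, Fintype.card_piFinset, prod_const, card_univ, Fintype.card_fin]
  set σ : (Fin k → ℕ) → ℕ → ℕ := fun f j => digit g (y f) j + ∑ i, digit g (f i) j with hσ
  have hσlt : ∀ f j, σ f j < (k + 1) * g := by
    intro f j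
    have h1 : ∑ i, digit g (f i) j ≤ ∑ _i : Fin k, (g - 1) :=
      sum_le_sum fun i _ => by have := hlt (f i) j; omega
    rw [sum_const, card_univ, Fintype.card_fin, smul_eq_mul] at h1
    have h2 := hlt (y f) j
    have h3 : k * (g - 1) ≤ k * g := Nat.mul_le_mul_left _ (by omega)
    have h4 : (k + 1) * g = k * g + g := by ring
    rw [h4]
    show digit g (y f) j + ∑ i, digit g (f i) j < _
    omega
  have hSsum : ∀ f ∈ F, y f + ∑ i, f i = ∑ j ∈ range n, g ^ j * σ f j := by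
    intro f hf
    have hf' := (hFm f).1 hf
    have h1 : ∀ a ∈ An, a = ∑ j ∈ range n, g ^ j * digit g a j := by
      intro a ha
      rw [← mod_eq_digits, Nat.mod_eq_of_lt ((hmemAn a).1 ha).2]
    have h2 : ∑ i, f i = ∑ i, ∑ j ∈ range n, g ^ j * digit g (f i) j :=
      sum_congr rfl fun i _ => h1 _ (hf' i)
    rw [h2, sum_comm]
    have h3 := h1 _ (hy f hf').1
    calc y f + ∑ j ∈ range n, ∑ i, g ^ j * digit g (f i) j
        = ∑ j ∈ range n, g ^ j * digit g (y f) j +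
          ∑ j ∈ range n, ∑ i, g ^ j * digit g (f i) j := by rw [← h3]
      _ = ∑ j ∈ range n, g ^ j * σ f j := by
          rw [← sum_add_distrib]
          refine sum_congr rfl fun j _ => ?_
          rw [hσ]
          simp only
          rw [mul_add, mul_sum]
  set κ : (Fin k → ℕ) → (Fin n → Fin (k + 1)) := fun f j =>
    ⟨σ f j / g, Nat.div_lt_of_lt_mul (by rw [mul_comm]; exact hσlt f j)⟩ with hκ
  have hsum : ∀ f ∈ F, ∀ f' ∈ F, κ f = κ f' → y f + ∑ i, f i = y f' + ∑ i, f' i := by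
    intro f hf f' hf' hk
    rw [hSsum f hf, hSsum f' hf']
    refine sum_congr rfl fun j hj => ?_
    congr 1
    have h1 := (hy f ((hFm f).1 hf)).2 j
    have h2 := (hy f' ((hFm f').1 hf')).2 j
    have h3 : σ f j / g = σ f' j / g := by
      have := congrArg (fun v => ((v ⟨j, mem_range.1 hj⟩ : Fin (k + 1)) : ℕ)) hk
      simpa [hκ] using this
    have h4 : σ f j % g = σ f' j % g := h1.trans h2.symm
    rw [← Nat.div_add_mod (σ f j) g, ← Nat.div_add_mod (σ f' j) g, h3, h4]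
  obtain ⟨Y, hY, hYm⟩ := exists_max_image (univ : Finset (Fin n → Fin (k + 1)))
    (fun Y => (F.filter (fun f => κ f = Y)).card) ⟨fun _ => 0, mem_univ _⟩
  have hcard := card_le_mul_card_image_of_maps_to (s := F)
      (t := (univ : Finset (Fin n → Fin (k + 1))))
      (f := κ) (fun a _ => mem_univ _)
      (F.filter (fun f => κ f = Y)).card (fun s hs => hYm s hs)
  rw [card_univ, Fintype.card_fun, Fintype.card_fin, Fintype.card_fin, hFc] at hcard
  set F0 := F.filter (fun f => κ f = Y) with hF0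
  have hF0ne : F0.Nonempty := by
    rw [← card_pos]
    by_contra hcon
    have h1 : F0.card = 0 := by omega
    rw [h1, zero_mul] at hcard
    have : 0 < An.card ^ k := pow_pos (card_pos.2 ⟨z, hz⟩) _
    omega
  obtain ⟨f0, hf0⟩ := hF0ne
  rw [hF0, mem_filter] at hf0
  refine ⟨y f0 + ∑ i, f0 i, ?_, ?_⟩
  · have h1 := ((hmemAn _).1 (hy f0 ((hFm f0).1 hf0.1)).1).2
    have h2 : ∑ i, f0 i ≤ ∑ _i : Fin k, g ^ n :=
      sum_le_sum fun i _ => (((hmemAn _).1 ((hFm f0).1 hf0.1 i)).2).le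
    rw [sum_const, card_univ, Fintype.card_fin, smul_eq_mul] at h2
    have h3 : (k + 1) * g ^ n = k * g ^ n + g ^ n := by ring
    omega
  · -- from tuples to multisets
    set L : (Fin k → ℕ) → List ℕ := fun f => y f :: List.ofFn f with hL
    have hLinj : Function.Injective L := by
      intro f f' hff
      rw [hL] at hff
      simp only [List.cons.injEq] at hff
      exact List.ofFn_injective hff.2
    have hfib : F0.card ≤ (k + 1).factorial *
        (F0.image (fun f => (L f : Multiset ℕ))).card := by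
      refine card_le_mul_card_image F0 _ fun s hs => ?_
      rw [mem_image] at hs
      obtain ⟨f1, _, hf1⟩ := hs
      have h1 : (F0.filter (fun f => (L f : Multiset ℕ) = s)).card ≤
          ((L f1).permutations.toFinset).card := by
        refine card_le_card_of_injOn L ?_ hLinj.injOn
        intro f hf
        rw [mem_coe, mem_filter] at hf
        rw [mem_coe, List.mem_toFinset, List.mem_permutations]
        have h2 : (L f : Multiset ℕ) = (L f1 : Multiset ℕ) := hf.2.trans hf1.symm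
        exact Multiset.coe_eq_coe.1 h2
      refine h1.trans ((List.toFinset_card_le _).trans ?_)
      rw [List.length_permutations]
      simp [hL]
    have himg : (F0.image (fun f => (L f : Multiset ℕ))).card ≤
        (reps A (k + 1) (y f0 + ∑ i, f0 i)).ncard := by
      rw [← Set.ncard_coe_finset]
      refine Set.ncard_le_ncard ?_ (reps_finite _ _ _)
      intro s hs
      rw [mem_coe, mem_image] at hs
      obtain ⟨f, hf, rfl⟩ := hs
      rw [hF0, mem_filter] at hf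
      have hf' := (hFm f).1 hf.1
      refine ⟨?_, ?_, ?_⟩
      · simp [hL]
      · intro a ha
        rw [hL] at ha
        simp only [Multiset.mem_coe, List.mem_cons, List.mem_ofFn] at ha
        rcases ha with rfl | ⟨i, rfl⟩
        · exact ((hmemAn _).1 (hy f hf').1).1
        · exact ((hmemAn _).1 (hf' i)).1
      · rw [hL]
        simp only [Multiset.sum_coe, List.sum_cons, List.sum_ofFn]
        exact hsum f hf.1 f0 hf0.1 (hf.2.trans hf0.2.symm)
    calc An.card ^ k ≤ F0.card * (k + 1) ^ n := hcard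
      _ ≤ ((k + 1).factorial * (reps A (k + 1) (y f0 + ∑ i, f0 i)).ncard) * (k + 1) ^ n :=
          Nat.mul_le_mul_right _ (hfib.trans (Nat.mul_le_mul_left _ himg))
      _ = _ := by ring

/-- `h`-fold sums, linear congruences on the digits -/
theorem power_aff_h {g h : ℕ} (hg : 2 ≤ g) (hh : 2 ≤ h) (α : ℝ) (hα : Real.log h <
    α * ((h : ℝ) - 1) * Real.log g) : ∃ c : ℝ, 0 < c ∧ ∀ᶠ n : ℕ in atTop, ∀ A : Set ℕ, AffC g A →
      (g : ℝ) ^ (α * n) ≤ ((A ∩ Set.Iio (g ^ n)).ncard : ℝ) →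
      ∃ x < h * g ^ n, (2 : ℝ) ^ (c * n) ≤ (reps A h x).ncard := by
  have hgR : (2 : ℝ) ≤ g := by exact_mod_cast hg
  have hg0 : (0 : ℝ) < g := by linarith
  have hhR : (2 : ℝ) ≤ h := by exact_mod_cast hh
  have hh0 : (0 : ℝ) < h := by linarith
  have hl2 : 0 < Real.log 2 := Real.log_pos (by norm_num)
  set δ := α * ((h : ℝ) - 1) * Real.log g - Real.log h with hδ
  have hδ0 : 0 < δ := by linarith
  refine ⟨δ / (2 * Real.log 2), by positivity, ?_⟩
  have hev : ∀ᶠ n : ℕ in atTop, (h.factorial : ℝ) ≤ Real.exp (δ / 2 * n) := by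
    have h1 : Tendsto (fun n : ℕ => Real.exp (δ / 2 * n)) atTop atTop :=
      Real.tendsto_exp_atTop.comp
        (Tendsto.const_mul_atTop (by positivity) tendsto_natCast_atTop_atTop)
    exact h1.eventually_ge_atTop _
  filter_upwards [hev] with n hn A hA hcard
  have hne : (A ∩ Set.Iio (g ^ n)).Nonempty := by
    rw [Set.nonempty_iff_ne_empty]
    intro h0
    rw [h0, Set.ncard_empty, Nat.cast_zero] at hcard
    have : (0 : ℝ) < (g : ℝ) ^ (α * n) := Real.rpow_pos_of_pos hg0 _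
    linarith
  obtain ⟨x, hx, hrep⟩ := main_aff_h hg (by omega : 1 ≤ h) hA n hne
  refine ⟨x, hx, ?_⟩
  have h1 : ((A ∩ Set.Iio (g ^ n)).ncard : ℝ) ^ (h - 1) ≤
      (h : ℝ) ^ n * (h.factorial * (reps A h x).ncard) := by exact_mod_cast hrep
  have h2 : ((g : ℝ) ^ (α * n)) ^ (h - 1) ≤ (h : ℝ) ^ n * (h.factorial * (reps A h x).ncard) :=
    (pow_le_pow_left₀ (by positivity) hcard _).trans h1
  have h3 : ((g : ℝ) ^ (α * n)) ^ (h - 1) = Real.exp (α * ((h : ℝ) - 1) * Real.log g * n) := by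
    rw [← Real.rpow_natCast, ← Real.rpow_mul hg0.le, Real.rpow_def_of_pos hg0]
    congr 1
    rw [Nat.cast_sub (by omega)]
    push_cast
    ring
  have h4 : (h : ℝ) ^ n = Real.exp (Real.log h * n) := by
    rw [mul_comm, Real.exp_nat_mul, Real.exp_log hh0]
  rw [h3, h4] at h2
  have h5 : (2 : ℝ) ^ (δ / (2 * Real.log 2) * n) = Real.exp (δ / 2 * n) := by
    rw [Real.rpow_def_of_pos (by norm_num)]
    congr 1
    field_simp
  rw [h5]
  have h6 : Real.exp (α * ((h : ℝ) - 1) * Real.log g * n) =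
      Real.exp (Real.log h * n) * (Real.exp (δ / 2 * n) * Real.exp (δ / 2 * n)) := by
    rw [← Real.exp_add, ← Real.exp_add]
    congr 1
    rw [hδ]
    ring
  rw [h6] at h2
  have h7 := le_of_mul_le_mul_left h2 (Real.exp_pos _)
  have h8 : (0 : ℝ) ≤ ((reps A h x).ncard : ℝ) := Nat.cast_nonneg _
  have h9 : Real.exp (δ / 2 * n) * Real.exp (δ / 2 * n) ≤
      Real.exp (δ / 2 * n) * ((reps A h x).ncard : ℝ) :=
    h7.trans (mul_le_mul_of_nonneg_right hn h8)
  exact le_of_mul_le_mul_left h9 (Real.exp_pos _)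

/-- from powers of `g` to powers of `x`, for a general function -/
theorem to_freq_gen {g C : ℕ} (hg : 2 ≤ g) {r : ℕ → ℕ} {c : ℝ} (hc : 0 < c)
    (H : ∃ᶠ n : ℕ in atTop, ∃ x < C * g ^ n, (2 : ℝ) ^ (c * n) ≤ r x) :
    ∃ᶠ x : ℕ in atTop, (x : ℝ) ^ (c / (g + C)) ≤ (r x : ℝ) := by
  have hgR : (2 : ℝ) ≤ g := by exact_mod_cast hg
  have hC0 : (0 : ℝ) ≤ C := Nat.cast_nonneg C
  have hgC : (0 : ℝ) < (g : ℝ) + C := by linarith
  refine freq (r := r) fun M => ?_
  rw [frequently_atTop] at H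
  obtain ⟨n, hn, x, hx, hrep⟩ := H (1 + ⌈((M : ℝ) + 1) / c⌉₊)
  have hn1 : ((M : ℝ) + 1) / c ≤ n := by
    refine (Nat.le_ceil _).trans ?_
    exact_mod_cast (by omega : ⌈((M : ℝ) + 1) / c⌉₊ ≤ n)
  have hn1' : (M : ℝ) + 1 ≤ c * n := by
    rw [div_le_iff₀ hc] at hn1
    linarith
  refine ⟨x, ?_, ?_⟩
  · have h1 : (M : ℝ) < (2 : ℝ) ^ (c * n) := by
      calc (M : ℝ) < (2 : ℝ) ^ (M : ℝ) := by
            rw [Real.rpow_natCast]
            exact_mod_cast Nat.lt_two_pow_self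
        _ ≤ (2 : ℝ) ^ (c * n) :=
            Real.rpow_le_rpow_of_exponent_le (by norm_num) (by linarith)
    exact_mod_cast lt_of_lt_of_le h1 hrep
  · have h1 : (g : ℕ) ≤ 2 ^ g := Nat.lt_two_pow_self.le
    have h1C : (C : ℕ) ≤ 2 ^ C := Nat.lt_two_pow_self.le
    have h2 : x ≤ 2 ^ (C + g * n) := by
      have h3 : g ^ n ≤ 2 ^ (g * n) := by
        rw [pow_mul]
        exact Nat.pow_le_pow_left h1 n
      rw [pow_add]
      exact hx.le.trans (Nat.mul_le_mul h1C h3)
    have hn0 : 1 ≤ n := by omega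
    have hnR : (1 : ℝ) ≤ n := by exact_mod_cast hn0
    have h3 : (x : ℝ) ≤ (2 : ℝ) ^ ((C : ℝ) + g * n) := by
      have : (x : ℝ) ≤ ((2 ^ (C + g * n) : ℕ) : ℝ) := by exact_mod_cast h2
      refine this.trans (le_of_eq ?_)
      rw [show ((C : ℝ) + g * n) = ((C + g * n : ℕ) : ℝ) by push_cast; ring, Real.rpow_natCast]
      push_cast
      rfl
    calc (x : ℝ) ^ (c / (g + C)) ≤ ((2 : ℝ) ^ ((C : ℝ) + g * n)) ^ (c / (g + C)) :=
          Real.rpow_le_rpow (by positivity) h3 (by positivity)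
      _ = (2 : ℝ) ^ (((C : ℝ) + g * n) * (c / (g + C))) := by rw [← Real.rpow_mul (by norm_num)]
      _ ≤ (2 : ℝ) ^ (c * n) := by
          refine Real.rpow_le_rpow_of_exponent_le (by norm_num) ?_
          have h4 : ((C : ℝ) + g * n) ≤ (g + C) * n := by nlinarith
          calc ((C : ℝ) + g * n) * (c / (g + C)) ≤ ((g + C) * n) * (c / (g + C)) :=
                mul_le_mul_of_nonneg_right h4 (by positivity)
            _ = c * n := by
                field_simp
      _ ≤ _ := hrep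

/-- from two summands to `h` summands -/
theorem rep2_to_reps {A : Set ℕ} {h : ℕ} (hh : 2 ≤ h) {a0 : ℕ} (ha0 : a0 ∈ A) {c : ℝ} (hc : 0 < c)
    (H : ∃ᶠ x : ℕ in atTop, (x : ℝ) ^ c ≤ (rep2 A x : ℝ)) :
    ∃ᶠ x : ℕ in atTop, (x : ℝ) ^ (c / 2) ≤ ((reps A h x).ncard : ℝ) := by
  set K := (h - 2) * a0 with hK
  have hev : ∀ᶠ x : ℕ in atTop, 2 * (2 : ℝ) ^ (c / 2) ≤ (x : ℝ) ^ (c / 2) :=
    ((tendsto_rpow_atTop (by positivity : 0 < c / 2)).comp
      tendsto_natCast_atTop_atTop).eventually_ge_atTop _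
  have H2 := (H.and_eventually hev).and_eventually (eventually_ge_atTop (K + 1))
  rw [frequently_atTop] at H2 ⊢
  intro X
  obtain ⟨x, hx, ⟨hx1, hx2⟩, hx3⟩ := H2 X
  refine ⟨x + K, by omega, ?_⟩
  have hle := rep2_le hh ha0 x
  rw [← hK] at hle
  have hle' : (rep2 A x : ℝ) ≤ 2 * ((reps A h (x + K)).ncard : ℝ) := by exact_mod_cast hle
  have hx0 : (0 : ℝ) < x := by exact_mod_cast (by omega : 0 < x)
  have h1 : ((x + K : ℕ) : ℝ) ≤ 2 * x := by
    have : x + K ≤ 2 * x := by omega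
    exact_mod_cast this
  have h2 : (x : ℝ) ^ c = (x : ℝ) ^ (c / 2) * (x : ℝ) ^ (c / 2) := by
    rw [← Real.rpow_add hx0]
    congr 1
    ring
  have h3 : ((x + K : ℕ) : ℝ) ^ (c / 2) ≤ (2 : ℝ) ^ (c / 2) * (x : ℝ) ^ (c / 2) := by
    rw [← Real.mul_rpow (by norm_num) hx0.le]
    exact Real.rpow_le_rpow (by positivity) h1 (by positivity)
  have h4 : 0 < (x : ℝ) ^ (c / 2) := Real.rpow_pos_of_pos hx0 _
  have h5 : 2 * ((2 : ℝ) ^ (c / 2) * (x : ℝ) ^ (c / 2)) ≤ (x : ℝ) ^ (c / 2) * (x : ℝ) ^ (c / 2) := by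
    nlinarith
  linarith

/-- counting function of a basis of order `h` -/
theorem count_basis_h {A : Set ℕ} {h : ℕ} (hh : 1 ≤ h)
    (H : ∃ n0 : ℕ, ∀ n : ℕ, n0 ≤ n → (reps A h n).Nonempty) {ε : ℝ} (hε : ε * h < 1) :
    ∃ᶠ N : ℕ in atTop, (N : ℝ) ^ ε ≤ ((A ∩ Set.Iio N).ncard : ℝ) := by
  obtain ⟨n0, hn0⟩ := H
  rw [frequently_atTop]
  intro M
  set n := M + n0 + 2 + ⌈1 / (1 - ε * h)⌉₊ with hn
  refine ⟨2 ^ n, ?_, ?_⟩
  · have : n < 2 ^ n := Nat.lt_two_pow_self
    omega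
  have h1 := count_of_basis' hn0 n (by omega)
  by_contra hcon
  push Not at hcon
  have h2 : (((2 ^ n : ℕ) : ℝ)) ^ ε = (2 : ℝ) ^ (n * ε) := by
    push_cast
    rw [← Real.rpow_natCast, ← Real.rpow_mul (by norm_num)]
  rw [h2] at hcon
  have h3 : ((A ∩ Set.Iio (2 ^ n)).ncard : ℝ) ^ h < ((2 : ℝ) ^ (n * ε)) ^ h :=
    pow_lt_pow_left₀ hcon (Nat.cast_nonneg _) (by omega)
  have h4 : ((2 : ℝ) ^ (n * ε)) ^ h = (2 : ℝ) ^ (n * ε * h) := by
    rw [← Real.rpow_natCast, ← Real.rpow_mul (by norm_num)]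
  rw [h4] at h3
  have h5 : (2 : ℝ) ^ ((n : ℝ) - 1) ≤ ((A ∩ Set.Iio (2 ^ n)).ncard : ℝ) ^ h := by
    have h6 : ((2 ^ (n - 1) : ℕ) : ℝ) ≤ ((A ∩ Set.Iio (2 ^ n)).ncard : ℝ) ^ h := by
      exact_mod_cast h1
    refine le_trans (le_of_eq ?_) h6
    rw [show ((n : ℝ) - 1) = ((n - 1 : ℕ) : ℝ) by rw [Nat.cast_sub (by omega)]; simp,
      Real.rpow_natCast]
    push_cast
    rfl
  have h6 := lt_of_le_of_lt h5 h3
  rw [Real.rpow_lt_rpow_left_iff (by norm_num)] at h6
  have h7 : 1 / (1 - ε * h) ≤ n := by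
    refine (Nat.le_ceil _).trans ?_
    exact_mod_cast (by omega : ⌈1 / (1 - ε * h)⌉₊ ≤ n)
  rw [div_le_iff₀ (by linarith)] at h7
  nlinarith

/-- one of the parts is nearly as large as the union -/
theorem union_part {A : Set ℕ} {m : ℕ} {B : Fin m → Set ℕ} (hAB : A = ⋃ i, B i) {ε ε' : ℝ}
    (hεε : ε' < ε) (H : ∃ᶠ N : ℕ in atTop, (N : ℝ) ^ ε ≤ ((A ∩ Set.Iio N).ncard : ℝ)) :
    ∃ i, ∃ᶠ N : ℕ in atTop, (N : ℝ) ^ ε' ≤ ((B i ∩ Set.Iio N).ncard : ℝ) := by
  have h1 : ∃ᶠ N : ℕ in atTop, ∃ i, (N : ℝ) ^ ε' ≤ ((B i ∩ Set.Iio N).ncard : ℝ) := by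
    have hev : ∀ᶠ N : ℕ in atTop, (m : ℝ) ≤ (N : ℝ) ^ (ε - ε') :=
      ((tendsto_rpow_atTop (by linarith : 0 < ε - ε')).comp
        tendsto_natCast_atTop_atTop).eventually_ge_atTop _
    refine ((H.and_eventually hev).and_eventually (eventually_ge_atTop 1)).mono fun N hN => ?_
    obtain ⟨⟨hN1, hN2⟩, hN3⟩ := hN
    have hN0 : (0 : ℝ) < N := by exact_mod_cast hN3
    have hpos : 0 < (A ∩ Set.Iio N).ncard := by
      have : (0 : ℝ) < (N : ℝ) ^ ε := Real.rpow_pos_of_pos hN0 _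
      exact_mod_cast lt_of_lt_of_le this hN1
    obtain ⟨i, hi⟩ := exists_part hAB N hpos
    refine ⟨i, ?_⟩
    have hi' : ((A ∩ Set.Iio N).ncard : ℝ) ≤ m * (B i ∩ Set.Iio N).ncard := by exact_mod_cast hi
    have h2 : (N : ℝ) ^ ε = (N : ℝ) ^ (ε - ε') * (N : ℝ) ^ ε' := by
      rw [← Real.rpow_add hN0]
      congr 1
      ring
    by_contra hcon
    push Not at hcon
    have h3 : (m : ℝ) * (B i ∩ Set.Iio N).ncard < (N : ℝ) ^ (ε - ε') * (N : ℝ) ^ ε' := by
      rcases Nat.eq_zero_or_pos m with h0 | h0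
      · subst h0
        exact i.elim0
      · have hm : (0 : ℝ) < m := by exact_mod_cast h0
        calc (m : ℝ) * (B i ∩ Set.Iio N).ncard < m * (N : ℝ) ^ ε' :=
              mul_lt_mul_of_pos_left hcon hm
          _ ≤ _ := mul_le_mul_of_nonneg_right hN2 (by positivity)
    linarith
  by_contra hcon
  push Not at hcon
  have h3 := eventually_all.2 hcon
  obtain ⟨N, hN1, hN2⟩ := (h1.and_eventually h3).exists
  obtain ⟨i, hi⟩ := hN1
  exact absurd hi (not_le.2 (hN2 i))

end Pool.Agent.TH521.Dig
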