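import Mathlib
import Pool.Agent.TH521.DigBases

set_option autoImplicit false

/-!
Bases of order `h` which are finite unions of sets closed under digitwise operations: conclusion.
-/

namespace Pool.Agent.TH521.Dig

open Finset Filter Pool.Agent.H523R4.BC

theorem nonempty_of_freq {B : Set ℕ} {ε : ℝ}
    (H : ∃ᶠ N : ℕ in atTop, (N : ℝ) ^ ε ≤ ((B ∩ Set.Iio N).ncard : ℝ)) : ∃ a0, a0 ∈ B := by
  obtain ⟨N, hN1, hN2⟩ := (H.and_eventually (eventually_ge_atTop 1)).exists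
  have hN0 : (0 : ℝ) < N := by exact_mod_cast hN2
  have hpos : 0 < (B ∩ Set.Iio N).ncard := by
    have : (0 : ℝ) < (N : ℝ) ^ ε := Real.rpow_pos_of_pos hN0 _
    exact_mod_cast lt_of_lt_of_le this hN1
  obtain ⟨a, ha⟩ := (Set.ncard_pos ((Set.finite_Iio _).subset Set.inter_subset_right)).1 hpos
  exact ⟨a, ha.1⟩

theorem semi_freq_h {g h : ℕ} (hg : 2 ≤ g) (hh : 2 ≤ h) {ε : ℝ} (hε : 0 < ε) :
    ∃ c : ℝ, 0 < c ∧ ∀ B : Set ℕ,
    (SemC g B ∨ MedC g B) → (∃ᶠ N : ℕ in atTop, (N : ℝ) ^ ε ≤ ((B ∩ Set.Iio N).ncard : ℝ)) →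
    ∃ᶠ n : ℕ in atTop, (n : ℝ) ^ c ≤ ((reps B h n).ncard : ℝ) := by
  obtain ⟨c, hc, h1⟩ := semi_freq hg hε
  refine ⟨c / 2, by positivity, fun B hB H => ?_⟩
  obtain ⟨a0, ha0⟩ := nonempty_of_freq H
  refine rep2_to_reps hh ha0 hc (h1 B ?_ H)
  rcases hB with hB | hB
  · exact hB
  · exact semC_of_medC hg hB

theorem aff_freq_h {g h : ℕ} (hg : 2 ≤ g) (hh : 2 ≤ h) {ε : ℝ}
    (hε : Real.log h < ε * ((h : ℝ) - 1) * Real.log g) : ∃ c : ℝ, 0 < c ∧ ∀ B : Set ℕ,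
    AffC g B → (∃ᶠ N : ℕ in atTop, (N : ℝ) ^ ε ≤ ((B ∩ Set.Iio N).ncard : ℝ)) →
    ∃ᶠ n : ℕ in atTop, (n : ℝ) ^ c ≤ ((reps B h n).ncard : ℝ) := by
  have hgR : (2 : ℝ) ≤ g := by exact_mod_cast hg
  have hg0 : (0 : ℝ) < g := by linarith
  have hhR : (2 : ℝ) ≤ h := by exact_mod_cast hh
  have hlg : 0 < Real.log g := Real.log_pos (by linarith)
  have hlh : 0 < Real.log h := Real.log_pos (by linarith)
  have hd : 0 < ((h : ℝ) - 1) * Real.log g := mul_pos (by linarith) hlg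
  set θ := Real.log h / (((h : ℝ) - 1) * Real.log g) with hθ
  have hθε : θ < ε := by
    rw [hθ, div_lt_iff₀ hd]
    linarith
  have hθ0 : 0 ≤ θ := by positivity
  set α := (θ + ε) / 2 with hα
  have hα1 : Real.log h < α * ((h : ℝ) - 1) * Real.log g := by
    have : θ < α := by linarith
    rw [hθ, div_lt_iff₀ hd] at this
    linarith
  obtain ⟨c, hc, hev⟩ := power_aff_h hg hh α hα1
  refine ⟨c / (g + h), by positivity, fun B hB H => ?_⟩
  have H2 := freq_pow hg (by linarith : 0 ≤ α) (by linarith : α < ε) H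
  refine to_freq_gen hg (r := fun n => (reps B h n).ncard) hc ?_
  exact (H2.and_eventually hev).mono fun n hn => hn.2 B hB hn.1

/-- condition on the size for sets given by linear congruences -/
def Big (h g : ℕ) (ε : ℝ) : Prop :=
  (h = 2 ∧ 5 / 11 < ε) ∨ Real.log h < ε * ((h : ℝ) - 1) * Real.log g

theorem big_mono {h g : ℕ} (hg : 2 ≤ g) (hh : 2 ≤ h) {ε ε' : ℝ} (hεε : ε ≤ ε')
    (H : Big h g ε) : Big h g ε' := by
  rcases H with ⟨h1, h2⟩ | h1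
  · exact Or.inl ⟨h1, by linarith⟩
  · right
    refine lt_of_lt_of_le h1 ?_
    have hgR : (2 : ℝ) ≤ g := by exact_mod_cast hg
    have hhR : (2 : ℝ) ≤ h := by exact_mod_cast hh
    have hlg : 0 < Real.log g := Real.log_pos (by linarith)
    have : ε * ((h : ℝ) - 1) ≤ ε' * ((h : ℝ) - 1) := mul_le_mul_of_nonneg_right hεε (by linarith)
    exact mul_le_mul_of_nonneg_right this hlg.le

/-- the three types -/
def Typ (h g : ℕ) (ε : ℝ) (B : Set ℕ) : Prop :=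
  (SemC g B ∨ MedC g B) ∨ (AffC g B ∧ Big h g ε)

theorem typ_freq {g h : ℕ} (hg : 2 ≤ g) (hh : 2 ≤ h) {ε : ℝ} (hε : 0 < ε) :
    ∃ c : ℝ, 0 < c ∧ ∀ B : Set ℕ, Typ h g ε B →
    (∃ᶠ N : ℕ in atTop, (N : ℝ) ^ ε ≤ ((B ∩ Set.Iio N).ncard : ℝ)) →
    ∃ᶠ n : ℕ in atTop, (n : ℝ) ^ c ≤ ((reps B h n).ncard : ℝ) := by
  obtain ⟨c1, hc1, h1⟩ := semi_freq_h hg hh hε
  obtain ⟨c2, hc2, h2⟩ : ∃ c : ℝ, 0 < c ∧ ∀ B : Set ℕ, AffC g B → Big h g ε →
      (∃ᶠ N : ℕ in atTop, (N : ℝ) ^ ε ≤ ((B ∩ Set.Iio N).ncard : ℝ)) →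
      ∃ᶠ n : ℕ in atTop, (n : ℝ) ^ c ≤ ((reps B h n).ncard : ℝ) := by
    by_cases hb : Big h g ε
    · rcases hb with ⟨h3, h4⟩ | h3
      · obtain ⟨c, hc, h5⟩ := dig_freq hg h4
        refine ⟨c / 2, by positivity, fun B hB _ H => ?_⟩
        obtain ⟨a0, ha0⟩ := nonempty_of_freq H
        exact rep2_to_reps hh ha0 hc (h5 B (Or.inr (Or.inr hB)) H)
      · obtain ⟨c, hc, h4⟩ := aff_freq_h hg hh h3
        exact ⟨c, hc, fun B hB _ H => h4 B hB H⟩
    · exact ⟨1, one_pos, fun B _ h3 => absurd h3 hb⟩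
  refine ⟨min c1 c2, lt_min hc1 hc2, fun B hB H => ?_⟩
  rcases hB with hB | ⟨hB, hb⟩
  · exact freq_weaken (f := fun n => (reps B h n).ncard) (min_le_left _ _) (h1 B hB H)
  · exact freq_weaken (f := fun n => (reps B h n).ncard) (min_le_right _ _) (h2 B hB hb H)

theorem typ_freq_unif (G : ℕ) {h : ℕ} (hh : 2 ≤ h) {ε : ℝ} (hε : 0 < ε) :
    ∃ c : ℝ, 0 < c ∧ ∀ g, 2 ≤ g → g ≤ G → ∀ B : Set ℕ, Typ h g ε B →
    (∃ᶠ N : ℕ in atTop, (N : ℝ) ^ ε ≤ ((B ∩ Set.Iio N).ncard : ℝ)) →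
    ∃ᶠ n : ℕ in atTop, (n : ℝ) ^ c ≤ ((reps B h n).ncard : ℝ) := by
  induction G with
  | zero => exact ⟨1, one_pos, fun g h1 h2 => by omega⟩
  | succ G ih =>
    obtain ⟨c, hc, h0⟩ := ih
    by_cases hG : 2 ≤ G + 1
    · obtain ⟨c', hc', h'⟩ := typ_freq hG hh hε
      refine ⟨min c c', lt_min hc hc', fun g h1 h2 B hB H => ?_⟩
      rcases Nat.lt_or_ge g (G + 1) with h3 | h3
      · exact freq_weaken (f := fun n => (reps B h n).ncard) (min_le_left _ _)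
          (h0 g h1 (by omega) B hB H)
      · have h4 : g = G + 1 := by omega
        subst h4
        exact freq_weaken (f := fun n => (reps B h n).ncard) (min_le_right _ _) (h' B hB H)
    · exact ⟨c, hc, fun g h1 h2 => by omega⟩

/-- condition on order and base -/
def Good (h g : ℕ) : Prop := h = 2 ∨ h ^ h < g ^ (h - 1)

theorem good_big {h g : ℕ} (hg : 2 ≤ g) (hh : 2 ≤ h) (H : Good h g) :
    ∃ ε : ℝ, ε * h < 1 ∧ Big h g ε := by
  have hgR : (2 : ℝ) ≤ g := by exact_mod_cast hg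
  have hhR : (2 : ℝ) ≤ h := by exact_mod_cast hh
  have hlg : 0 < Real.log g := Real.log_pos (by linarith)
  rcases H with h2 | h2
  · subst h2
    exact ⟨23 / 50, by norm_num, Or.inl ⟨rfl, by norm_num⟩⟩
  · have h3 : Real.log ((h : ℝ) ^ h) < Real.log ((g : ℝ) ^ (h - 1)) := by
      refine Real.log_lt_log (by positivity) ?_
      exact_mod_cast h2
    rw [Real.log_pow, Real.log_pow, Nat.cast_sub (by omega)] at h3
    push_cast at h3
    have hd : 0 < ((h : ℝ) - 1) * Real.log g := mul_pos (by linarith) hlg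
    set θ := Real.log h / (((h : ℝ) - 1) * Real.log g) with hθ
    have hθ1 : θ < 1 / h := by
      rw [hθ, div_lt_div_iff₀ hd (by linarith)]
      linarith
    refine ⟨(θ + 1 / h) / 2, ?_, Or.inr ?_⟩
    · have h4 : (θ + 1 / h) / 2 < 1 / h := by linarith
      rwa [lt_div_iff₀ (by linarith)] at h4
    · have h4 : θ < (θ + 1 / h) / 2 := by linarith
      rw [hθ, div_lt_iff₀ hd] at h4
      rw [← hθ] at h4
      linarith

theorem good_big_unif (G : ℕ) {h : ℕ} (hh : 2 ≤ h) : ∃ ε : ℝ, 0 < ε ∧ ε * h < 1 ∧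
    ∀ g, 2 ≤ g → g ≤ G → Good h g → Big h g ε := by
  have hhR : (2 : ℝ) ≤ h := by exact_mod_cast hh
  induction G with
  | zero =>
    refine ⟨1 / (2 * h), by positivity, ?_, fun g h1 h2 => by omega⟩
    have : 1 / (2 * (h : ℝ)) * h = 1 / 2 := by field_simp
    rw [this]
    norm_num
  | succ G ih =>
    obtain ⟨ε, hε0, hε, h0⟩ := ih
    by_cases hG : 2 ≤ G + 1 ∧ Good h (G + 1)
    · obtain ⟨ε', hε', h'⟩ := good_big hG.1 hh hG.2
      refine ⟨max ε ε', lt_of_lt_of_le hε0 (le_max_left _ _), ?_, fun g h1 h2 h3 => ?_⟩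
      · rcases max_choice ε ε' with e | e <;> rw [e] <;> assumption
      · rcases Nat.lt_or_ge g (G + 1) with h4 | h4
        · exact big_mono h1 hh (le_max_left _ _) (h0 g h1 (by omega) h3)
        · have h5 : g = G + 1 := by omega
          subst h5
          exact big_mono h1 hh (le_max_right _ _) h'
    · refine ⟨ε, hε0, hε, fun g h1 h2 h3 => ?_⟩
      rcases Nat.lt_or_ge g (G + 1) with h4 | h4
      · exact h0 g h1 (by omega) h3
      · have h5 : g = G + 1 := by omega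
        subst h5
        exact absurd ⟨h1, h3⟩ hG

/-- the main theorem for bases -/
theorem bases {h : ℕ} (hh : 2 ≤ h) (G : ℕ) : ∃ c : ℝ, 0 < c ∧
    ∀ (A : Set ℕ) (m : ℕ) (B : Fin m → Set ℕ) (g : Fin m → ℕ), (∀ i, 2 ≤ g i ∧ g i ≤ G) →
    (∀ i, (SemC (g i) (B i) ∨ MedC (g i) (B i)) ∨ (AffC (g i) (B i) ∧ Good h (g i))) →
    A = ⋃ i, B i → (∃ n0 : ℕ, ∀ n : ℕ, n0 ≤ n → (reps A h n).Nonempty) →
    ∃ᶠ n : ℕ in atTop, (n : ℝ) ^ c ≤ ((reps A h n).ncard : ℝ) := by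
  have hhR : (2 : ℝ) ≤ h := by exact_mod_cast hh
  obtain ⟨ε, hε0, hε, hbig⟩ := good_big_unif G hh
  obtain ⟨c, hc, hmain⟩ := typ_freq_unif G hh hε0
  refine ⟨c, hc, fun A m B g hg hB hAB H => ?_⟩
  obtain ⟨ε', hεε, hε'⟩ : ∃ ε' : ℝ, ε < ε' ∧ ε' * h < 1 := by
    refine ⟨(ε + 1 / h) / 2, ?_, ?_⟩
    · have : ε < 1 / h := by rw [lt_div_iff₀ (by linarith)]; exact hε
      linarith
    · have : ε < 1 / h := by rw [lt_div_iff₀ (by linarith)]; exact hε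
      have h2 : (ε + 1 / h) / 2 < 1 / h := by linarith
      rwa [lt_div_iff₀ (by linarith)] at h2
  obtain ⟨i, hi⟩ := union_part hAB hεε (count_basis_h (by omega) H hε')
  have htyp : Typ h (g i) ε (B i) := by
    rcases hB i with h1 | ⟨h1, h2⟩
    · exact Or.inl h1
    · exact Or.inr ⟨h1, hbig _ (hg i).1 (hg i).2 h2⟩
  have h3 := hmain (g i) (hg i).1 (hg i).2 (B i) htyp hi
  refine h3.mono fun n hn => hn.trans ?_
  have : (reps (B i) h n).ncard ≤ (reps A h n).ncard := by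
    refine Set.ncard_le_ncard ?_ (reps_finite _ _ _)
    intro s hs
    exact ⟨hs.1, fun a ha => by rw [hAB]; exact Set.mem_iUnion.2 ⟨i, hs.2.1 a ha⟩, hs.2.2⟩
  exact_mod_cast this

end Pool.Agent.TH521.Dig
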