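import Mathlib
import Pool.Agent.TH597.IV.Stm

set_option autoImplicit false

/-!
Principal minors of a sum of squares: the linear algebra step of project IV.
-/

namespace Pool.Agent.TH521.IV_LINALG

open Pool.Agent.TH597.IV
open scoped InnerProductSpace

section
variable {E : Type*} [NormedAddCommGroup E] [InnerProductSpace ℝ E] {ι : Type*} [Fintype ι]

theorem PJ_apply (b : OrthonormalBasis ι ℝ E) (J : Finset ι) (v : E) :
    PJ b J v = ∑ i ∈ J, ⟪b i, v⟫_ℝ • b i := by
  unfold PJ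
  rw [sum_apply]
  rfl

theorem PJ_symm (b : OrthonormalBasis ι ℝ E) (J : Finset ι) (u v : E) :
    ⟪PJ b J u, v⟫_ℝ = ⟪u, PJ b J v⟫_ℝ := by
  rw [PJ_apply, PJ_apply, sum_inner, inner_sum]
  refine Finset.sum_congr rfl fun i _ => ?_
  rw [real_inner_smul_left, real_inner_smul_right, real_inner_comm u (b i)]
  ring

theorem PJ_basis [DecidableEq ι] (b : OrthonormalBasis ι ℝ E) (J : Finset ι) {i : ι}
    (hi : i ∈ J) : PJ b J (b i) = b i := by
  rw [PJ_apply, Finset.sum_eq_single i]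
  · rw [orthonormal_iff_ite.mp b.orthonormal i i, if_pos rfl, one_smul]
  · intro j _ hji
    rw [orthonormal_iff_ite.mp b.orthonormal j i, if_neg hji, zero_smul]
  · intro h
    exact absurd hi h

theorem PJ_idem (b : OrthonormalBasis ι ℝ E) (J : Finset ι) (v : E) :
    PJ b J (PJ b J v) = PJ b J v := by
  classical
  conv_lhs => rw [PJ_apply b J v, map_sum]
  rw [PJ_apply b J v]
  refine Finset.sum_congr rfl fun i hi => ?_
  rw [map_smul, PJ_basis b J hi]

end

theorem linalg : Pool.Agent.TH597.IV.LINALG := by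
  classical
  intro E _ _ _ n c Δ hc ι _ b M hM
  -- the quadratic form
  have hq : ∀ v, ⟪M v, v⟫_ℝ = ∑ k ∈ Finset.range n, c k * ⟪Δ k, v⟫_ℝ ^ 2 := by
    intro v
    rw [hM, sum_inner]
    refine Finset.sum_congr rfl fun k _ => ?_
    rw [real_inner_smul_left]
    ring
  have h0 : ∀ v, ⟪M v, v⟫_ℝ = 0 → ∀ k < n, ⟪Δ k, v⟫_ℝ = 0 := by
    intro v hv k hk
    rw [hq, Finset.sum_eq_zero_iff_of_nonneg] at hv
    · have h1 := hv k (Finset.mem_range.mpr hk)
      have h2 := hc k hk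
      rcases mul_eq_zero.mp h1 with h3 | h3
      · exact absurd h3 h2.ne'
      · exact pow_eq_zero_iff (two_ne_zero) |>.mp h3
    · intro i hi
      exact mul_nonneg (hc i (Finset.mem_range.mp hi)).le (sq_nonneg _)
  have h1 : ∀ v, ⟪M v, v⟫_ℝ = 0 → M v = 0 := by
    intro v hv
    rw [hM]
    refine Finset.sum_eq_zero fun k hk => ?_
    rw [h0 v hv k (Finset.mem_range.mp hk), mul_zero, zero_smul]
  -- the vectors lie in the range
  have hR : ∀ k < n, ∃ w, M w = Δ k := by
    intro k hk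
    have h2 : Δ k ∈ (LinearMap.range (M : E →ₗ[ℝ] E))ᗮᗮ := by
      rw [Submodule.mem_orthogonal]
      intro u hu
      rw [Submodule.mem_orthogonal] at hu
      have h3 : ⟪M u, u⟫_ℝ = 0 := hu (M u) ⟨u, rfl⟩
      rw [real_inner_comm]
      exact h0 u h3 k hk
    rw [Submodule.orthogonal_orthogonal] at h2
    obtain ⟨w, hw⟩ := h2
    exact ⟨w, hw⟩
  -- the choice of the coordinates
  obtain ⟨J0, -, -, hJ1, hJ2⟩ := exists_linearIndepOn_extension (K := ℝ)
    (v := fun i => M (b i)) (s := ∅) (t := Set.univ) (linearIndepOn_empty ℝ _) (Set.subset_univ _)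
  set J : Finset ι := J0.toFinset with hJ
  have hJm : ∀ i, i ∈ J ↔ i ∈ J0 := fun i => by rw [hJ, Set.mem_toFinset]
  refine ⟨J, ?_⟩
  set P := PJ b J with hP
  -- M is injective on the range of P
  have hA : ∀ v, P v = v → M v = 0 → v = 0 := by
    intro v hv hMv
    have h2 : v = ∑ i ∈ J, ⟪b i, v⟫_ℝ • b i := by rw [← PJ_apply, ← hP, hv]
    have h3 : ∑ i ∈ J, ⟪b i, v⟫_ℝ • M (b i) = 0 := by
      rw [← hMv]
      conv_rhs => rw [h2, map_sum]
      exact Finset.sum_congr rfl fun i _ => (map_smul _ _ _).symm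
    have h4 : ∀ i ∈ J, ⟪b i, v⟫_ℝ = 0 := by
      have h5 := linearIndepOn_iff'.mp hJ2 J (fun i => ⟪b i, v⟫_ℝ)
        (fun i hi => (hJm i).mp hi) h3
      exact h5
    rw [h2]
    exact Finset.sum_eq_zero fun i hi => by rw [h4 i hi, zero_smul]
  -- M maps the range of P onto the range of M
  have hB : ∀ w, ∃ σ, P σ = σ ∧ M σ = M w := by
    intro w
    have h2 : M w ∈ Submodule.span ℝ ((fun i => M (b i)) '' J0) := by
      have h3 : w = ∑ i, ⟪b i, w⟫_ℝ • b i := (b.sum_repr' w).symm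
      rw [h3, map_sum]
      refine Submodule.sum_mem _ fun i _ => ?_
      rw [map_smul]
      exact Submodule.smul_mem _ _ (hJ1 ⟨i, Set.mem_univ _, rfl⟩)
    have h4 : Submodule.span ℝ ((fun i => M (b i)) '' J0) ≤
        (LinearMap.ker ((1 : E →L[ℝ] E) - P : E →L[ℝ] E).toLinearMap).map M.toLinearMap := by
      rw [Submodule.span_le]
      rintro _ ⟨i, hi, rfl⟩
      refine ⟨b i, ?_, rfl⟩
      simp only [SetLike.mem_coe, LinearMap.mem_ker]
      show b i - P (b i) = 0
      rw [hP, PJ_basis b J ((hJm i).mpr hi), sub_self]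
    obtain ⟨σ, hσ1, hσ2⟩ := h4 h2
    refine ⟨σ, ?_, hσ2⟩
    have h5 : σ - P σ = 0 := hσ1
    exact (sub_eq_zero.mp h5).symm
  -- main step
  have hL : ∀ v, P v = v → P (M v) = 0 → M v = 0 := by
    intro v hv h2
    apply h1
    rw [← hv]
    rw [hv]
    have h3 : ⟪M v, v⟫_ℝ = ⟪M v, P v⟫_ℝ := by rw [hv]
    rw [h3, ← PJ_symm, ← hP, h2, inner_zero_left]
  have hid : ∀ v, P (P v) = P v := PJ_idem b J
  have hQa : ∀ v, (P * M * P + (1 - P)) v = P (M (P v)) + (v - P v) := fun v => rfl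
  have hQ1 : ∀ v w, (P * M * P + (1 - P)) v = P w → P v = v ∧ P (M v) = P w := by
    intro v w h
    rw [hQa] at h
    have h2 : v - P v = 0 := by
      have h3 := congrArg (fun x => x - P x) h
      simp only [map_add, map_sub, hid, sub_self] at h3
      rw [add_zero] at h3
      have h4 : P (M (P v)) + (v - P v) - P (M (P v)) = v - P v := by abel
      rwa [h4] at h3
    have h3 : P v = v := (sub_eq_zero.mp h2).symm
    refine ⟨h3, ?_⟩
    rw [h2, add_zero, h3] at h
    exact h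
  have hinj : Function.Injective (P * M * P + (1 - P) : E →L[ℝ] E) := by
    rw [injective_iff_map_eq_zero]
    intro v hv
    obtain ⟨h2, h3⟩ := hQ1 v 0 (by rw [hv, map_zero])
    rw [map_zero] at h3
    exact hA v h2 (hL v h2 h3)
  have hU : IsUnit (P * M * P + (1 - P) : E →L[ℝ] E) := by
    rw [ContinuousLinearMap.isUnit_iff_bijective]
    refine ⟨hinj, ?_⟩
    exact (LinearMap.injective_iff_surjective
      (f := (P * M * P + (1 - P) : E →L[ℝ] E).toLinearMap)).mp hinj
  refine ⟨hU, ?_⟩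
  intro k hk
  obtain ⟨w, hw⟩ := hR k hk
  obtain ⟨σ, hσ1, hσ2⟩ := hB w
  set ρ := Ring.inverse (P * M * P + (1 - P)) (P (Δ k)) with hρ
  have h2 : (P * M * P + (1 - P)) ρ = P (Δ k) := by
    have h3 := Ring.mul_inverse_cancel _ hU
    have h4 := congrArg (fun T : E →L[ℝ] E => T (P (Δ k))) h3
    exact h4
  obtain ⟨h3, h4⟩ := hQ1 ρ (Δ k) h2
  have h5 : M (σ - ρ) = 0 := by
    apply hL
    · rw [map_sub, hσ1, h3]
    · rw [map_sub, map_sub, hσ2, hw, h4, sub_self]
  rw [map_sub, sub_eq_zero, hσ2, hw] at h5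
  exact h5.symm

end Pool.Agent.TH521.IV_LINALG
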